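import Pool.Agent.T2H55.XY.Cnt

/-!
# The number of the products `p q` such that `p + q` is a cube, continued
-/

set_option autoImplicit false
set_option linter.unusedVariables false

namespace Pool.Agent.T2H55.XY

open Finset Polynomial
open Pool.Agent.W93.PG (WinP cnt)

/-- the polynomial of the cubes which are used -/
noncomputable def Pc : ℤ[X] := (C 6 * X - C 2) ^ 3

lemma Pc_eval (x : ℤ) : Pc.eval x = (6 * x - 2) ^ 3 := by
  unfold Pc
  simp

lemma Pc_deg : Pc.natDegree = 3 := by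
  unfold Pc
  rw [natDegree_pow]
  have : (C (6 : ℤ) * X - C 2).natDegree = 1 := by
    rw [natDegree_sub_C]
    exact natDegree_C_mul_X 6 (by norm_num)
  rw [this]

/-- the cubes -/
def cu (i : ℕ) : ℕ := (6 * i + 4) ^ 3

lemma Pc_cu (i : ℕ) : Pc.eval (((i + 1 : ℕ) : ℕ) : ℤ) = (cu i : ℤ) := by
  rw [Pc_eval]
  unfold cu
  push_cast
  ring

open Classical in
lemma few : ∃ L₀ : ℕ, ∀ L : ℕ, L₀ ≤ L →
    (((univ : Finset (Fin L)).filter (fun i : Fin L => ¬ WinP (1 / 2) 1 (cu i))).card : ℝ) ≤ L / 4 := by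
  obtain ⟨t₀, CE, hCE, HE⟩ := Pool.Agent.Y834.CD.poly_energy Pc (by rw [Pc_deg]; norm_num) 1 le_rfl
  obtain ⟨N₀, h0⟩ := Pool.Agent.TH935.GF.transfer (t₀ + 1) 216 1 1 (WinP (1 / 2) 1) (by
    intro B C U
    exact Pool.Agent.TH935.GF.fam_win (t₀ + 1) B C 1 U 0 (by omega) (1 / 2) (by norm_num)
      (WinP (1 / 2) 1) (fun m _ _ h => h))
  obtain ⟨n1, h1⟩ := Pool.Agent.H373R2.T7.ev_L' (CE + 4)
  refine ⟨N₀ + n1 + 1, fun L hL => ?_⟩
  have hLpos : 1 ≤ L := by omega
  have hL3 : L ≤ L ^ 3 := Nat.le_self_pow (by norm_num) L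
  have hlog := h1 (L ^ 3) (by omega)
  have hE := HE (t₀ + 1) (by omega) L (L ^ 3) hLpos (Nat.one_le_pow _ _ hLpos) (by rw [Pc_deg, one_mul])
  have hlog0 : 0 < Real.log ((L ^ 3 : ℕ) : ℝ) := by linarith
  have h2 := h0 (L ^ 3) (by omega) (Fin L) (fun i => Pc.eval (((i : ℕ) + 1 : ℕ) : ℤ)) (by
    intro i
    simp only [Pc_cu]
    have hi : (i : ℕ) + 1 ≤ L := i.2
    have h3 : cu i ≤ 216 * L ^ 3 := by
      unfold cu
      calc (6 * (i : ℕ) + 4) ^ 3 ≤ (6 * L) ^ 3 := Nat.pow_le_pow_left (by omega) 3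
        _ = 216 * L ^ 3 := by ring
    exact_mod_cast h3) (by
    have e : (Pool.Agent.TH935.GF.En (t₀ + 1) (fun i : Fin L => Pc.eval (((i : ℕ) + 1 : ℕ) : ℤ)) : ℝ) =
        (Pool.Agent.Y834.CD.en (t₀ + 1) (fun m : Fin L => Pc.eval (((m : ℕ) + 1 : ℕ) : ℤ)) : ℝ) := by
      unfold Pool.Agent.TH935.GF.En Pool.Agent.Y834.CD.en
      rw [Nat.card_eq_fintype_card, Fintype.card_subtype]
    rw [e, Fintype.card_fin, pow_one]
    refine hE.trans ?_
    apply mul_le_mul_of_nonneg_right _ (by positivity)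
    linarith)
    ((univ : Finset (Fin L)).filter (fun i : Fin L => ¬ WinP (1 / 2) 1 (cu i))) (by
    intro i hi
    rw [mem_filter] at hi
    simp only [Pc_cu]
    refine ⟨?_, ?_, ?_⟩
    · have : 0 < cu i := by unfold cu; positivity
      exact_mod_cast this
    · have : Even (cu i) := by
        unfold cu
        exact Even.pow_of_ne_zero (by rw [Nat.even_iff]; omega) (by norm_num)
      exact_mod_cast this
    · rw [Int.toNat_natCast]
      exact hi.2)
  rw [Fintype.card_fin, pow_one] at h2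
  refine h2.trans ?_
  apply div_le_div_of_nonneg_left (Nat.cast_nonneg _) (by norm_num)
  linarith

open Classical in
/-- the number of the members of the family -/
theorem count : ∃ c : ℝ, 0 < c ∧ ∃ X₀ : ℕ, ∀ X : ℕ, X₀ ≤ X →
    c * ((X : ℝ) ^ (2 / 3 : ℝ) / Real.log X ^ 2) ≤ (((Icc 1 X).filter Fam).card : ℝ) := by
  obtain ⟨L₀, hfew⟩ := few
  obtain ⟨m₁, hone⟩ := one_cube
  obtain ⟨n2, hlog2⟩ := Pool.Agent.H373R2.T7.ev_L' 1
  refine ⟨1 / (11664 * 64), by norm_num, 11664 * (L₀ + m₁ + n2 + 2) ^ 6, fun X hX => ?_⟩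
  -- the length
  have hex : ∃ L : ℕ, L₀ + m₁ + n2 + 2 ≤ L ∧ 11664 * L ^ 6 ≤ X ∧ X < 11664 * (L + 1) ^ 6 := by
    have h1 : ∃ n : ℕ, X < 11664 * (n + 1) ^ 6 := ⟨X, by
      have : X + 1 ≤ (X + 1) ^ 6 := Nat.le_self_pow (by norm_num) _
      omega⟩
    refine ⟨Nat.find h1, ?_, ?_, Nat.find_spec h1⟩
    · by_contra hcon
      push Not at hcon
      have h2 := Nat.find_spec h1
      have h3 : (Nat.find h1 + 1) ^ 6 ≤ (L₀ + m₁ + n2 + 2) ^ 6 := Nat.pow_le_pow_left (by omega) 6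
      omega
    · rcases Nat.eq_zero_or_pos (Nat.find h1) with h2 | h2
      · rw [h2]; norm_num
      · have h3 := Nat.find_min h1 (m := Nat.find h1 - 1) (by omega)
        push Not at h3
        have e : Nat.find h1 - 1 + 1 = Nat.find h1 := by omega
        rwa [e] at h3
  obtain ⟨L, hL, hX1, hX2⟩ := hex
  have hL2 : 2 ≤ L := by omega
  have hLr : (2 : ℝ) ≤ L := by exact_mod_cast hL2
  have hL0 : (0 : ℝ) < L := by linarith
  -- the good indices
  obtain ⟨G, hG⟩ : ∃ G : Finset (Fin L), G = univ.filter (fun i : Fin L => WinP (1 / 2) 1 (cu i) ∧ L < 2 * ((i : ℕ) + 1)) :=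
    ⟨_, rfl⟩
  have hGc : (L : ℝ) / 4 ≤ G.card := by
    have h1 := hfew L (by omega)
    have h2 : (L : ℝ) / 2 ≤ ((univ : Finset (Fin L)).filter (fun i : Fin L => L < 2 * ((i : ℕ) + 1))).card := by
      have h3 : ((univ : Finset (Fin L)).filter (fun i : Fin L => ¬ L < 2 * ((i : ℕ) + 1))).card ≤ L / 2 := by
        calc _ ≤ (range (L / 2)).card := by
              refine card_le_card_of_injOn (fun i : Fin L => (i : ℕ)) ?_ ?_
              · intro i hi
                rw [mem_coe, mem_filter] at hi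
                rw [mem_coe, mem_range]
                show (i : ℕ) < L / 2
                have := hi.2
                omega
              · intro i _ j _ hij
                exact Fin.ext hij
          _ = L / 2 := card_range _
      have h4 := card_filter_add_card_filter_not (s := (univ : Finset (Fin L))) (fun i : Fin L => L < 2 * ((i : ℕ) + 1))
      rw [card_univ, Fintype.card_fin] at h4
      have h5 : L ≤ 2 * ((univ : Finset (Fin L)).filter (fun i : Fin L => L < 2 * ((i : ℕ) + 1))).card := by omega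
      have h6 : (L : ℝ) ≤ 2 * ((univ : Finset (Fin L)).filter (fun i : Fin L => L < 2 * ((i : ℕ) + 1))).card := by
        exact_mod_cast h5
      linarith
    have h3 : ((univ : Finset (Fin L)).filter (fun i : Fin L => L < 2 * ((i : ℕ) + 1))).card ≤
        G.card + ((univ : Finset (Fin L)).filter (fun i : Fin L => ¬ WinP (1 / 2) 1 (cu i))).card := by
      refine (card_le_card ?_).trans (card_union_le _ _)
      intro i hi
      rw [mem_filter] at hi
      rw [mem_union, hG, mem_filter, mem_filter]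
      by_cases h : WinP (1 / 2) 1 (cu i)
      · exact Or.inl ⟨mem_univ _, h, hi.2⟩
      · exact Or.inr ⟨mem_univ _, h⟩
    have h4 : (((univ : Finset (Fin L)).filter (fun i : Fin L => L < 2 * ((i : ℕ) + 1))).card : ℝ) ≤
        G.card + ((univ : Finset (Fin L)).filter (fun i : Fin L => ¬ WinP (1 / 2) 1 (cu i))).card := by
      exact_mod_cast h3
    linarith
  -- the bounds for the cubes
  have hcu : ∀ i ∈ G, 27 * L ^ 3 ≤ cu i ∧ cu i ≤ 216 * L ^ 3 := by
    intro i hi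
    rw [hG, mem_filter] at hi
    have hi' : (i : ℕ) + 1 ≤ L := i.2
    have h2 := hi.2.2
    unfold cu
    constructor
    · calc 27 * L ^ 3 = (3 * L) ^ 3 := by ring
        _ ≤ _ := Nat.pow_le_pow_left (by omega) 3
    · calc (6 * (i : ℕ) + 4) ^ 3 ≤ (6 * L) ^ 3 := Nat.pow_le_pow_left (by omega) 3
        _ = 216 * L ^ 3 := by ring
  have hLL : L ≤ L ^ 3 := Nat.le_self_pow (by norm_num) L
  obtain ⟨Λ, hΛ⟩ : ∃ Λ, Λ = Real.log (X : ℝ) := ⟨_, rfl⟩
  have hXL : 216 * L ^ 3 ≤ X := by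
    refine le_trans ?_ hX1
    have : L ^ 3 ≤ L ^ 6 := Nat.pow_le_pow_right (by omega) (by norm_num)
    omega
  have hΛ1 : 1 ≤ Λ := by
    rw [hΛ]
    exact hlog2 X (by omega)
  have hlow : ∀ i ∈ G, (L : ℝ) ^ 3 * (27 / 5) / Λ ^ 2 ≤ ((sm (cu i)).card : ℝ) := by
    intro i hi
    obtain ⟨h1, h2⟩ := hcu i hi
    have hi' := hi
    rw [hG, mem_filter] at hi'
    have h3 := hone (cu i) (by omega) (by
      unfold cu
      have : (6 * (i : ℕ) + 4) % 3 = 1 := by omega
      rw [Nat.pow_mod, this]) hi'.2.1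
    refine le_trans ?_ h3
    have h4 : (27 : ℝ) * L ^ 3 ≤ (cu i : ℝ) := by exact_mod_cast h1
    have h5 : (cu i : ℝ) ≤ X := by exact_mod_cast h2.trans hXL
    have h6 : (1 : ℝ) < cu i := by
      have : (0 : ℝ) < L ^ 3 := by positivity
      have : (8 : ℝ) ≤ L ^ 3 := by
        calc (8 : ℝ) = 2 ^ 3 := by norm_num
          _ ≤ _ := pow_le_pow_left₀ (by norm_num) hLr 3
      linarith
    have h7 : Real.log (cu i) ≤ Λ := by
      rw [hΛ]
      exact Real.log_le_log (by linarith) h5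
    have h8 : 0 < Real.log (cu i) := Real.log_pos h6
    calc (L : ℝ) ^ 3 * (27 / 5) / Λ ^ 2 = 27 * L ^ 3 / (5 * Λ ^ 2) := by
          field_simp
      _ ≤ (cu i : ℝ) / (5 * Λ ^ 2) := div_le_div_of_nonneg_right h4 (by positivity)
      _ ≤ (cu i : ℝ) / (5 * Real.log (cu i) ^ 2) := by
          apply div_le_div_of_nonneg_left (by positivity) (by positivity)
          have := pow_le_pow_left₀ h8.le h7 2
          linarith
  -- the injection
  have hinj : (G.sigma (fun i => sm (cu i))).card ≤ ((Icc 1 X).filter Fam).card := by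
    refine card_le_card_of_injOn (fun x : (_ : Fin L) × ℕ => x.2 * (cu x.1 - x.2)) ?_ ?_
    · rintro ⟨i, p⟩ hx
      rw [mem_coe, mem_sigma] at hx
      obtain ⟨h1, h2⟩ := hx
      simp only at h1 h2
      unfold sm at h2
      rw [mem_filter, mem_Icc] at h2
      obtain ⟨⟨h3, h4⟩, h5, h6, h7, h8, h9⟩ := h2
      rw [mem_coe, mem_filter, mem_Icc]
      simp only
      refine ⟨⟨Nat.mul_pos h6.pos h7.pos, ?_⟩, p, cu i - p, 6 * (i : ℕ) + 4, h6, h7, h5, h8, h9, ?_, rfl⟩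
      · refine le_trans ?_ hX1
        have h10 := (hcu i h1).2
        have h11 : 4 * (p * (cu i - p)) ≤ (cu i) ^ 2 := by
          obtain ⟨r, hr⟩ : ∃ r, cu i = p + r := ⟨cu i - p, by omega⟩
          rw [hr, Nat.add_sub_cancel_left]
          have h13 : ((4 * (p * r) : ℕ) : ℤ) ≤ (((p + r) ^ 2 : ℕ) : ℤ) := by
            push_cast
            nlinarith [sq_nonneg ((p : ℤ) - r)]
          exact_mod_cast h13
        have h12 : (cu i) ^ 2 ≤ (216 * L ^ 3) ^ 2 := Nat.pow_le_pow_left h10 2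
        have e : (216 * L ^ 3) ^ 2 = 4 * (11664 * L ^ 6) := by ring
        omega
      · show p + (cu i - p) = _
        rw [Nat.add_sub_cancel' h4]
        rfl
    · rintro ⟨i, p⟩ hx ⟨j, r⟩ hy hxy
      rw [mem_coe, mem_sigma] at hx hy
      simp only at hx hy hxy
      unfold sm at hx hy
      rw [mem_filter, mem_Icc] at hx hy
      obtain ⟨-, ⟨a3, a4⟩, a5, a6, a7, -, -⟩ := hx
      obtain ⟨-, ⟨b3, b4⟩, b5, b6, b7, -, -⟩ := hy
      obtain ⟨e1, e2⟩ := pq_inj a6 a7 b6 b7 a5 b5 hxy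
      subst e1
      have e3 : cu i = cu j := by omega
      have e4 : (i : ℕ) = j := by
        unfold cu at e3
        have := Nat.pow_left_injective (n := 3) (by norm_num) e3
        omega
      have e5 : i = j := Fin.ext e4
      subst e5
      rfl
  have hsum : (L : ℝ) / 4 * ((L : ℝ) ^ 3 * (27 / 5) / Λ ^ 2) ≤ ((G.sigma (fun i => sm (cu i))).card : ℝ) := by
    rw [card_sigma]
    push_cast
    calc (L : ℝ) / 4 * ((L : ℝ) ^ 3 * (27 / 5) / Λ ^ 2)
        ≤ G.card * ((L : ℝ) ^ 3 * (27 / 5) / Λ ^ 2) := mul_le_mul_of_nonneg_right hGc (by positivity)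
      _ = ∑ i ∈ G, ((L : ℝ) ^ 3 * (27 / 5) / Λ ^ 2) := by rw [sum_const, nsmul_eq_mul]
      _ ≤ _ := sum_le_sum hlow
  have hinj' : ((G.sigma (fun i => sm (cu i))).card : ℝ) ≤ (((Icc 1 X).filter Fam).card : ℝ) := by
    exact_mod_cast hinj
  refine le_trans ?_ (hsum.trans hinj')
  have hXp : (X : ℝ) ^ (2 / 3 : ℝ) ≤ (11664 * 64) * L ^ 4 := by
    have h1 : (X : ℝ) ≤ 11664 * (2 * L) ^ 6 := by
      have h2 : (L + 1) ^ 6 ≤ (2 * L) ^ 6 := Nat.pow_le_pow_left (by omega) 6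
      have h3 : X ≤ 11664 * (2 * L) ^ 6 := by omega
      exact_mod_cast h3
    have h4 : (11664 * (2 * (L : ℝ)) ^ 6) = ((11664 * 64 : ℝ)) * ((L : ℝ) ^ 6) := by ring
    rw [h4] at h1
    calc (X : ℝ) ^ (2 / 3 : ℝ) ≤ ((11664 * 64 : ℝ) * ((L : ℝ) ^ 6)) ^ (2 / 3 : ℝ) :=
          Real.rpow_le_rpow (by positivity) h1 (by norm_num)
      _ = (11664 * 64 : ℝ) ^ (2 / 3 : ℝ) * ((L : ℝ) ^ 6) ^ (2 / 3 : ℝ) :=
          Real.mul_rpow (by norm_num) (by positivity)
      _ ≤ (11664 * 64 : ℝ) ^ (1 : ℝ) * ((L : ℝ) ^ 6) ^ (2 / 3 : ℝ) := by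
          apply mul_le_mul_of_nonneg_right _ (by positivity)
          exact Real.rpow_le_rpow_of_exponent_le (by norm_num) (by norm_num)
      _ = (11664 * 64) * L ^ 4 := by
          rw [Real.rpow_one, ← Real.rpow_natCast (L : ℝ) 6, ← Real.rpow_mul hL0.le,
            ← Real.rpow_natCast (L : ℝ) 4]
          norm_num
  have hΛ2 : 0 < Λ ^ 2 := by positivity
  rw [← hΛ]
  calc 1 / (11664 * 64) * ((X : ℝ) ^ (2 / 3 : ℝ) / Λ ^ 2)
      ≤ 1 / (11664 * 64) * ((11664 * 64) * L ^ 4 / Λ ^ 2) := by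
        apply mul_le_mul_of_nonneg_left _ (by norm_num)
        exact div_le_div_of_nonneg_right hXp hΛ2.le
    _ = (L : ℝ) ^ 4 / Λ ^ 2 := by ring
    _ ≤ (L : ℝ) / 4 * ((L : ℝ) ^ 3 * (27 / 5) / Λ ^ 2) := by
        have e : (L : ℝ) / 4 * ((L : ℝ) ^ 3 * (27 / 5) / Λ ^ 2) = (27 / 20) * (L ^ 4 / Λ ^ 2) := by ring
        rw [e]
        have : 0 ≤ (L : ℝ) ^ 4 / Λ ^ 2 := by positivity
        linarith

end Pool.Agent.T2H55.XY
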