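import Pool.Agent.T2H55.XY.Main

/-!
# The group law on `X³ + Y³ = D` and the corollaries
-/

set_option autoImplicit false
set_option linter.unusedVariables false

namespace Pool.Agent.T2H55.XY

section
variable {D : ℚ}

/-- three different points of a line -/
lemma collinear {X₁ Y₁ X₂ Y₂ X₃ Y₃ a b c : ℚ} (hD : D ≠ 0) (h1 : X₁ ^ 3 + Y₁ ^ 3 = D)
    (h2 : X₂ ^ 3 + Y₂ ^ 3 = D) (h3 : X₃ ^ 3 + Y₃ ^ 3 = D) (hab : a ≠ 0 ∨ b ≠ 0)
    (l1 : a * X₁ + b * Y₁ = c) (l2 : a * X₂ + b * Y₂ = c) (l3 : a * X₃ + b * Y₃ = c)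
    (n12 : (X₁, Y₁) ≠ (X₂, Y₂)) (n13 : (X₁, Y₁) ≠ (X₃, Y₃)) (n23 : (X₂, Y₂) ≠ (X₃, Y₃))
    {P₁ P₂ P₃ : CP D} (k1 : At P₁ (wx D X₁ Y₁) (wy D X₁ Y₁)) (k2 : At P₂ (wx D X₂ Y₂) (wy D X₂ Y₂))
    (k3 : At P₃ (wx D X₃ Y₃) (wy D X₃ Y₃)) : P₁ + P₂ + P₃ = 0 := by
  have s1 := add_ne hD h1
  have s2 := add_ne hD h2
  have s3 := add_ne hD h3
  by_cases hne : a = b
  · -- at most two points
    exfalso
    subst hne
    have ha : a ≠ 0 := by rcases hab with h | h <;> exact h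
    have e12 : X₁ + Y₁ = X₂ + Y₂ := mul_left_cancel₀ ha (by linear_combination l1 - l2)
    have e13 : X₁ + Y₁ = X₃ + Y₃ := mul_left_cancel₀ ha (by linear_combination l1 - l3)
    have key : ∀ X Y X' Y' : ℚ, X + Y ≠ 0 → X + Y = X' + Y' → X ^ 3 + Y ^ 3 = X' ^ 3 + Y' ^ 3 →
        (X, Y) ≠ (X', Y') → X = Y' ∧ Y = X' := by
      intro X Y X' Y' hs h4 h5 h6
      have h7 : (X + Y) * ((X - X') * (X - Y')) = 0 := by
        have e : X' = X + Y - Y' := by linarith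
        subst e
        linear_combination (1 / 3) * h5
      have h8 := (mul_eq_zero.1 h7).resolve_left hs
      rcases mul_eq_zero.1 h8 with h9 | h9
      · exfalso
        apply h6
        have e : X = X' := by linarith
        rw [e]
        have : Y = Y' := by linarith
        rw [this]
      · exact ⟨by linarith, by linarith⟩
    obtain ⟨a1, a2⟩ := key _ _ _ _ s1 e12 (h1.trans h2.symm) n12
    obtain ⟨b1, b2⟩ := key _ _ _ _ s1 e13 (h1.trans h3.symm) n13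
    apply n23
    rw [← a2, ← a1, ← b1, ← b2]
  have hab' : a - b ≠ 0 := sub_ne_zero.2 hne
  obtain ⟨l, hl⟩ : ∃ l, l = 6 * c / (a - b) := ⟨_, rfl⟩
  obtain ⟨μ, hμ⟩ : ∃ μ, μ = -(36 * D * (a + b)) / (a - b) := ⟨_, rfl⟩
  have line : ∀ X Y : ℚ, X + Y ≠ 0 → a * X + b * Y = c → wy D X Y = l * wx D X Y + μ := by
    intro X Y hs h
    unfold wy wx
    rw [hl, hμ]
    field_simp
    rw [← h]
    ring
  have xne : ∀ X Y X' Y' : ℚ, X ^ 3 + Y ^ 3 = D → X' ^ 3 + Y' ^ 3 = D → a * X + b * Y = c →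
      a * X' + b * Y' = c → (X, Y) ≠ (X', Y') → wx D X Y ≠ wx D X' Y' := by
    intro X Y X' Y' e1 e2 e3 e4 e5 e6
    have e7 : wy D X Y = wy D X' Y' := by
      rw [line X Y (add_ne hD e1) e3, line X' Y' (add_ne hD e2) e4, e6]
    obtain ⟨g1, g2⟩ := wx_inj hD e1 e2 e6 e7
    exact e5 (by rw [g1, g2])
  have m12 := xne _ _ _ _ h1 h2 l1 l2 n12
  have m13 := xne _ _ _ _ h1 h3 l1 l3 n13
  have m23 := xne _ _ _ _ h2 h3 l2 l3 n23
  have i1 := line _ _ s1 l1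
  have i2 := line _ _ s2 l2
  have i3 := line _ _ s3 l3
  have q1 := k1.eqn
  have q2 := k2.eqn
  have q3 := k3.eqn
  obtain ⟨x₁, hx₁⟩ : ∃ x, x = wx D X₁ Y₁ := ⟨_, rfl⟩
  obtain ⟨x₂, hx₂⟩ : ∃ x, x = wx D X₂ Y₂ := ⟨_, rfl⟩
  obtain ⟨x₃, hx₃⟩ : ∃ x, x = wx D X₃ Y₃ := ⟨_, rfl⟩
  obtain ⟨y₁, hy₁⟩ : ∃ x, x = wy D X₁ Y₁ := ⟨_, rfl⟩
  obtain ⟨y₂, hy₂⟩ : ∃ x, x = wy D X₂ Y₂ := ⟨_, rfl⟩
  obtain ⟨y₃, hy₃⟩ : ∃ x, x = wy D X₃ Y₃ := ⟨_, rfl⟩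
  rw [← hx₁, ← hy₁] at k1 i1 q1
  rw [← hx₂, ← hy₂] at k2 i2 q2
  rw [← hx₃, ← hy₃] at k3 i3 q3
  rw [← hx₁, ← hx₂] at m12
  rw [← hx₁, ← hx₃] at m13
  rw [← hx₂, ← hx₃] at m23
  have d12 : x₁ - x₂ ≠ 0 := sub_ne_zero.2 m12
  have d13 : x₁ - x₃ ≠ 0 := sub_ne_zero.2 m13
  have d23 : x₂ - x₃ ≠ 0 := sub_ne_zero.2 m23
  rw [i1] at q1
  rw [i2] at q2
  rw [i3] at q3
  have r12 : x₁ ^ 2 + x₁ * x₂ + x₂ ^ 2 - l ^ 2 * (x₁ + x₂) - 2 * l * μ = 0 := by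
    have : (x₁ - x₂) * (x₁ ^ 2 + x₁ * x₂ + x₂ ^ 2 - l ^ 2 * (x₁ + x₂) - 2 * l * μ) = 0 := by
      linear_combination q2 - q1
    exact (mul_eq_zero.1 this).resolve_left d12
  have r13 : x₁ ^ 2 + x₁ * x₃ + x₃ ^ 2 - l ^ 2 * (x₁ + x₃) - 2 * l * μ = 0 := by
    have : (x₁ - x₃) * (x₁ ^ 2 + x₁ * x₃ + x₃ ^ 2 - l ^ 2 * (x₁ + x₃) - 2 * l * μ) = 0 := by
      linear_combination q3 - q1
    exact (mul_eq_zero.1 this).resolve_left d13
  have r : x₁ + x₂ + x₃ - l ^ 2 = 0 := by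
    have : (x₂ - x₃) * (x₁ + x₂ + x₃ - l ^ 2) = 0 := by linear_combination r12 - r13
    exact (mul_eq_zero.1 this).resolve_left d23
  have hslope : l = (y₁ - y₂) / (x₁ - x₂) := by
    rw [eq_div_iff d12, i1, i2]
    ring
  have hadd := k1.add k2 m12 hslope
  have e3 : l ^ 2 - x₁ - x₂ = x₃ := by linarith
  have hsum : P₁ + P₂ = -P₃ := by
    refine hadd.ext (k3.neg.congr ?_ ?_)
    · exact e3.symm
    · rw [e3, i3, i1]
      ring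
  rw [hsum, neg_add_cancel]

end

variable {p q : ℕ} {D : ℤ}

/-- the infinite cyclic group -/
def Cyc (D : ℤ) (X Y : ℚ) : Prop :=
  ∃ P : CP (D : ℚ), At P (wx D X Y) (wy D X Y) ∧ Function.Bijective fun n : ℤ => n • P

lemma Cyc.congr {X Y X' Y' : ℚ} (h : Cyc D X Y) (h1 : X = X') (h2 : Y = Y') : Cyc D X' Y' := by
  subst h1; subst h2; exact h

/-- the criterion with explicit coordinates -/
theorem crit (hp : p.Prime) (hq : q.Prime) (hpq : p ≠ q) (hp3 : p % 3 = 2) (hq3 : q % 3 = 2)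
    (h9 : ¬ (p % 9 = 8 ∧ q % 9 = 8)) (hD : D = p * q) {x y z U V : ℤ} (hx : x ≠ 0) (hy : y ≠ 0)
    (hz : z ≠ 0) (hU : U = p * x ^ 3) (hV : V = q * y ^ 3) (h : U + V = z ^ 3)
    (hcop : IsCoprime ((p : ℤ) * x) (q * y))
    (hM : 10206 * (max |U| (max |V| |U + V|)) ^ 2 < (max p q : ℤ) ^ 7) :
    Cyc D (-((U : ℚ) ^ 3 - 3 * U ^ 2 * V - 6 * U * V ^ 2 - V ^ 3) / (3 * (x * y * z) * (U ^ 2 + U * V + V ^ 2)))
      (((U : ℚ) ^ 3 + 6 * U ^ 2 * V + 3 * U * V ^ 2 - V ^ 3) / (3 * (x * y * z) * (U ^ 2 + U * V + V ^ 2))) := by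
  have h' : (p : ℤ) * x ^ 3 + q * y ^ 3 = z ^ 3 := by rw [← hU, ← hV]; exact h
  have hM' : 10206 * Mx (p * x ^ 3) (q * y ^ 3) ^ 2 < (max p q : ℤ) ^ 7 := by
    rw [← hU, ← hV]
    exact hM
  obtain ⟨P, h1, h2⟩ := main hp hq hpq hp3 hq3 h9 hD hx hy hz h' hcop hM'
  rw [← hU, ← hV] at h1
  have hU0 : U ≠ 0 := by
    rw [hU]
    exact mul_ne_zero (by exact_mod_cast hp.ne_zero) (pow_ne_zero 3 hx)
  have hT0 : (-(x * y * z) : ℤ) ≠ 0 := neg_ne_zero.2 (mul_ne_zero (mul_ne_zero hx hy) hz)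
  obtain ⟨f1, f2⟩ := Xf_int (V := V) hU0 hT0
  have hUq : (U : ℚ) ≠ 0 := by exact_mod_cast hU0
  have hn := (nf_pos (v := (V : ℚ)) hUq).ne'
  have hxq : (x : ℚ) ≠ 0 := by exact_mod_cast hx
  have hyq : (y : ℚ) ≠ 0 := by exact_mod_cast hy
  have hzq : (z : ℚ) ≠ 0 := by exact_mod_cast hz
  have hden : (3 : ℚ) * (x * y * z) * (U ^ 2 + U * V + V ^ 2) ≠ 0 :=
    mul_ne_zero (mul_ne_zero (by norm_num) (mul_ne_zero (mul_ne_zero hxq hyq) hzq)) hn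
  have g1 : Xf ((U : ℚ) / ((-(x * y * z) : ℤ) : ℚ)) (V / ((-(x * y * z) : ℤ) : ℚ)) =
      -((U : ℚ) ^ 3 - 3 * U ^ 2 * V - 6 * U * V ^ 2 - V ^ 3) / (3 * (x * y * z) * (U ^ 2 + U * V + V ^ 2)) := by
    rw [eq_div_iff hden]
    unfold Xz at f1
    push_cast at f1 ⊢
    linear_combination (-1) * f1
  have g2 : Yf ((U : ℚ) / ((-(x * y * z) : ℤ) : ℚ)) (V / ((-(x * y * z) : ℤ) : ℚ)) =
      ((U : ℚ) ^ 3 + 6 * U ^ 2 * V + 3 * U * V ^ 2 - V ^ 3) / (3 * (x * y * z) * (U ^ 2 + U * V + V ^ 2)) := by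
    rw [eq_div_iff hden]
    unfold Yz at f2
    push_cast at f2 ⊢
    linear_combination (-1) * f2
  rw [g1, g2] at h1
  exact ⟨P, h1, h2⟩

lemma cop_primes (hp : p.Prime) (hq : q.Prime) (hpq : p ≠ q) : IsCoprime (p : ℤ) (q : ℤ) :=
  Nat.isCoprime_iff_coprime.2 ((Nat.coprime_primes hp hq).2 hpq)

/-- `p + q` is a cube -/
theorem sum_cube (hp : p.Prime) (hq : q.Prime) (hpq : p ≠ q) (hp3 : p % 3 = 2) (hq3 : q % 3 = 2)
    {w : ℕ} (h : p + q = w ^ 3) (hD : D = p * q) :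
    Cyc D (((q : ℚ) ^ 3 + 6 * p * q ^ 2 + 3 * p ^ 2 * q - p ^ 3) / (3 * w * (p ^ 2 + p * q + q ^ 2)))
      (((p : ℚ) ^ 3 + 6 * p ^ 2 * q + 3 * p * q ^ 2 - q ^ 3) / (3 * w * (p ^ 2 + p * q + q ^ 2))) := by
  have hw3 : w % 3 = 1 := by
    have h1 : (p + q) % 3 = 1 := by omega
    rw [h, Nat.pow_mod] at h1
    have : w % 3 < 3 := Nat.mod_lt _ (by norm_num)
    interval_cases w % 3 <;> omega
  have hp2 := hp.two_le
  have hq2 := hq.two_le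
  have hw4 : 4 ≤ w := by
    by_contra hcon
    have : w = 1 := by omega
    subst this
    omega
  have hw0 : (w : ℤ) ≠ 0 := by exact_mod_cast (by omega : w ≠ 0)
  have h9 : ¬ (p % 9 = 8 ∧ q % 9 = 8) := by
    rintro ⟨a, b⟩
    have h1 : (p + q) % 9 = 7 := by omega
    rw [h, Nat.pow_mod] at h1
    have : w % 9 < 9 := Nat.mod_lt _ (by norm_num)
    interval_cases w % 9 <;> omega
  have h' : (p : ℤ) + q = (w : ℤ) ^ 3 := by exact_mod_cast h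
  have hmax : 32 ≤ max p q := by
    have h1 : 4 ^ 3 ≤ w ^ 3 := Nat.pow_le_pow_left hw4 3
    rcases le_total p q with h2 | h2
    · rw [max_eq_right h2]; omega
    · rw [max_eq_left h2]; omega
  have hmz : (32 : ℤ) ≤ max (p : ℤ) q := by exact_mod_cast hmax
  have hM : 10206 * (max |(p : ℤ)| (max |(q : ℤ)| |(p : ℤ) + q|)) ^ 2 < (max p q : ℤ) ^ 7 := by
    have hp0 : (0 : ℤ) ≤ p := by positivity
    have hq0 : (0 : ℤ) ≤ q := by positivity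
    have e : max |(p : ℤ)| (max |(q : ℤ)| |(p : ℤ) + q|) = p + q := by
      rw [abs_of_nonneg hp0, abs_of_nonneg hq0, abs_of_nonneg (by positivity),
        max_eq_right (by omega : (q : ℤ) ≤ p + q), max_eq_right (by omega : (p : ℤ) ≤ p + q)]
    rw [e]
    obtain ⟨m, hm⟩ : ∃ m : ℤ, m = max (p : ℤ) q := ⟨_, rfl⟩
    have h1 : (p : ℤ) + q ≤ 2 * m := by
      have := le_max_left (p : ℤ) q
      have := le_max_right (p : ℤ) q
      rw [hm]; omega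
    rw [← hm] at hmz ⊢
    calc 10206 * ((p : ℤ) + q) ^ 2 ≤ 10206 * (2 * m) ^ 2 := by
          have := pow_le_pow_left₀ (by positivity : (0 : ℤ) ≤ p + q) h1 2
          linarith
      _ = 40824 * m ^ 2 := by ring
      _ < 32 ^ 5 * m ^ 2 := by
          have : 0 < m ^ 2 := by positivity
          nlinarith
      _ ≤ m ^ 5 * m ^ 2 := by
          apply mul_le_mul_of_nonneg_right (pow_le_pow_left₀ (by norm_num) hmz 5) (by positivity)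
      _ = m ^ 7 := by ring
  have hc := crit (x := 1) (y := 1) (z := (w : ℤ)) (U := p) (V := q) hp hq hpq hp3 hq3 h9 hD one_ne_zero one_ne_zero hw0
    (by ring) (by ring) h' (by rw [mul_one, mul_one]; exact cop_primes hp hq hpq) hM
  refine hc.congr ?_ ?_
  · push_cast
    congr 1 <;> ring
  · push_cast
    congr 1; ring

/-- `p - q` is a cube -/
theorem sub_cube (hp : p.Prime) (hq : q.Prime) (hp3 : p % 3 = 2) (hq3 : q % 3 = 2)
    (h9 : p % 9 ≠ 8) {w : ℕ} (hw : 0 < w) (h : p = q + w ^ 3) (hD : D = p * q) :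
    Cyc D (((p : ℚ) ^ 3 + 3 * p ^ 2 * q - 6 * p * q ^ 2 + q ^ 3) / (3 * w * (p ^ 2 - p * q + q ^ 2)))
      ((-(p : ℚ) ^ 3 + 6 * p ^ 2 * q - 3 * p * q ^ 2 - q ^ 3) / (3 * w * (p ^ 2 - p * q + q ^ 2))) := by
  have hw3pos : 0 < w ^ 3 := Nat.pow_pos hw
  have hpq : p ≠ q := by omega
  have hw3 : w % 3 = 0 := by
    have h1 : (q + w ^ 3) % 3 = 2 := by omega
    have h2 : w ^ 3 % 3 = 0 := by omega
    rw [Nat.pow_mod] at h2
    have : w % 3 < 3 := Nat.mod_lt _ (by norm_num)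
    interval_cases w % 3 <;> omega
  have hw3' : 3 ≤ w := by omega
  have hw27 : 27 ≤ w ^ 3 := by
    calc 27 = 3 ^ 3 := by norm_num
      _ ≤ _ := Nat.pow_le_pow_left hw3' 3
  have hw0 : (w : ℤ) ≠ 0 := by exact_mod_cast (by omega : w ≠ 0)
  have h' : (p : ℤ) + -q = (w : ℤ) ^ 3 := by rw [h]; push_cast; ring
  have hmz : (27 : ℤ) ≤ p := by exact_mod_cast (by omega : 27 ≤ p)
  have hqp : (q : ℤ) ≤ p := by exact_mod_cast (by omega : q ≤ p)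
  have hM : 10206 * (max |(p : ℤ)| (max |-(q : ℤ)| |(p : ℤ) + -q|)) ^ 2 < (max p q : ℤ) ^ 7 := by
    have hp0 : (0 : ℤ) ≤ p := by positivity
    have hq0 : (0 : ℤ) ≤ q := by positivity
    have e : max |(p : ℤ)| (max |-(q : ℤ)| |(p : ℤ) + -q|) = p := by
      rw [abs_neg, abs_of_nonneg hp0, abs_of_nonneg hq0, abs_of_nonneg (by omega : (0 : ℤ) ≤ p + -q)]
      rw [max_eq_left]
      exact max_le hqp (by omega)
    rw [e, max_eq_left hqp]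
    calc 10206 * (p : ℤ) ^ 2 < 27 ^ 5 * (p : ℤ) ^ 2 := by
          have : 0 < (p : ℤ) ^ 2 := by positivity
          nlinarith
      _ ≤ (p : ℤ) ^ 5 * (p : ℤ) ^ 2 :=
          mul_le_mul_of_nonneg_right (pow_le_pow_left₀ (by norm_num) hmz 5) (by positivity)
      _ = (p : ℤ) ^ 7 := by ring
  have hc := crit (x := 1) (y := -1) (z := (w : ℤ)) (U := p) (V := -q) hp hq hpq hp3 hq3
    (fun hh => h9 hh.1) hD one_ne_zero (by norm_num) hw0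
    (by ring) (by ring) h' (by rw [mul_one, mul_neg_one]; exact (cop_primes hp hq hpq).neg_right) hM
  refine hc.congr ?_ ?_
  · push_cast
    rw [← neg_div_neg_eq]
    congr 1 <;> ring
  · push_cast
    rw [← neg_div_neg_eq]
    congr 1 <;> ring

end Pool.Agent.T2H55.XY
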