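import Mathlib
import Pool.Agent.TH935.GF
import Pool.Agent.TH935.GF2
import Pool.Agent.Y834.CD.Poly

/-!
# The number of the products `p q` such that `p + q` is a cube
-/

set_option autoImplicit false
set_option linter.unusedVariables false

namespace Pool.Agent.T2H55.XY

open Finset Polynomial
open Pool.Agent.W93.PG (WinP cnt)
open Pool.Agent.H560R3.GB (sing)

/-- `A = p q` for primes `p < q`, `2` modulo `3`, such that `p + q` is a cube -/
def Fam (A : ℕ) : Prop :=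
  ∃ p q w : ℕ, p.Prime ∧ q.Prime ∧ p < q ∧ p % 3 = 2 ∧ q % 3 = 2 ∧ p + q = w ^ 3 ∧ A = p * q

/-- the smaller primes -/
def sm (m : ℕ) : Finset ℕ :=
  (Icc 1 m).filter (fun p => p < m - p ∧ p.Prime ∧ (m - p).Prime ∧ p % 3 = 2 ∧ (m - p) % 3 = 2)

lemma cnt_le (m : ℕ) (hm : m % 3 = 1) : cnt m 0 m ≤ 2 * (sm m).card + 5 := by
  classical
  unfold cnt
  have hsub : (Ioc 0 m).filter (fun p => p.Prime ∧ (m - p).Prime) ⊆
      sm m ∪ ((sm m).image (fun p => m - p) ∪ ({3} ∪ ({m - 3} ∪ {m / 2}))) := by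
    intro p hp
    rw [mem_filter, mem_Ioc] at hp
    obtain ⟨⟨h0, h1⟩, h2, h3⟩ := hp
    rw [mem_union, mem_union, mem_union, mem_union, mem_singleton, mem_singleton, mem_singleton,
      mem_image]
    by_cases c1 : p = 3
    · right; right; left; exact c1
    by_cases c2 : m - p = 3
    · right; right; right; left; omega
    have hmod : ∀ r : ℕ, r.Prime → r ≠ 3 → r % 3 = 1 ∨ r % 3 = 2 := by
      intro r hr hr3
      have : ¬ 3 ∣ r := fun h => hr3 ((Nat.prime_dvd_prime_iff_eq Nat.prime_three hr).1 h).symm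
      omega
    have a1 := hmod p h2 c1
    have a2 := hmod (m - p) h3 c2
    have a3 : p % 3 = 2 ∧ (m - p) % 3 = 2 := by omega
    rcases lt_trichotomy p (m - p) with c3 | c3 | c3
    · left
      unfold sm
      rw [mem_filter, mem_Icc]
      exact ⟨⟨by omega, h1⟩, c3, h2, h3, a3.1, a3.2⟩
    · right; right; right; right; omega
    · right; left
      refine ⟨m - p, ?_, by omega⟩
      unfold sm
      rw [mem_filter, mem_Icc]
      have e : m - (m - p) = p := by omega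
      rw [e]
      exact ⟨⟨h3.one_lt.le, by omega⟩, c3, h3, h2, a3.2, a3.1⟩
  have h1 := card_le_card hsub
  have h2 := card_union_le (sm m) ((sm m).image (fun p => m - p) ∪ ({3} ∪ ({m - 3} ∪ {m / 2})))
  have h3 := card_union_le ((sm m).image (fun p => m - p)) ({3} ∪ ({m - 3} ∪ {m / 2}))
  have h4 : ((sm m).image (fun p => m - p)).card ≤ (sm m).card := card_image_le
  have h5 : (({3} ∪ ({m - 3} ∪ {m / 2}) : Finset ℕ)).card ≤ 3 := by
    refine (card_union_le _ _).trans ?_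
    have := card_union_le ({m - 3} : Finset ℕ) {m / 2}
    simp only [card_singleton] at this ⊢
    omega
  omega

/-- the lower bound for one cube -/
lemma one_cube : ∃ m₁ : ℕ, ∀ m : ℕ, m₁ ≤ m → m % 3 = 1 → WinP (1 / 2) 1 m →
    (m : ℝ) / (5 * Real.log m ^ 2) ≤ (sm m).card := by
  obtain ⟨n1, h1⟩ := Pool.Agent.H373R2.T7.ev_L' 2
  obtain ⟨n2, h2⟩ := Pool.Agent.H373R2.T7.ev_log' 2 50
  refine ⟨n1 + n2 + 4, fun m hm hm3 hwin => ?_⟩
  have a1 := h1 m (by omega)
  have a2 := h2 m (by omega)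
  have hm4 : (4 : ℝ) ≤ m := by exact_mod_cast (by omega : 4 ≤ m)
  have hm0 : (0 : ℝ) < m := by linarith
  have hs := Pool.Agent.W93.GB.one_le_sing m
  obtain ⟨M, hM⟩ : ∃ M, M = Real.log (m : ℝ) := ⟨_, rfl⟩
  unfold WinP at hwin
  have hw := hwin 0 m (by omega) le_rfl
  rw [← hM] at a1 a2 hw ⊢
  have hM0 : 0 < M := by linarith
  have hw2 := hw (by
    rw [pow_one, Nat.cast_zero, sub_zero]
    exact div_le_self hm0.le (by linarith))
  rw [Nat.cast_zero, sub_zero] at hw2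
  rw [abs_le] at hw2
  have h5 : (m : ℝ) / M ^ 2 ≤ sing m * m / M ^ 2 := by
    apply div_le_div_of_nonneg_right _ (by positivity)
    exact le_mul_of_one_le_left hm0.le hs
  have h6 : 1 / 2 * ((m : ℝ) / M ^ 2) ≤ (cnt m 0 m : ℝ) := by linarith [hw2.1]
  have h7 : (cnt m 0 m : ℝ) ≤ 2 * (sm m).card + 5 := by exact_mod_cast cnt_le m hm3
  have hsq : √(m : ℝ) * √(m : ℝ) = m := Real.mul_self_sqrt hm0.le
  have hs2 : 2 ≤ √(m : ℝ) := Real.le_sqrt_of_sq_le (by linarith)
  have h8 : 50 ≤ (m : ℝ) / M ^ 2 := by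
    rw [le_div_iff₀ (by positivity)]
    calc 50 * M ^ 2 ≤ √(m : ℝ) := a2
      _ ≤ √(m : ℝ) * √(m : ℝ) := le_mul_of_one_le_left (by linarith) (by linarith)
      _ = m := hsq
  have h9 : (m : ℝ) / (5 * M ^ 2) = 1 / 5 * (m / M ^ 2) := by
    field_simp
  rw [h9]
  linarith

lemma pq_inj {p q p' q' : ℕ} (hp : p.Prime) (hq : q.Prime) (hp' : p'.Prime) (hq' : q'.Prime)
    (h1 : p < q) (h2 : p' < q') (h : p * q = p' * q') : p = p' ∧ q = q' := by
  have h3 : p ∣ p' * q' := ⟨q, h.symm⟩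
  rcases (Nat.Prime.dvd_mul hp).1 h3 with h4 | h4
  · have h5 := (Nat.prime_dvd_prime_iff_eq hp hp').1 h4
    subst h5
    exact ⟨rfl, Nat.eq_of_mul_eq_mul_left hp.pos h⟩
  · have h5 := (Nat.prime_dvd_prime_iff_eq hp hq').1 h4
    subst h5
    have h6 : q = p' := Nat.eq_of_mul_eq_mul_left hp.pos (by rw [h, mul_comm])
    omega

end Pool.Agent.T2H55.XY
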