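import Pool.Agent.T2H55.XY.Pt

/-!
# The model `u v w = D`, `u + v + w = 0` of the curve `y² + D y = x³`
-/

set_option autoImplicit false

namespace Pool.Agent.T2H55.XY

/-- the group of rational points of `y² + D y = x³` -/
abbrev EP (D : ℚ) := WP D 0

/-- the coordinates `u, v` -/
def Is {D : ℚ} (Q : EP D) (u v : ℚ) : Prop := u * v * (u + v) = -D ∧ At Q (-(u * v)) (u ^ 2 * v)

variable {D : ℚ}

lemma Is.ne {Q : EP D} {u v : ℚ} (hD : D ≠ 0) (h : Is Q u v) : u ≠ 0 ∧ v ≠ 0 ∧ u + v ≠ 0 := by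
  obtain ⟨h, -⟩ := h
  have h1 : u * v * (u + v) ≠ 0 := by rw [h]; exact neg_ne_zero.2 hD
  exact ⟨fun e => h1 (by rw [e]; ring), fun e => h1 (by rw [e]; ring), right_ne_zero_of_mul h1⟩

lemma Is.inj {Q : EP D} {u v u' v' : ℚ} (hD : D ≠ 0) (h : Is Q u v) (h' : Is Q u' v') :
    u = u' ∧ v = v' := by
  obtain ⟨hu, hv, huv⟩ := h.ne hD
  obtain ⟨hu', hv', huv'⟩ := h'.ne hD
  obtain ⟨e1, e2⟩ := h.2.inj h'.2
  have e3 : u * v = u' * v' := neg_inj.1 e1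
  have e4 : u = u' := by
    have : (u * v) * (u - u') = 0 := by
      have : u ^ 2 * v = u' * (u' * v') := by rw [e2]; ring
      linear_combination this - u' * e3
    exact sub_eq_zero.1 ((mul_eq_zero.1 this).resolve_left (mul_ne_zero hu hv))
  subst e4
  exact ⟨rfl, mul_left_cancel₀ hu e3⟩

lemma is_of_at {Q : EP D} {x y : ℚ} (hx : x ≠ 0) (h : At Q x y) : Is Q (-y / x) (x ^ 2 / y) := by
  have h1 := h.eqn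
  have hy : y ≠ 0 := by
    rintro rfl
    apply hx
    have : x ^ 3 = 0 := by linear_combination -h1
    exact pow_eq_zero_iff (by norm_num) |>.1 this
  refine ⟨?_, h.congr ?_ ?_⟩
  · field_simp
    linear_combination h1
  · field_simp
  · field_simp

lemma Is.neg {Q : EP D} {u v : ℚ} (h : Is Q u v) : Is (-Q) v u := by
  refine ⟨by rw [← h.1]; ring, h.2.neg.congr (by ring) ?_⟩
  linear_combination -h.1

/-- the point of order three -/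
def IsT (T : EP D) : Prop := At T 0 0

lemma exists_T (hD : D ≠ 0) : ∃ T : EP D, IsT T :=
  at_mk (by positivity) (by ring)

lemma Is.addT {Q T : EP D} {u v : ℚ} (hD : D ≠ 0) (hT : IsT T) (h : Is Q u v) :
    Is (Q + T) (-(u + v)) u := by
  obtain ⟨hu, hv, huv⟩ := h.ne hD
  obtain ⟨h1, h2⟩ := h
  refine ⟨by rw [← h1]; ring, ?_⟩
  refine (h2.add hT (neg_ne_zero.2 (mul_ne_zero hu hv)) (l := -u) ?_).congr ?_ ?_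
  · field_simp
    ring
  · ring
  · linear_combination -h1

lemma T_dbl {T : EP D} (hD : D ≠ 0) (hT : IsT T) : T + T = -T := by
  have h1 := At.dbl (Q := T) (x := 0) (y := 0) hT (by simpa using hD) (l := 0) (by simp)
  have h2 := At.neg (Q := T) (x := 0) (y := 0) hT
  exact (h1.congr (by ring) (by ring)).ext h2

lemma T_three {T : EP D} (hD : D ≠ 0) (hT : IsT T) : (3 : ℤ) • T = 0 := by
  have : (3 : ℤ) • T = T + T + T := by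
    rw [show (3 : ℤ) = 1 + 1 + 1 by norm_num, add_zsmul, add_zsmul, one_zsmul]
  rw [this, T_dbl hD hT, neg_add_cancel]

lemma Is.subT {Q T : EP D} {u v : ℚ} (hD : D ≠ 0) (hT : IsT T) (h : Is Q u v) :
    Is (Q - T) v (-(u + v)) := by
  have h1 := (h.addT hD hT).addT hD hT
  have e : Q + T + T = Q - T := by rw [add_assoc, T_dbl hD hT, sub_eq_add_neg]
  rw [e] at h1
  have e2 : -(-(u + v) + u) = v := by ring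
  rwa [e2] at h1

/-- points without coordinates `u, v` -/
lemma cases_is (hD : D ≠ 0) {T : EP D} (hT : IsT T) (Q : EP D) :
    Q = 0 ∨ Q = T ∨ Q = -T ∨ ∃ u v, Is Q u v := by
  rcases cases_at Q with h | ⟨x, y, h⟩
  · exact Or.inl h
  · by_cases hx : x = 0
    · subst hx
      rcases At.eq_or_neg h hT with h1 | h1
      · exact Or.inr (Or.inl h1)
      · exact Or.inr (Or.inr (Or.inl h1))
    · exact Or.inr (Or.inr (Or.inr ⟨_, _, is_of_at hx h⟩))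

/-- doubling -/
lemma Is.dbl {Q : EP D} {u v : ℚ} (hD : D ≠ 0) (h : Is Q u v) (huv : u ≠ v) :
    At (Q + Q) (u * v * (u + 2 * v) * (2 * u + v) / (u - v) ^ 2)
      (-(u * v ^ 2 * (2 * u + v) ^ 3) / (u - v) ^ 3) := by
  obtain ⟨hu, hv, hw⟩ := h.ne hD
  obtain ⟨e1, e2⟩ := h
  have e3 : D = -(u * v * (u + v)) := by rw [e1]; ring
  have h3 : u - v ≠ 0 := sub_ne_zero.2 huv
  have h4 : 2 * (u ^ 2 * v) + D = u * v * (u - v) := by rw [e3]; ring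
  refine (e2.dbl (l := 3 * (u * v) / (u - v)) ?_ ?_).congr ?_ ?_
  · rw [h4]
    exact mul_ne_zero (mul_ne_zero hu hv) h3
  · rw [h4]
    field_simp
  · field_simp
    ring
  · rw [e3]
    field_simp
    ring

/-- the coordinates of the image on the other curve -/
def Xf (u v : ℚ) : ℚ := (u ^ 3 - 3 * u ^ 2 * v - 6 * u * v ^ 2 - v ^ 3) / (3 * (u ^ 2 + u * v + v ^ 2))

/-- the coordinates of the image on the other curve -/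
def Yf (u v : ℚ) : ℚ := -(u ^ 3 + 6 * u ^ 2 * v + 3 * u * v ^ 2 - v ^ 3) / (3 * (u ^ 2 + u * v + v ^ 2))

lemma nf_pos {u v : ℚ} (hu : u ≠ 0) : 0 < u ^ 2 + u * v + v ^ 2 := by
  have : 0 < u ^ 2 := by positivity
  nlinarith [sq_nonneg (u + 2 * v)]

lemma Xf_cube {u v : ℚ} (hu : u ≠ 0) : Xf u v ^ 3 + Yf u v ^ 3 = -(u * v * (u + v)) := by
  have h := (nf_pos (v := v) hu).ne'
  unfold Xf Yf
  obtain ⟨n, hn⟩ : ∃ n, n = u ^ 2 + u * v + v ^ 2 := ⟨_, rfl⟩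
  rw [← hn] at h ⊢
  field_simp
  rw [hn]
  ring

lemma Xf_add {u v : ℚ} (hu : u ≠ 0) :
    Xf u v + Yf u v = -(3 * (u * v * (u + v))) / (u ^ 2 + u * v + v ^ 2) := by
  have h := (nf_pos (v := v) hu).ne'
  unfold Xf Yf
  obtain ⟨n, hn⟩ : ∃ n, n = u ^ 2 + u * v + v ^ 2 := ⟨_, rfl⟩
  rw [← hn] at h ⊢
  field_simp
  ring

/-- multiplication by three -/
lemma Is.tri {Q : EP D} {u v : ℚ} (hD : D ≠ 0) (h : Is Q u v) (huv : u ≠ v) :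
    At (Q + Q + Q) (-(Xf u v * Yf u v)) (-Yf u v ^ 3) := by
  obtain ⟨hu, hv, hw⟩ := h.ne hD
  have h2 := h.dbl hD huv
  obtain ⟨e1, e2⟩ := h
  have e3 : D = -(u * v * (u + v)) := by rw [e1]; ring
  have h3 : u - v ≠ 0 := sub_ne_zero.2 huv
  have hn := (nf_pos (v := v) hu).ne'
  have hne : u * v * (u + 2 * v) * (2 * u + v) / (u - v) ^ 2 - -(u * v) =
      3 * (u * v) * (u ^ 2 + u * v + v ^ 2) / (u - v) ^ 2 := by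
    field_simp
    ring
  have hne0 : u * v * (u + 2 * v) * (2 * u + v) / (u - v) ^ 2 - -(u * v) ≠ 0 := by
    rw [hne]
    positivity
  obtain ⟨n, hnd⟩ : ∃ n, n = u ^ 2 + u * v + v ^ 2 := ⟨_, rfl⟩
  refine (h2.add e2 (sub_ne_zero.1 hne0) (l := -(u ^ 4 + 5 * u ^ 3 * v + 15 * u ^ 2 * v ^ 2 +
    5 * u * v ^ 3 + v ^ 4) / (3 * (u - v) * (u ^ 2 + u * v + v ^ 2))) ?_).congr ?_ ?_
  · rw [hne]
    rw [← hnd] at hn ⊢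
    field_simp
    ring
  · unfold Xf Yf
    rw [← hnd] at hn ⊢
    field_simp
    rw [hnd]
    ring
  · rw [e3]
    unfold Yf
    rw [← hnd] at hn ⊢
    field_simp
    rw [hnd]
    ring

/-! ### addition -/

/-- polar form -/
def al (D u₁ v₁ u₂ v₂ : ℚ) : ℚ := v₂ * (2 * u₂ + v₂) * u₁ + u₂ * (u₂ + 2 * v₂) * v₁ + 3 * D

lemma al_eq {u₁ v₁ u₂ v₂ : ℚ} (e1 : u₁ * v₁ * (u₁ + v₁) = -D) (e2 : u₂ * v₂ * (u₂ + v₂) = -D) :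
    al D u₁ v₁ u₂ v₂ * (-(u₁ * v₁) * (-(u₂ * v₂)) ^ 2) =
      -D * (D * (u₁ ^ 2 * v₁) + 2 * (u₁ ^ 2 * v₁) * (u₂ ^ 2 * v₂) + (u₂ ^ 2 * v₂) ^ 2 +
        2 * D * (u₂ ^ 2 * v₂) - 3 * (-(u₂ * v₂)) ^ 2 * (-(u₁ * v₁))) := by
  unfold al
  linear_combination (u₁ ^ 2 * v₁ * u₂ * v₂ * (u₂ - v₂) + D * (u₁ ^ 2 * v₁) + 2 * D * (u₂ ^ 2 * v₂)) *
    e2 - (u₂ ^ 2 * v₂) * u₂ * v₂ * (u₂ + 2 * v₂) * e1

lemma line_alg {D x₁ x₂ y₁ y₂ l z : ℚ} (r1 : y₁ ^ 2 + D * y₁ = x₁ ^ 3) (r2 : y₂ ^ 2 + D * y₂ = x₂ ^ 3)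
    (hx : x₁ ≠ x₂) (hl : l = (y₁ - y₂) / (x₁ - x₂)) (hz : z = l * (l ^ 2 - x₁ - x₂ - x₁) + y₁) :
    (x₁ - x₂) ^ 3 * z =
      -((D * y₁ + 2 * y₁ * y₂ + y₂ ^ 2 + 2 * D * y₂ - 3 * x₂ ^ 2 * x₁) * y₁ -
      (D * y₂ + 2 * y₂ * y₁ + y₁ ^ 2 + 2 * D * y₁ - 3 * x₁ ^ 2 * x₂) * y₂) := by
  have hd : x₁ - x₂ ≠ 0 := sub_ne_zero.2 hx
  have e2 : (x₁ - x₂) ^ 3 * z =
      (y₁ - y₂) ^ 3 - (2 * x₁ + x₂) * (y₁ - y₂) * (x₁ - x₂) ^ 2 + y₁ * (x₁ - x₂) ^ 3 := by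
    rw [hz, hl]
    field_simp
    ring
  rw [e2]
  linear_combination (y₁ - 2 * y₂) * r1 + (2 * y₁ - y₂) * r2

section line

variable {A B C : EP D} {u₁ v₁ u₂ v₂ u₃ v₃ : ℚ}

/-- coordinates of the sum, up to a factor -/
lemma line_prop (hD : D ≠ 0) (h1 : Is A u₁ v₁) (h2 : Is B u₂ v₂) (hx : u₁ * v₁ ≠ u₂ * v₂)
    (h3 : Is (A + B) u₃ v₃) :
    -(al D u₁ v₁ u₂ v₂ * (u₁ + v₁) - al D u₂ v₂ u₁ v₁ * (u₂ + v₂)) ≠ 0 ∧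
    v₃ * -(al D u₁ v₁ u₂ v₂ * (u₁ + v₁) - al D u₂ v₂ u₁ v₁ * (u₂ + v₂)) =
      -(u₃ + v₃) * (al D u₁ v₁ u₂ v₂ * u₁ - al D u₂ v₂ u₁ v₁ * u₂) ∧
    (u₁ ^ 2 * v₁) * (u₂ ^ 2 * v₂) * (u₃ * v₃ ^ 2) * (u₂ * v₂ - u₁ * v₁) ^ 3 =
      ((u₂ * v₂) * (u₁ ^ 2 * v₁) - (u₁ * v₁) * (u₂ ^ 2 * v₂)) ^ 3 := by
  have hx' : -(u₁ * v₁) ≠ -(u₂ * v₂) := fun h => hx (neg_inj.1 h)
  obtain ⟨hu1, hv1, hw1⟩ := h1.ne hD
  obtain ⟨hu2, hv2, hw2⟩ := h2.ne hD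
  obtain ⟨hu3, hv3, hw3⟩ := h3.ne hD
  have r1 := h1.2.eqn
  have r2 := h2.2.eqn
  rw [add_zero] at r1 r2
  obtain ⟨l, hl⟩ : ∃ l, l = (u₁ ^ 2 * v₁ - u₂ ^ 2 * v₂) / (-(u₁ * v₁) - -(u₂ * v₂)) := ⟨_, rfl⟩
  have hadd := (h1.2.add h2.2 hx' hl).neg
  obtain ⟨-, h5⟩ := h3.neg.2.inj hadd
  have h6 := line_alg r1 r2 hx' hl (z := u₃ * v₃ ^ 2) (by linear_combination h5)
  have a1 := al_eq h1.1 h2.1
  have a2 := al_eq h2.1 h1.1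
  obtain ⟨P, hP⟩ : ∃ P, P = al D u₁ v₁ u₂ v₂ := ⟨_, rfl⟩
  obtain ⟨R, hR⟩ : ∃ R, R = al D u₂ v₂ u₁ v₁ := ⟨_, rfl⟩
  rw [← hP] at a1 ⊢
  rw [← hR] at a2 ⊢
  obtain ⟨a, ha⟩ : ∃ a, a = D * (u₁ ^ 2 * v₁) + 2 * (u₁ ^ 2 * v₁) * (u₂ ^ 2 * v₂) + (u₂ ^ 2 * v₂) ^ 2 +
        2 * D * (u₂ ^ 2 * v₂) - 3 * (-(u₂ * v₂)) ^ 2 * (-(u₁ * v₁)) := ⟨_, rfl⟩
  obtain ⟨b, hb⟩ : ∃ b, b = D * (u₂ ^ 2 * v₂) + 2 * (u₂ ^ 2 * v₂) * (u₁ ^ 2 * v₁) + (u₁ ^ 2 * v₁) ^ 2 +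
        2 * D * (u₁ ^ 2 * v₁) - 3 * (-(u₁ * v₁)) ^ 2 * (-(u₂ * v₂)) := ⟨_, rfl⟩
  rw [← ha] at a1 h6
  rw [← hb] at a2 h6
  have hab : a - b = (-(u₂ * v₂) - -(u₁ * v₁)) ^ 3 := by
    rw [ha, hb]
    linear_combination r2 - r1
  have e1 := h1.1
  have e2 := h2.1
  have e3 := h3.1
  have hs : (u₁ * v₁) ^ 2 * (u₂ * v₂) ^ 2 ≠ 0 := by positivity
  -- the third coordinate
  have hW : (u₁ * v₁) ^ 2 * (u₂ * v₂) ^ 2 * -(P * (u₁ + v₁) - R * (u₂ + v₂)) = D ^ 2 * (a - b) := by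
    linear_combination (u₁ * v₁ * (u₁ + v₁)) * a1 - (u₂ * v₂ * (u₂ + v₂)) * a2 - D * a * e1 +
      D * b * e2
  have hU : (u₁ * v₁) ^ 2 * (u₂ * v₂) ^ 2 * (P * u₁ - R * u₂) =
      D * (a * (u₁ ^ 2 * v₁) - b * (u₂ ^ 2 * v₂)) := by
    linear_combination -(u₁ ^ 2 * v₁) * a1 + (u₂ ^ 2 * v₂) * a2
  refine ⟨?_, ?_, ?_⟩
  · intro h0
    rw [h0, mul_zero, hab] at hW
    have : -(u₂ * v₂) - -(u₁ * v₁) ≠ 0 := sub_ne_zero.2 (Ne.symm hx')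
    exact (mul_ne_zero (pow_ne_zero 2 hD) (pow_ne_zero 3 this)) hW.symm
  · have key : (u₁ * v₁) ^ 2 * (u₂ * v₂) ^ 2 * (u₃ * v₃ * (v₃ * -(P * (u₁ + v₁) - R * (u₂ + v₂)) -
        -(u₃ + v₃) * (P * u₁ - R * u₂))) = 0 := by
      linear_combination (u₃ * v₃ ^ 2) * hW + (u₃ * v₃ * (u₃ + v₃)) * hU + D ^ 2 * (u₃ * v₃ ^ 2) * hab -
        D ^ 2 * h6 + D * (a * (u₁ ^ 2 * v₁) - b * (u₂ ^ 2 * v₂)) * e3
    have h7 := (mul_eq_zero.1 key).resolve_left hs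
    exact sub_eq_zero.1 ((mul_eq_zero.1 h7).resolve_left (mul_ne_zero hu3 hv3))
  · have h7 : (u₂ * v₂ - u₁ * v₁) ^ 3 * (u₃ * v₃ ^ 2) = -(a * (u₁ ^ 2 * v₁) - b * (u₂ ^ 2 * v₂)) := by
      rw [← h6]; ring
    have h8 : (u₁ ^ 2 * v₁) * (u₂ ^ 2 * v₂) * -(a * (u₁ ^ 2 * v₁) - b * (u₂ ^ 2 * v₂)) =
        ((u₂ * v₂) * (u₁ ^ 2 * v₁) - (u₁ * v₁) * (u₂ ^ 2 * v₂)) ^ 3 := by
      rw [ha, hb]
      linear_combination (u₂ ^ 2 * v₂) ^ 3 * r1 - (u₁ ^ 2 * v₁) ^ 3 * r2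
    rw [← h8, ← h7]
    ring

end line

end Pool.Agent.T2H55.XY
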