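import Pool.Agent.T2H55.XY.Eis
import Pool.Agent.T2H55.XY.Mod

/-!
# The isogeny is surjective on rational points
-/

set_option autoImplicit false
set_option linter.unusedVariables false

namespace Pool.Agent.T2H55.XY

open Pool.Agent.Y692.QS

lemma cube_inj_mod {p : ℕ} [Fact p.Prime] (hp : p % 3 = 2) {x y : ZMod p} (hxy : x ^ 3 = y ^ 3) :
    x = y := by
  obtain ⟨k, hk⟩ : ∃ k, p = 3 * k + 2 := ⟨p / 3, by omega⟩
  have h1 : ∀ z : ZMod p, z ^ (2 * p - 1) = z := by
    intro z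
    have e : 2 * p - 1 = p + (p - 1) := by have := (Fact.out : p.Prime).two_le; omega
    rw [e, pow_add, ZMod.pow_card]
    rcases eq_or_ne z 0 with h | h
    · rw [h, zero_mul]
    · rw [ZMod.pow_card_sub_one_eq_one h, mul_one]
  have e : 2 * p - 1 = 3 * (2 * k + 1) := by omega
  rw [← h1 x, ← h1 y, e, pow_mul, pow_mul, hxy]

lemma not_dvd_norm {p : ℕ} (hp : p.Prime) (h3 : p % 3 = 2) {X Y : ℤ} (hXY : IsCoprime X Y) :
    ¬ (p : ℤ) ∣ X ^ 2 - X * Y + Y ^ 2 := by
  intro h
  have : Fact p.Prime := ⟨hp⟩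
  have h1 : (p : ℤ) ∣ X ^ 3 + Y ^ 3 := by
    have : X ^ 3 + Y ^ 3 = (X ^ 2 - X * Y + Y ^ 2) * (X + Y) := by ring
    rw [this]
    exact h.mul_right _
  have h2 : ((X : ℤ) : ZMod p) ^ 3 = (-(Y : ZMod p)) ^ 3 := by
    have := (ZMod.intCast_zmod_eq_zero_iff_dvd (X ^ 3 + Y ^ 3) p).2 h1
    push_cast at this
    linear_combination this
  have h4 := cube_inj_mod h3 h2
  have h5 : (p : ℤ) ∣ X + Y := by
    rw [← ZMod.intCast_zmod_eq_zero_iff_dvd]
    push_cast
    rw [h4]
    ring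
  have h6 : (p : ℤ) ∣ 3 * (X * Y) := by
    have : 3 * (X * Y) = (X + Y) * (X + Y) - (X ^ 2 - X * Y + Y ^ 2) := by ring
    rw [this]
    exact dvd_sub (h5.mul_right _) h
  have hpr : Prime (p : ℤ) := Nat.prime_iff_prime_int.1 hp
  have h7 : (p : ℤ) ∣ X ∧ (p : ℤ) ∣ Y := by
    rcases hpr.dvd_or_dvd h6 with h7 | h7
    · have h8 : p ∣ 3 := by exact_mod_cast h7
      have h9 := (Nat.prime_dvd_prime_iff_eq hp Nat.prime_three).1 h8
      rw [h9] at h3
      norm_num at h3
    · rcases hpr.dvd_or_dvd h7 with h8 | h8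
      · exact ⟨h8, (Int.dvd_iff_dvd_of_dvd_add h5).1 h8⟩
      · exact ⟨(Int.dvd_iff_dvd_of_dvd_add h5).2 h8, h8⟩
  exact hpr.not_isUnit (hXY.isUnit_of_dvd' h7.1 h7.2)

lemma cube_inj {x y : ℤ} (h : x ^ 3 = y ^ 3) : x = y :=
  (Odd.strictMono_pow (by decide : Odd 3)).injective h

variable {p q : ℕ}

lemma not_three (hp : p.Prime) (h3 : p % 3 = 2) : ¬ (3 : ℤ) ∣ p := by
  intro h
  have : (3 : ℕ) ∣ p := by exact_mod_cast h
  omega

/-- the theorem on the points of `X³ + Y³ = p q Z³` -/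
theorem surj (hp : p.Prime) (hq : q.Prime) (hpq : p ≠ q) (hp3 : p % 3 = 2) (hq3 : q % 3 = 2)
    (h9 : p % 9 ≠ 8) {X Y Z : ℤ} (hXY : IsCoprime X Y) (hZ : Z ≠ 0)
    (h : X ^ 3 + Y ^ 3 = (p * q : ℤ) * Z ^ 3) :
    ∃ u v : ℚ, u * v * (u + v) = -((p * q : ℕ) : ℚ) ∧ Xf u v = X / Z ∧ Yf u v = Y / Z := by
  have hFp : Fact p.Prime := ⟨hp⟩
  have hp0 : (p : ℤ) ≠ 0 := by exact_mod_cast hp.ne_zero
  have hq0 : (q : ℤ) ≠ 0 := by exact_mod_cast hq.ne_zero
  have hD0 : (p * q : ℤ) ≠ 0 := mul_ne_zero hp0 hq0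
  have hpr : Prime (p : ℤ) := Nat.prime_iff_prime_int.1 hp
  have hqr : Prime (q : ℤ) := Nat.prime_iff_prime_int.1 hq
  obtain ⟨N, hN⟩ : ∃ N, N = X ^ 2 - X * Y + Y ^ 2 := ⟨_, rfl⟩
  have hfac : (X + Y) * N = (p * q : ℤ) * Z ^ 3 := by rw [← h, hN]; ring
  have hDN : IsCoprime (p * q : ℤ) N := by
    refine IsCoprime.mul_left ?_ ?_
    · rw [hN]; exact (hpr.coprime_iff_not_dvd).2 (not_dvd_norm hp hp3 hXY)
    · rw [hN]; exact (hqr.coprime_iff_not_dvd).2 (not_dvd_norm hq hq3 hXY)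
  have hD1 : (p * q : ℤ) ∣ X + Y := hDN.dvd_of_dvd_mul_right (by rw [hfac]; exact dvd_mul_right _ _)
  have hc1 : IsCoprime (X + Y) X := by
    have := hXY.symm.add_mul_left_left 1
    rwa [mul_one, add_comm] at this
  have hc2 : IsCoprime (X + Y) Y := by
    have := hXY.add_mul_left_left 1
    rwa [mul_one] at this
  have hpX : ¬ (p : ℤ) ∣ X := by
    intro h1
    exact hpr.not_isUnit (hc1.isUnit_of_dvd' ((dvd_mul_right _ _).trans hD1) h1)
  by_cases h3 : (3 : ℤ) ∣ X + Y
  · -- second case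
    have h3D : ¬ (3 : ℤ) ∣ (p * q : ℤ) := by
      intro h1
      rcases Int.prime_three.dvd_or_dvd h1 with h2 | h2
      · exact not_three hp hp3 h2
      · exact not_three hq hq3 h2
    obtain ⟨S, hS⟩ := h3
    have h3X : ¬ (3 : ℤ) ∣ X := fun h1 =>
      Int.prime_three.not_isUnit (hc1.isUnit_of_dvd' ⟨S, hS⟩ h1)
    have h3Y : ¬ (3 : ℤ) ∣ Y := fun h1 =>
      Int.prime_three.not_isUnit (hc2.isUnit_of_dvd' ⟨S, hS⟩ h1)
    obtain ⟨M, hM⟩ : ∃ M, M = 3 * S ^ 2 - X * Y := ⟨_, rfl⟩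
    have hNM : N = 3 * M := by
      have : Y = 3 * S - X := by linarith
      rw [hN, hM, this]; ring
    have h3M : ¬ (3 : ℤ) ∣ M := by
      intro h1
      rw [hM] at h1
      have h2 : (3 : ℤ) ∣ X * Y := by
        have : X * Y = 3 * S ^ 2 - (3 * S ^ 2 - X * Y) := by ring
        rw [this]
        exact dvd_sub (dvd_mul_right _ _) h1
      rcases Int.prime_three.dvd_or_dvd h2 with h4 | h4
      · exact h3X h4
      · exact h3Y h4
    have h3Z : (3 : ℤ) ∣ Z := by
      have h1 : (3 : ℤ) ∣ (p * q : ℤ) * Z ^ 3 := by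
        rw [← hfac, hS]
        exact (dvd_mul_right _ _).mul_right _
      rcases Int.prime_three.dvd_or_dvd h1 with h2 | h2
      · exact absurd h2 h3D
      · exact Int.prime_three.dvd_of_dvd_pow h2
    obtain ⟨Z', hZ'⟩ := h3Z
    have e1 : S * M = (p * q : ℤ) * (3 * Z' ^ 3) := by
      have : (9 : ℤ) * (S * M) = 9 * ((p * q : ℤ) * (3 * Z' ^ 3)) := by
        rw [hS, hNM, hZ'] at hfac
        linear_combination hfac
      linarith
    have h3S : (3 : ℤ) ∣ S := by
      have h1 : (3 : ℤ) ∣ S * M := by rw [e1]; exact ⟨(p * q : ℤ) * Z' ^ 3, by ring⟩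
      rcases Int.prime_three.dvd_or_dvd h1 with h2 | h2
      · exact h2
      · exact absurd h2 h3M
    obtain ⟨S', hS'⟩ := h3S
    have e2 : S' * M = (p * q : ℤ) * Z' ^ 3 := by
      rw [hS'] at e1
      linarith
    have hDM : IsCoprime (p * q : ℤ) M := hDN.of_isCoprime_of_dvd_right ⟨3, by rw [hNM]; ring⟩
    obtain ⟨B, hB⟩ : (p * q : ℤ) ∣ S' :=
      hDM.dvd_of_dvd_mul_right (by rw [e2]; exact dvd_mul_right _ _)
    have e3 : B * M = Z' ^ 3 := by
      rw [hB] at e2
      exact mul_left_cancel₀ hD0 (by linarith)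
    have hSX : IsCoprime S X := hc1.of_isCoprime_of_dvd_left ⟨3, by rw [hS]; ring⟩
    have hSY : IsCoprime S Y := hc2.of_isCoprime_of_dvd_left ⟨3, by rw [hS]; ring⟩
    have hSM : IsCoprime S M := by
      have h1 : IsCoprime S (-(X * Y)) := (hSX.mul_right hSY).neg_right
      have h2 := h1.add_mul_left_right (3 * S)
      have e : -(X * Y) + S * (3 * S) = M := by rw [hM]; ring
      rwa [e] at h2
    have hBM : IsCoprime B M := hSM.of_isCoprime_of_dvd_left ⟨3 * (p * q : ℤ), by rw [hS', hB]; ring⟩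
    obtain ⟨⟨a, ha⟩, ⟨c, hc⟩⟩ := Int.eq_pow_of_mul_eq_pow_odd hBM (by decide : Odd 3) e3
    have hZac : Z' = a * c := by
      apply cube_inj
      rw [← e3, ha, hc]; ring
    have hc3 : ¬ (3 : ℤ) ∣ c := by
      intro h1
      apply h3M
      rw [hc]
      exact dvd_pow h1 (by norm_num)
    have hcop : IsCoprime (X - S) S := by
      have h1 := hSX.symm.add_mul_left_left (-1)
      have e : X + S * -1 = X - S := by ring
      rwa [e] at h1
    have hNc : (X - S) ^ 2 - (X - S) * S + S ^ 2 = c ^ 3 := by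
      rw [← hc, hM]
      have : Y = 3 * S - X := by linarith
      rw [this]; ring
    obtain ⟨k, β, hk, hβ⟩ := cube_of_norm hcop hc3 hNc
    have hpS : (p : ℤ) ∣ S := by
      rw [hS', hB]
      exact ⟨3 * (q * B), by ring⟩
    have hloc : ph p (X : Ei) = ph p w ^ k * ph p β ^ 3 := by
      rw [← map_pow, ← map_pow, ← map_mul, ← hβ, ← sub_eq_zero, ← map_sub, ph_zero]
      constructor
      · simpa using hpS
      · simpa using hpS
    have hk0 := loc_two hp3 h9 hpX hk hloc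
    subst hk0
    obtain ⟨s, t⟩ := β
    rw [pow_zero, one_mul] at hβ
    have g1 : X - S = s ^ 3 + t ^ 3 - 3 * s * t ^ 2 := by
      have := congrArg QuadraticAlgebra.re hβ
      simp only [pow_succ, pow_zero, one_mul, mul_re, mul_im] at this
      linear_combination this
    have g2 : S = 3 * s ^ 2 * t - 3 * s * t ^ 2 := by
      have := congrArg QuadraticAlgebra.im hβ
      simp only [pow_succ, pow_zero, one_mul, mul_re, mul_im] at this
      linear_combination this
    have hcs : c = s ^ 2 - s * t + t ^ 2 := by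
      apply cube_inj
      rw [← hNc, g1, g2]; ring
    have hst : s * t * (s - t) = (p * q : ℤ) * a ^ 3 := by
      have h1 : 3 * (s * t * (s - t)) = 3 * ((p * q : ℤ) * a ^ 3) := by
        rw [← ha, ← hB]
        have e : S = 3 * S' := hS'
        rw [← e, g2]; ring
      linarith
    have ha0 : a ≠ 0 := by
      rintro rfl
      apply hZ
      rw [hZ', hZac]; ring
    have hc0 : c ≠ 0 := by
      rintro rfl
      apply hZ
      rw [hZ', hZac]; ring
    have ha0' : (a : ℚ) ≠ 0 := by exact_mod_cast ha0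
    have hc0' : (c : ℚ) ≠ 0 := by exact_mod_cast hc0
    have hcs' : (c : ℚ) = s ^ 2 - s * t + t ^ 2 := by exact_mod_cast hcs
    have hst' : (s * t * (s - t) : ℚ) = (p * q : ℕ) * a ^ 3 := by exact_mod_cast hst
    have hX : (X : ℚ) = s ^ 3 + t ^ 3 + 3 * s ^ 2 * t - 6 * s * t ^ 2 := by
      have : X = s ^ 3 + t ^ 3 + 3 * s ^ 2 * t - 6 * s * t ^ 2 := by linarith
      exact_mod_cast this
    have hY : (Y : ℚ) = 6 * s ^ 2 * t - 3 * s * t ^ 2 - s ^ 3 - t ^ 3 := by
      have : Y = 6 * s ^ 2 * t - 3 * s * t ^ 2 - s ^ 3 - t ^ 3 := by linarith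
      exact_mod_cast this
    have hZq : (Z : ℚ) = 3 * (a * c) := by
      rw [hZ', hZac]; push_cast; ring
    have hn : ((s : ℚ) / a) ^ 2 + s / a * (-t / a) + (-t / a) ^ 2 = c / a ^ 2 := by
      rw [hcs']
      field_simp
      ring
    refine ⟨s / a, -t / a, ?_, ?_, ?_⟩
    · field_simp
      linear_combination -hst'
    · unfold Xf
      rw [hn, hZq, hX]
      field_simp
      ring
    · unfold Yf
      rw [hn, hZq, hY]
      field_simp
      ring
  · -- first case
    have hc3' : IsCoprime (X + Y) (3 : ℤ) :=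
      ((Int.prime_three.coprime_iff_not_dvd).2 h3).symm
    have hSN : IsCoprime (X + Y) N := by
      have h1 : IsCoprime (X + Y) (-(3 * (X * Y))) := (hc3'.mul_right (hc1.mul_right hc2)).neg_right
      have h2 := h1.add_mul_left_right (X + Y)
      have e : -(3 * (X * Y)) + (X + Y) * (X + Y) = N := by rw [hN]; ring
      rwa [e] at h2
    obtain ⟨B, hB⟩ := hD1
    have e3 : B * N = Z ^ 3 := by
      rw [hB] at hfac
      exact mul_left_cancel₀ hD0 (by linarith)
    have hBN : IsCoprime B N := hSN.of_isCoprime_of_dvd_left ⟨(p * q : ℤ), by rw [hB]; ring⟩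
    obtain ⟨⟨a, ha⟩, ⟨c, hc⟩⟩ := Int.eq_pow_of_mul_eq_pow_odd hBN (by decide : Odd 3) e3
    have hZac : Z = a * c := by
      apply cube_inj
      rw [← e3, ha, hc]; ring
    have hc3 : ¬ (3 : ℤ) ∣ c := by
      intro h1
      have h2 : (3 : ℤ) ∣ N := by rw [hc]; exact dvd_pow h1 (by norm_num)
      have h4 : (3 : ℤ) ∣ (X + Y) * (X + Y) := by
        have : (X + Y) * (X + Y) = N + 3 * (X * Y) := by rw [hN]; ring
        rw [this]
        exact dvd_add h2 (dvd_mul_right _ _)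
      rcases Int.prime_three.dvd_or_dvd h4 with h5 | h5 <;> exact h3 h5
    obtain ⟨k, β, hk, hβ⟩ := cube_of_norm hXY hc3 (by rw [← hN, hc])
    have hpS : (p : ℤ) ∣ X + Y := by
      rw [hB]
      exact ⟨q * B, by ring⟩
    have hloc : ph p (X : Ei) * (1 - ph p w) = ph p w ^ k * ph p β ^ 3 := by
      rw [← map_pow, ← map_pow, ← map_mul, ← hβ, ← map_one (ph p), ← map_sub, ← map_mul,
        ← sub_eq_zero, ← map_sub, ph_zero]
      have r1 : (1 : Ei).re = 1 := rfl
      have i1 : (1 : Ei).im = 0 := rfl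
      constructor
      · simp [w, r1]
      · simp only [w, mul_im, QuadraticAlgebra.im_sub]
        simp [i1]
        have : -X - Y = -(X + Y) := by ring
        rw [this]
        exact (dvd_neg).2 hpS
    have hk0 := loc_one hp3 h9 hpX hk hloc
    subst hk0
    obtain ⟨s, t⟩ := β
    have g1 : X = -s ^ 3 + 3 * s ^ 2 * t - t ^ 3 := by
      have := congrArg QuadraticAlgebra.re hβ
      simp only [pow_succ, pow_zero, one_mul, mul_re, mul_im, w_re, w_im] at this
      linear_combination this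
    have g2 : Y = -s ^ 3 + 3 * s * t ^ 2 - t ^ 3 := by
      have := congrArg QuadraticAlgebra.im hβ
      simp only [pow_succ, pow_zero, one_mul, mul_re, mul_im, w_re, w_im] at this
      linear_combination this
    have hcs : c = s ^ 2 - s * t + t ^ 2 := by
      apply cube_inj
      rw [← hc, hN, g1, g2]; ring
    have hst : -((s + t) * (s - 2 * t) * (2 * s - t)) = (p * q : ℤ) * a ^ 3 := by
      rw [← ha, ← hB, g1, g2]; ring
    have ha0 : a ≠ 0 := by
      rintro rfl
      apply hZ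
      rw [hZac]; ring
    have hc0 : c ≠ 0 := by
      rintro rfl
      apply hZ
      rw [hZac]; ring
    have ha0' : (a : ℚ) ≠ 0 := by exact_mod_cast ha0
    have hc0' : (c : ℚ) ≠ 0 := by exact_mod_cast hc0
    have hcs' : (c : ℚ) = s ^ 2 - s * t + t ^ 2 := by exact_mod_cast hcs
    have hst' : (-((s + t) * (s - 2 * t) * (2 * s - t)) : ℚ) = (p * q : ℕ) * a ^ 3 := by
      exact_mod_cast hst
    have hX : (X : ℚ) = -s ^ 3 + 3 * s ^ 2 * t - t ^ 3 := by exact_mod_cast g1
    have hY : (Y : ℚ) = -s ^ 3 + 3 * s * t ^ 2 - t ^ 3 := by exact_mod_cast g2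
    have hZq : (Z : ℚ) = a * c := by
      rw [hZac]; push_cast; ring
    have hn : ((s + t : ℚ) / a) ^ 2 + (s + t) / a * ((s - 2 * t) / a) + ((s - 2 * t) / a) ^ 2 =
        3 * c / a ^ 2 := by
      rw [hcs']
      field_simp
      ring
    refine ⟨(s + t) / a, (s - 2 * t) / a, ?_, ?_, ?_⟩
    · field_simp
      linear_combination -hst'
    · unfold Xf
      rw [hn, hZq, hX]
      field_simp
      ring
    · unfold Yf
      rw [hn, hZq, hY]
      field_simp
      ring

end Pool.Agent.T2H55.XY
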