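import Pool.Agent.T2H55.XY.Ht
import Pool.Agent.T2H55.XY.Sur

/-!
# The descent
-/

set_option autoImplicit false
set_option linter.unusedVariables false

namespace Pool.Agent.T2H55.XY

/-- the class of a point at the prime `l` -/
def cls (l : ℕ) (u v : ℚ) : ZMod 3 := ((2 * padicValRat l u + padicValRat l v : ℤ) : ZMod 3)

lemma cls_swap (l : ℕ) (u v : ℚ) : cls l v u = -cls l u v := by
  unfold cls
  rw [← sub_eq_zero, ← Int.cast_neg, ← Int.cast_sub]
  have e : (2 * padicValRat l v + padicValRat l u - -(2 * padicValRat l u + padicValRat l v) : ℤ) =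
      3 * (padicValRat l u + padicValRat l v) := by ring
  rw [e]
  push_cast
  have : (3 : ZMod 3) = 0 := rfl
  rw [this, zero_mul]

lemma cls_add {D : ℚ} {A B : EP D} {u₁ v₁ u₂ v₂ u₃ v₃ : ℚ} (hD : D ≠ 0) {l : ℕ} (hl : l.Prime)
    (h1 : Is A u₁ v₁) (h2 : Is B u₂ v₂) (h3 : Is (A + B) u₃ v₃) (hAB : A ≠ B) (hAB' : A ≠ -B) :
    cls l u₃ v₃ = cls l u₁ v₁ + cls l u₂ v₂ := by
  have : Fact l.Prime := ⟨hl⟩
  have hx : u₁ * v₁ ≠ u₂ * v₂ := by
    intro e
    rcases (h1.2).eq_or_neg ((h2.2).congr (by rw [e]) rfl) with h | h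
    · exact hAB h
    · exact hAB' h
  obtain ⟨-, -, l3⟩ := line_prop hD h1 h2 hx h3
  obtain ⟨a1, a2, a3⟩ := h1.ne hD
  obtain ⟨b1, b2, b3⟩ := h2.ne hD
  obtain ⟨c1, c2, c3⟩ := h3.ne hD
  obtain ⟨s, hs⟩ : ∃ s, s = u₂ * v₂ - u₁ * v₁ := ⟨_, rfl⟩
  obtain ⟨t, ht⟩ : ∃ t, t = (u₂ * v₂) * (u₁ ^ 2 * v₁) - (u₁ * v₁) * (u₂ ^ 2 * v₂) := ⟨_, rfl⟩
  rw [← hs, ← ht] at l3
  have hs0 : s ≠ 0 := by rw [hs]; exact sub_ne_zero.2 (Ne.symm hx)
  have ht0 : t ≠ 0 := by
    rintro rfl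
    rw [zero_pow (by norm_num)] at l3
    have : (u₁ ^ 2 * v₁) * (u₂ ^ 2 * v₂) * (u₃ * v₃ ^ 2) * s ^ 3 ≠ 0 := by positivity
    exact this l3
  have h4 := congrArg (padicValRat l) l3
  rw [padicValRat.mul (by positivity) (by positivity), padicValRat.mul (by positivity) (by positivity),
    padicValRat.mul (by positivity) (by positivity), padicValRat.mul (by positivity) (by positivity),
    padicValRat.mul (by positivity) (by positivity), padicValRat.mul (by positivity) (by positivity),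
    padicValRat.pow, padicValRat.pow, padicValRat.pow, padicValRat.pow, padicValRat.pow] at h4
  push_cast at h4
  unfold cls
  rw [← Int.cast_add, ← sub_eq_zero, ← Int.cast_sub]
  have e : (2 * padicValRat l u₃ + padicValRat l v₃ -
      (2 * padicValRat l u₁ + padicValRat l v₁ + (2 * padicValRat l u₂ + padicValRat l v₂)) : ℤ) =
      3 * (padicValRat l u₃ + padicValRat l v₃ + padicValRat l s - padicValRat l t) := by
    linarith
  rw [e]
  push_cast
  have : (3 : ZMod 3) = 0 := rfl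
  rw [this, zero_mul]

section

variable {p q : ℕ} {D : ℤ}

lemma val_D (hp : p.Prime) (hq : q.Prime) (hpq : p ≠ q) (hD : D = p * q) : padicValInt p D = 1 := by
  have : Fact p.Prime := ⟨hp⟩
  have : Fact q.Prime := ⟨hq⟩
  rw [hD, padicValInt.mul (by exact_mod_cast hp.ne_zero) (by exact_mod_cast hq.ne_zero)]
  have h1 : padicValInt p (p : ℤ) = 1 := by
    rw [padicValInt.of_nat, padicValNat_self]
  have h2 : padicValInt p (q : ℤ) = 0 := by
    rw [padicValInt.of_nat, padicValNat_primes hpq]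
  rw [h1, h2]

lemma rat_val {l : ℕ} (hl : l.Prime) {U T : ℤ} (hU : U ≠ 0) (hT : T ≠ 0) :
    padicValRat l ((U : ℚ) / T) = (padicValInt l U : ℤ) - padicValInt l T := by
  have : Fact l.Prime := ⟨hl⟩
  rw [padicValRat.div (by exact_mod_cast hU) (by exact_mod_cast hT), padicValRat.of_int,
    padicValRat.of_int]

lemma Rep.cls_eq (hp : p.Prime) (hpD : padicValInt p D = 1) (hD : D ≠ 0)
    {Q : EP (D : ℚ)} {U V T : ℤ} (h : Rep Q U V T) :
    ((p : ℤ) ∣ U ∧ cls p ((U : ℚ) / T) (V / T) = 2) ∨ ((p : ℤ) ∣ V ∧ cls p ((U : ℚ) / T) (V / T) = 1) ∨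
    ((p : ℤ) ∣ U + V ∧ cls p ((U : ℚ) / T) (V / T) = 0) := by
  have hF : Fact p.Prime := ⟨hp⟩
  obtain ⟨hU, hV, hW⟩ := h.ne hD
  have hpr : Prime (p : ℤ) := Nat.prime_iff_prime_int.1 hp
  have h1 := congrArg (padicValInt p) h.eqn
  rw [padicValInt.mul (mul_ne_zero hU hV) hW, padicValInt.mul hU hV, ← neg_mul,
    padicValInt.mul (neg_ne_zero.2 hD) (pow_ne_zero 3 h.T0)] at h1
  have h2 : padicValInt p (-D) = 1 := by
    rw [← hpD]; unfold padicValInt; rw [Int.natAbs_neg]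
  have h3 : padicValInt p (T ^ 3) = 3 * padicValInt p T := by
    unfold padicValInt
    rw [Int.natAbs_pow, padicValNat.pow]
  rw [h2, h3] at h1
  have hz : ∀ x : ℤ, ¬ (p : ℤ) ∣ x → padicValInt p x = 0 := by
    intro x hx
    exact padicValInt.eq_zero_of_not_dvd hx
  have hdvd : (p : ℤ) ∣ U ∨ (p : ℤ) ∣ V ∨ (p : ℤ) ∣ U + V := by
    by_contra hcon
    push Not at hcon
    rw [hz U hcon.1, hz V hcon.2.1, hz _ hcon.2.2] at h1
    omega
  have hc1 : IsCoprime U V := h.cop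
  have hc2 : IsCoprime (U + V) U := by
    have := hc1.symm.add_mul_left_left 1
    rwa [mul_one, add_comm] at this
  have hc3 : IsCoprime (U + V) V := by
    have := hc1.add_mul_left_left 1
    rwa [mul_one] at this
  have hno : ∀ {x y : ℤ}, IsCoprime x y → (p : ℤ) ∣ x → ¬ (p : ℤ) ∣ y := fun hc hx hy =>
    hpr.not_isUnit (hc.isUnit_of_dvd' hx hy)
  have key : ∀ n : ℤ, ∀ k : ℤ, n = 3 * k → ((n : ℤ) : ZMod 3) = 0 := by
    intro n k hn
    rw [hn]
    push_cast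
    have : (3 : ZMod 3) = 0 := rfl
    rw [this, zero_mul]
  unfold cls
  rw [rat_val hp hU h.T0, rat_val hp hV h.T0]
  rcases hdvd with hd | hd | hd
  · refine Or.inl ⟨hd, ?_⟩
    rw [hz V (hno hc1 hd), hz (U + V) (hno hc2.symm hd)] at h1
    rw [hz V (hno hc1 hd), ← sub_eq_zero]
    have := key (2 * ((padicValInt p U : ℤ) - padicValInt p T) + ((0 : ℕ) - padicValInt p T) - 2)
      (padicValInt p T) (by push_cast; omega)
    rw [← this]
    push_cast
    ring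
  · refine Or.inr (Or.inl ⟨hd, ?_⟩)
    rw [hz U (hno hc1.symm hd), hz (U + V) (hno hc3.symm hd)] at h1
    rw [hz U (hno hc1.symm hd), ← sub_eq_zero]
    have := key (2 * (((0 : ℕ) : ℤ) - padicValInt p T) + ((padicValInt p V : ℤ) - padicValInt p T) - 1)
      0 (by push_cast; omega)
    rw [← this]
    push_cast
    ring
  · refine Or.inr (Or.inr ⟨hd, ?_⟩)
    rw [hz U (hno hc2 hd), hz V (hno hc3 hd)]
    have := key (2 * (((0 : ℕ) : ℤ) - padicValInt p T) + (((0 : ℕ) : ℤ) - padicValInt p T))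
      (-padicValInt p T) (by push_cast; ring)
    rw [← this]

/-- division by three -/
lemma div_core (hp : p.Prime) (hq : q.Prime) (hpq : p ≠ q) (hp3 : p % 3 = 2) (hq3 : q % 3 = 2)
    (h9 : p % 9 ≠ 8) (hD : D = p * q) {Q : EP (D : ℚ)} {U V T : ℤ} (h : Rep Q U V T)
    (h1 : (p : ℤ) ∣ U + V) (h2 : (q : ℤ) ∣ U + V) :
    ∃ (R : EP (D : ℚ)) (u v : ℚ), Is R u v ∧ u ≠ v ∧ Q = R + R + R := by
  have hp0 : (p : ℤ) ≠ 0 := by exact_mod_cast hp.ne_zero
  have hq0 : (q : ℤ) ≠ 0 := by exact_mod_cast hq.ne_zero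
  have hD0 : D ≠ 0 := by rw [hD]; exact mul_ne_zero hp0 hq0
  have hDq : (D : ℚ) ≠ 0 := by exact_mod_cast hD0
  obtain ⟨hU, hV, hW⟩ := h.ne hD0
  have hcop : IsCoprime (p : ℤ) q := by
    rw [Nat.isCoprime_iff_coprime]
    exact (Nat.coprime_primes hp hq).2 hpq
  obtain ⟨W, hWd⟩ : (p * q : ℤ) ∣ U + V := hcop.mul_dvd h1 h2
  have e1 : U * (V * W) = (-T) ^ 3 := by
    have h3 := h.eqn
    rw [hWd, hD] at h3
    have : (p * q : ℤ) * (U * (V * W)) = (p * q : ℤ) * (-T) ^ 3 := by linear_combination h3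
    exact mul_left_cancel₀ (mul_ne_zero hp0 hq0) this
  have hc1 : IsCoprime U V := h.cop
  have hc2 : IsCoprime (U + V) U := by
    have := hc1.symm.add_mul_left_left 1
    rwa [mul_one, add_comm] at this
  have hc3 : IsCoprime (U + V) V := by
    have := hc1.add_mul_left_left 1
    rwa [mul_one] at this
  have hWU : IsCoprime W U := hc2.of_isCoprime_of_dvd_left ⟨(p * q : ℤ), by rw [hWd]; ring⟩
  have hWV : IsCoprime W V := hc3.of_isCoprime_of_dvd_left ⟨(p * q : ℤ), by rw [hWd]; ring⟩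
  obtain ⟨⟨a, ha⟩, ⟨e, he⟩⟩ := Int.eq_pow_of_mul_eq_pow_odd (hc1.mul_right hWU.symm)
    (by decide : Odd 3) e1
  obtain ⟨⟨b, hb⟩, ⟨c, hc⟩⟩ := Int.eq_pow_of_mul_eq_pow_odd hWV.symm (by decide : Odd 3) he
  have hTabc : -T = a * b * c := by
    apply cube_inj
    rw [← e1, ha, hb, hc]; ring
  have hab : IsCoprime b a := by
    rw [ha, hb] at hc1
    exact ((IsCoprime.pow_iff (by norm_num) (by norm_num)).1 hc1).symm
  have hsum : b ^ 3 + a ^ 3 = (p * q : ℤ) * c ^ 3 := by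
    rw [← hb, ← ha, ← hc, ← hWd]; ring
  have hc0 : c ≠ 0 := by
    rintro rfl
    apply hW
    rw [hWd, hc]; ring
  have ha0 : a ≠ 0 := by
    rintro rfl
    apply hU
    rw [ha]; ring
  have hb0 : b ≠ 0 := by
    rintro rfl
    apply hV
    rw [hb]; ring
  obtain ⟨u, v, g1, g2, g3⟩ := surj hp hq hpq hp3 hq3 h9 hab hc0 hsum
  have g1' : u * v * (u + v) = -(D : ℚ) := by rw [g1, hD]; push_cast; ring
  obtain ⟨R, hR⟩ : ∃ R : EP (D : ℚ), At R (-(u * v)) (u ^ 2 * v) :=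
    at_mk (by rw [mul_zero, add_zero]; exact pow_ne_zero 2 hDq) (by
      have e : (D : ℚ) = -(u * v * (u + v)) := by rw [g1']; ring
      rw [e]; ring)
  have hRI : Is R u v := ⟨g1', hR⟩
  obtain ⟨hu, hv, huv⟩ := hRI.ne hDq
  have hne : u ≠ v := by
    intro e
    subst e
    have e1 : Xf u u = Yf u u := by
      unfold Xf Yf
      congr 1
      ring
    rw [g2, g3] at e1
    have hcq : (c : ℚ) ≠ 0 := by exact_mod_cast hc0
    rw [div_left_inj' hcq] at e1
    have e2 : b = a := by exact_mod_cast e1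
    rw [e2] at hab hsum
    have hua : IsUnit a := isCoprime_self.1 hab
    have h4 : a ^ 3 = a := by
      rcases Int.isUnit_iff.1 hua with h | h <;> rw [h] <;> norm_num
    have h5 : (p * q : ℤ) ∣ 2 := by
      have h6 : (p * q : ℤ) ∣ a * 2 := ⟨c ^ 3, by rw [← hsum, h4]; ring⟩
      exact (hua.dvd_mul_left).1 h6
    have h6 := Int.le_of_dvd (by norm_num) h5
    have h7 : (2 : ℤ) ≤ p := by exact_mod_cast hp.two_le
    have h8 : (2 : ℤ) ≤ q := by exact_mod_cast hq.two_le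
    nlinarith
  refine ⟨R, u, v, hRI, hne, ?_⟩
  have h3 := hRI.tri hDq hne
  have hTq : (T : ℚ) ≠ 0 := by exact_mod_cast h.T0
  have haq : (a : ℚ) ≠ 0 := by exact_mod_cast ha0
  have hbq : (b : ℚ) ≠ 0 := by exact_mod_cast hb0
  have hcq : (c : ℚ) ≠ 0 := by exact_mod_cast hc0
  have hT' : (T : ℚ) = -(a * b * c) := by
    have : T = -(a * b * c) := by rw [← hTabc]; ring
    exact_mod_cast this
  have hU' : (U : ℚ) = a ^ 3 := by exact_mod_cast ha
  have hV' : (V : ℚ) = b ^ 3 := by exact_mod_cast hb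
  refine h.is.2.ext (h3.congr ?_ ?_)
  · rw [g2, g3, hT', hU', hV']
    field_simp
  · rw [g3, hT', hU', hV']
    field_simp

end

end Pool.Agent.T2H55.XY
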