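import Pool.Agent.Y715.T.Rs

/-!
# Descent in the Eisenstein integers
-/

set_option autoImplicit false
set_option linter.unusedSectionVars false
set_option linter.unusedSimpArgs false
set_option linter.unusedVariables false

namespace Pool.Agent.T2H55.XY

open Pool.Agent.Y692.QS

/-- the units -/
lemma unit_cases {u : Ei} (h : nr u = 1) : ∃ k : ℕ, k < 3 ∧ (u = w ^ k ∨ u = -w ^ k) := by
  obtain ⟨a, b⟩ := u
  unfold nr at h
  simp only at h
  have hb1 : b ≤ 1 := by nlinarith [sq_nonneg (2 * a - b)]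
  have hb2 : -1 ≤ b := by nlinarith [sq_nonneg (2 * a - b)]
  have ha1 : a ≤ 1 := by nlinarith [sq_nonneg (2 * b - a)]
  have ha2 : -1 ≤ a := by nlinarith [sq_nonneg (2 * b - a)]
  interval_cases a <;> interval_cases b <;> simp at h
  · exact ⟨2, by norm_num, Or.inl (by decide)⟩
  · exact ⟨0, by norm_num, Or.inr (by decide)⟩
  · exact ⟨1, by norm_num, Or.inr (by decide)⟩
  · exact ⟨1, by norm_num, Or.inl (by decide)⟩
  · exact ⟨0, by norm_num, Or.inl (by decide)⟩
  · exact ⟨2, by norm_num, Or.inr (by decide)⟩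

lemma star_mk (X Y : ℤ) : star (⟨X, Y⟩ : Ei) = ⟨X - Y, -Y⟩ := by
  ext
  · rw [star_re]
  · rw [star_im]

/-- a cube up to a unit -/
lemma cube_of_norm {X Y c : ℤ} (hXY : IsCoprime X Y) (h3 : ¬ (3 : ℤ) ∣ c)
    (hN : X ^ 2 - X * Y + Y ^ 2 = c ^ 3) :
    ∃ (k : ℕ) (β : Ei), k < 3 ∧ (⟨X, Y⟩ : Ei) = w ^ k * β ^ 3 := by
  have hcop : IsCoprime (⟨X, Y⟩ : Ei) (star ⟨X, Y⟩) := by
    obtain ⟨a, b, hab⟩ := hXY
    have h3' : IsCoprime (3 : ℤ) (c ^ 3) :=
      ((Int.prime_three.coprime_iff_not_dvd).2 h3).pow_right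
    obtain ⟨r, s, hrs⟩ := h3'
    -- combinations
    have e1 : (w ^ 2 * ⟨X, Y⟩ - w * star ⟨X, Y⟩ : Ei) = (X : Ei) * (w ^ 2 - w) := by
      rw [star_mk]
      ext
      · simp [mul_re, mul_im, w, sq]
      · simp [mul_re, mul_im, w, sq]; ring
    have e2 : ((⟨X, Y⟩ : Ei) - star ⟨X, Y⟩) = (Y : Ei) * (w - w ^ 2) := by
      rw [star_mk]
      ext
      · simp [mul_re, mul_im, w, sq]
      · simp [mul_re, mul_im, w, sq]; ring
    have e3 : (w - w ^ 2) * (w - w ^ 2) = (-3 : Ei) := by decide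
    have e4 : (⟨X, Y⟩ : Ei) * star ⟨X, Y⟩ = ((c ^ 3 : ℤ) : Ei) := by
      rw [mul_star, ← hN]
      rfl
    have hab' : (a : Ei) * X + b * Y = 1 := by exact_mod_cast congrArg (Int.cast : ℤ → Ei) hab
    have hrs' : (r : Ei) * 3 + s * ((c ^ 3 : ℤ) : Ei) = 1 := by
      exact_mod_cast congrArg (Int.cast : ℤ → Ei) hrs
    refine ⟨-(r : Ei) * (w - w ^ 2) * (-(a : Ei) * w ^ 2 + b) + s * star ⟨X, Y⟩,
      -(r : Ei) * (w - w ^ 2) * (a * w - b), ?_⟩
    linear_combination hrs' + r * (w - w ^ 2) * (a * e1 - b * e2) + s * e4 - r * e3 +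
      r * (w - w ^ 2) * (w - w ^ 2) * (-hab')
  have hmul : (⟨X, Y⟩ : Ei) * star ⟨X, Y⟩ = (c : Ei) ^ 3 := by
    rw [mul_star, ← Int.cast_pow, ← hN]
    rfl
  have := Pool.Agent.Y715.T.Rs.pidEi
  obtain ⟨d, u, hu⟩ := exists_associated_pow_of_mul_eq_pow' hcop hmul
  obtain ⟨k, hk, h⟩ := unit_cases (isUnit_iff.1 u.isUnit)
  rcases h with h | h
  · exact ⟨k, d, hk, by rw [← hu, h]; ring⟩
  · exact ⟨k, -d, hk, by rw [← hu, h]; ring⟩

/-! ### modulo an inert prime -/

section loc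

variable {p : ℕ} [hp : Fact p.Prime]

/-- the residue ring -/
abbrev Rp (p : ℕ) := Ei ⧸ Ideal.span {(p : Ei)}

/-- reduction -/
abbrev ph (p : ℕ) : Ei →+* Rp p := Ideal.Quotient.mk _

instance : CharP (Rp p) p := by
  refine CharP.quotient Ei p ?_
  intro h
  rw [isUnit_iff, nr_nat] at h
  have := hp.out.two_le
  have h2 : (2 : ℤ) ≤ p := by exact_mod_cast this
  nlinarith

lemma ph_zero {z : Ei} : ph p z = 0 ↔ (p : ℤ) ∣ z.re ∧ (p : ℤ) ∣ z.im := by
  rw [Ideal.Quotient.eq_zero_iff_mem, Ideal.mem_span_singleton]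
  have := int_dvd (n := (p : ℤ)) (α := z)
  rwa [Int.cast_natCast] at this

lemma ph_w_cube : ph p w ^ 3 = 1 := by
  rw [← map_pow, w_cube, map_one]

lemma ph_w_mod (n : ℕ) : ph p w ^ n = ph p w ^ (n % 3) := by
  conv_lhs => rw [← Nat.div_add_mod n 3, pow_add, pow_mul, ph_w_cube, one_pow, one_mul]

lemma frob (h3 : p % 3 = 2) (z : Ei) : ph p z ^ p = ph p (star z) := by
  have h1 : frobenius (Rp p) p (ph p z) = ph p z ^ p := frobenius_def ..
  rw [← h1]
  have h2 : z = (z.re : Ei) + (z.im : Ei) * w := eta z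
  have h4 : star z = (z.re : Ei) + (z.im : Ei) * w ^ 2 := by
    ext
    · rw [star_re]; simp [w, sq]; ring
    · rw [star_im]; simp [w, sq]
  conv_lhs => rw [h2]
  rw [h4, map_add, map_add, map_add, map_mul, map_mul, map_mul, map_intCast, map_intCast,
    map_intCast, map_intCast, frobenius_def, ph_w_mod, h3, map_pow]

lemma unit_int {n : ℤ} (h : ¬ (p : ℤ) ∣ n) : IsUnit (ph p (n : Ei)) := by
  have h1 : IsCoprime (p : ℤ) n :=
    ((Nat.prime_iff_prime_int.1 hp.out).coprime_iff_not_dvd).2 h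
  obtain ⟨a, b, hab⟩ := h1
  have h2 : ph p ((a * p + b * n : ℤ) : Ei) = 1 := by rw [hab]; simp
  have h3 : ph p ((p : ℤ) : Ei) = 0 := by
    rw [ph_zero]
    simp
  refine IsUnit.of_mul_eq_one (ph p (b : Ei)) ?_
  rw [← h2]
  push_cast
  rw [map_add, map_mul, map_mul]
  have h4 : ph p ((p : ℕ) : Ei) = 0 := by exact_mod_cast h3
  rw [h4, mul_zero, zero_add, mul_comm]

lemma fermat {n : ℤ} (h : ¬ (p : ℤ) ∣ n) : ph p (n : Ei) ^ (p - 1) = 1 := by
  have h1 : frobenius (Rp p) p (ph p (n : Ei)) = ph p (n : Ei) := by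
    rw [map_intCast, map_intCast]
  rw [frobenius_def] at h1
  have h2 : ph p (n : Ei) ^ (p - 1) * ph p (n : Ei) = 1 * ph p (n : Ei) := by
    rw [← pow_succ, Nat.sub_add_cancel hp.out.one_le, h1, one_mul]
  exact (unit_int h).mul_right_cancel h2

lemma unit_w : IsUnit (ph p w) := IsUnit.of_mul_eq_one (ph p w ^ 2) (by rw [← pow_succ', ph_w_cube])

lemma unit_one_sub (h3 : p % 3 = 2) : IsUnit (1 - ph p w) := by
  have h : IsUnit (ph p ((3 : ℤ) : Ei)) := unit_int (by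
    intro h
    have h1 : p ∣ 3 := by exact_mod_cast h
    have h2 := (Nat.prime_dvd_prime_iff_eq hp.out Nat.prime_three).1 h1
    rw [h2] at h3
    norm_num at h3)
  have h2 : ((3 : ℤ) : Ei) = (1 - w) * (1 - w ^ 2) := by decide
  rw [h2, map_mul] at h
  have h4 := isUnit_of_mul_isUnit_left h
  rwa [map_sub, map_one] at h4

/-- the obstruction -/
lemma obstr (h3 : p % 3 = 2) (h9 : p % 9 ≠ 8) {γ e : Rp p} (h1 : γ ^ (p + 1) = 1)
    (he : e = 1 ∨ e = -1) {j : ℕ} (hj : j % 3 ≠ 0) (h : γ ^ 3 = e * ph p w ^ j) : False := by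
  obtain ⟨m, hm⟩ : ∃ m, p + 1 = 3 * m := ⟨(p + 1) / 3, by omega⟩
  have hm3 : m % 3 ≠ 0 := by omega
  have hem : e ^ m = 1 := by
    rcases he with he | he
    · rw [he, one_pow]
    · rcases hp.out.eq_two_or_odd with h2 | h2
      · have hm1 : m = 1 := by omega
        rw [he, hm1, pow_one]
        have h5 : ((p : ℕ) : Rp p) = 0 := CharP.cast_eq_zero _ _
        have h5' : ((2 : ℕ) : Rp p) = ((p : ℕ) : Rp p) := congrArg Nat.cast h2.symm
        have h6 : (1 : Rp p) + 1 = 0 := by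
          have : (((2 : ℕ)) : Rp p) = 1 + 1 := by push_cast; norm_num
          rw [← this, h5', h5]
        exact (neg_eq_of_add_eq_zero_left h6)
      · have : Even m := by
          rw [Nat.even_iff]
          omega
        rw [he, this.neg_one_pow]
  rw [hm, pow_mul, h, mul_pow, hem, one_mul, ← pow_mul, ph_w_mod] at h1
  have h5 : j * m % 3 = 1 ∨ j * m % 3 = 2 := by
    have h6 : j * m % 3 ≠ 0 := by
      intro h7
      have h8 := Nat.dvd_of_mod_eq_zero h7
      rcases (Nat.Prime.dvd_mul Nat.prime_three).1 h8 with h9 | h9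
      · exact hj (Nat.mod_eq_zero_of_dvd h9)
      · exact hm3 (Nat.mod_eq_zero_of_dvd h9)
    omega
  have hp2 := hp.out.two_le
  rcases h5 with h5 | h5 <;> rw [h5] at h1
  · have h6 : ph p (w - 1) = 0 := by rw [map_sub, map_one, ← h1, pow_one, sub_self]
    rw [ph_zero] at h6
    have h8 : (p : ℤ) ∣ 1 := h6.2
    have h7 := Int.le_of_dvd (by norm_num) h8
    omega
  · have h6 : ph p (w ^ 2 - 1) = 0 := by rw [map_sub, map_one, map_pow, h1, sub_self]
    rw [ph_zero] at h6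
    have h8 : (p : ℤ) ∣ -1 := h6.2
    have h7 := Int.le_of_dvd (by norm_num) ((dvd_neg.1 h8))
    omega

lemma gam (h3 : p % 3 = 2) {β : Ei} (hb : IsUnit (ph p β)) :
    ∃ γ : Rp p, γ ^ (p + 1) = 1 ∧ ph p (star β) = ph p β * γ := by
  obtain ⟨g, hg⟩ : ∃ g, g = ph p β ^ (p - 1) := ⟨_, rfl⟩
  have h1 : ph p (star β) = ph p β * g := by
    rw [← frob h3, hg, ← pow_succ', Nat.sub_add_cancel hp.out.one_le]
  refine ⟨g, ?_, h1⟩
  have h2 : ph p β ^ (p + 1) = ph p ((nr β : ℤ) : Ei) := by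
    rw [pow_succ, frob h3, ← map_mul, mul_comm, mul_star]
  have h4 : ¬ (p : ℤ) ∣ nr β := by
    intro h
    have h5 : ph p ((nr β : ℤ) : Ei) = 0 := by
      rw [ph_zero]
      simpa using h
    rw [h5] at h2
    have h6 := hb.pow (p + 1)
    rw [h2, isUnit_zero_iff] at h6
    have h7 : ph p (1 : Ei) = 0 := by rw [map_one, ← h6]
    rw [ph_zero] at h7
    have h9 : (p : ℤ) ∣ 1 := h7.1
    have h8 := Int.le_of_dvd (by norm_num) h9
    have := hp.out.two_le
    omega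
  rw [hg, ← pow_mul, mul_comm, pow_mul, h2]
  exact fermat h4

/-- first case -/
lemma loc_one (h3 : p % 3 = 2) (h9 : p % 9 ≠ 8) {X : ℤ} (hX : ¬ (p : ℤ) ∣ X) {β : Ei} {k : ℕ}
    (hk : k < 3) (h : ph p (X : Ei) * (1 - ph p w) = ph p w ^ k * ph p β ^ 3) : k = 2 := by
  have hb : IsUnit (ph p β) := by
    have h1 := (unit_int hX).mul (unit_one_sub h3)
    rw [h] at h1
    exact (isUnit_pow_iff (by norm_num)).1 (isUnit_of_mul_isUnit_right h1)
  obtain ⟨γ, hγ, hs⟩ := gam h3 hb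
  have hwp : ph p w ^ p = ph p w ^ 2 := by rw [ph_w_mod, h3]
  -- Frobenius
  have h1 : ph p (X : Ei) * (1 - ph p w ^ 2) = (ph p w ^ 2) ^ k * (ph p β * γ) ^ 3 := by
    have h2 := congrArg (frobenius (Rp p) p) h
    rw [map_mul, map_mul, map_sub, map_one, map_intCast, map_pow, map_pow, map_intCast,
      frobenius_def, frobenius_def, hwp, frob h3, hs] at h2
    rw [map_intCast]
    exact h2
  have hw := w_sq
  have hw2 : ph p w * ph p w = -1 - ph p w := by
    rw [← map_mul, w_sq, map_sub, map_neg, map_one]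
  have h5 : -ph p w ^ 2 = ph p w ^ k * γ ^ 3 := by
    refine ((unit_int hX).mul (unit_one_sub h3)).mul_left_cancel ?_
    calc ph p (X : Ei) * (1 - ph p w) * -ph p w ^ 2
        = ph p (X : Ei) * (1 - ph p w ^ 2) := by
          have : (1 - ph p w) * -ph p w ^ 2 = 1 - ph p w ^ 2 := by
            have h6 := ph_w_cube (p := p)
            linear_combination h6
          rw [mul_assoc, this]
      _ = _ := by
          rw [h1, h]
          ring
  by_contra hk2
  have hk' : k = 0 ∨ k = 1 := by omega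
  rcases hk' with hk' | hk'
  · rw [hk', pow_zero, one_mul] at h5
    exact obstr h3 h9 hγ (Or.inr rfl) (j := 2) (by norm_num) (by rw [← h5]; ring)
  · rw [hk', pow_one] at h5
    refine obstr h3 h9 hγ (Or.inr rfl) (j := 1) (by norm_num) ?_
    refine (unit_w (p := p)).mul_left_cancel ?_
    rw [← h5]; ring

/-- second case -/
lemma loc_two (h3 : p % 3 = 2) (h9 : p % 9 ≠ 8) {X : ℤ} (hX : ¬ (p : ℤ) ∣ X) {β : Ei} {k : ℕ}
    (hk : k < 3) (h : ph p (X : Ei) = ph p w ^ k * ph p β ^ 3) : k = 0 := by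
  have hb : IsUnit (ph p β) := by
    have h1 := unit_int hX
    rw [h] at h1
    exact (isUnit_pow_iff (by norm_num)).1 (isUnit_of_mul_isUnit_right h1)
  obtain ⟨γ, hγ, hs⟩ := gam h3 hb
  have hwp : ph p w ^ p = ph p w ^ 2 := by rw [ph_w_mod, h3]
  have h1 : ph p (X : Ei) = (ph p w ^ 2) ^ k * (ph p β * γ) ^ 3 := by
    have h2 := congrArg (frobenius (Rp p) p) h
    rw [map_mul, map_intCast, map_pow, map_pow, map_intCast,
      frobenius_def, frobenius_def, hwp, frob h3, hs] at h2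
    rw [map_intCast]
    exact h2
  have h5 : 1 = ph p w ^ k * γ ^ 3 := by
    refine (unit_int hX).mul_left_cancel ?_
    rw [mul_one]
    conv_lhs => rw [h1]
    rw [h]
    ring
  by_contra hk2
  have hk' : k = 1 ∨ k = 2 := by omega
  have h6 := ph_w_cube (p := p)
  rcases hk' with hk' | hk'
  · rw [hk', pow_one] at h5
    refine obstr h3 h9 hγ (Or.inl rfl) (j := 2) (by norm_num) ?_
    refine (unit_w (p := p)).mul_left_cancel ?_
    rw [← h5, one_mul, ← pow_succ', h6]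
  · rw [hk'] at h5
    refine obstr h3 h9 hγ (Or.inl rfl) (j := 1) (by norm_num) ?_
    refine ((unit_w (p := p)).pow 2).mul_left_cancel ?_
    rw [← h5, one_mul, pow_one, ← pow_succ, h6]

end loc

end Pool.Agent.T2H55.XY
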