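import Pool.Agent.T2H55.XY.Desc

/-!
# Generators of `y² + p q y = x³`
-/

set_option autoImplicit false
set_option linter.unusedVariables false

namespace Pool.Agent.T2H55.XY

variable {p q : ℕ} {D : ℤ}

lemma sqf (hp : p.Prime) (hq : q.Prime) (hpq : p ≠ q) (hD : D = p * q) : Squarefree D := by
  rw [hD]
  have h : Squarefree (p * q) :=
    (Nat.squarefree_mul ((Nat.coprime_primes hp hq).2 hpq)).2
      ⟨hp.prime.irreducible.squarefree, hq.prime.irreducible.squarefree⟩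
  exact_mod_cast Int.squarefree_natCast.2 h

lemma D_ne (hp : p.Prime) (hq : q.Prime) (hD : D = p * q) : D ≠ 0 := by
  rw [hD]
  exact mul_ne_zero (by exact_mod_cast hp.ne_zero) (by exact_mod_cast hq.ne_zero)

/-- one step -/
lemma div_step (hp : p.Prime) (hq : q.Prime) (hpq : p ≠ q) (hp3 : p % 3 = 2) (hq3 : q % 3 = 2)
    (h9 : p % 9 ≠ 8) (hD : D = p * q) {S : EP (D : ℚ)} (hS : IsT S) (H : AddSubgroup (EP (D : ℚ)))
    (hSH : S ∈ H) {Q : EP (D : ℚ)} {U V T : ℤ} (h : Rep Q U V T) (hQ : Q ∉ H)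
    (hcl : cls p ((U : ℚ) / T) (V / T) = cls q ((U : ℚ) / T) (V / T)) :
    ∃ (R : EP (D : ℚ)) (U' V' T' : ℤ), Rep R U' V' T' ∧ R ∉ H ∧ Mx U' V' ^ 9 ≤ 729 * Mx U V := by
  have hD0 := D_ne hp hq hD
  have hpD := val_D hp hq hpq hD
  have hqD := val_D hq hp hpq.symm (by rw [hD, mul_comm] : D = q * p)
  -- the rotated point
  have main : ∀ (Q' : EP (D : ℚ)) (U' V' : ℤ), Rep Q' U' V' T → Mx U' V' = Mx U V →
      (Q' ∉ H) → (p : ℤ) ∣ U' + V' → (q : ℤ) ∣ U' + V' →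
      ∃ (R : EP (D : ℚ)) (U'' V'' T'' : ℤ), Rep R U'' V'' T'' ∧ R ∉ H ∧
        Mx U'' V'' ^ 9 ≤ 729 * Mx U V := by
    intro Q' U' V' h' hM hQ' h1 h2
    obtain ⟨R, u, v, hR, hne, e⟩ := div_core hp hq hpq hp3 hq3 h9 hD h' h1 h2
    obtain ⟨U'', V'', T'', hrep, eu, ev⟩ := exists_rep hD0 (sqf hp hq hpq hD) hR
    have hUV : U'' ≠ V'' := by
      rintro rfl
      exact hne (by rw [eu, ev])
    rw [e] at h'
    refine ⟨R, U'', V'', T'', hrep, ?_, ?_⟩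
    · intro hRH
      apply hQ'
      rw [e]
      exact H.add_mem (H.add_mem hRH hRH) hRH
    · rw [← hM]
      exact hrep.tri hD0 hUV h'
  have e1 := h.cls_eq hp hpD hD0
  have e2 := h.cls_eq hq hqD hD0
  have n01 : (0 : ZMod 3) ≠ 1 := by decide
  have n02 : (0 : ZMod 3) ≠ 2 := by decide
  have n12 : (1 : ZMod 3) ≠ 2 := by decide
  rcases e1 with ⟨a1, a2⟩ | ⟨a1, a2⟩ | ⟨a1, a2⟩
  · -- both divide `U`
    have b1 : (q : ℤ) ∣ U := by
      rcases e2 with ⟨b1, b2⟩ | ⟨b1, b2⟩ | ⟨b1, b2⟩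
      · exact b1
      · rw [a2, b2] at hcl; exact absurd hcl.symm n12
      · rw [a2, b2] at hcl; exact absurd hcl.symm n02
    have h' := h.subT hD0 hS
    have e : V + -(U + V) = -U := by ring
    refine main _ _ _ h' (Mx_cyc U V) ?_ (by rw [e]; exact a1.neg_right) (by rw [e]; exact b1.neg_right)
    intro h3
    apply hQ
    have := H.add_mem h3 hSH
    rwa [sub_add_cancel] at this
  · have b1 : (q : ℤ) ∣ V := by
      rcases e2 with ⟨b1, b2⟩ | ⟨b1, b2⟩ | ⟨b1, b2⟩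
      · rw [a2, b2] at hcl; exact absurd hcl n12
      · exact b1
      · rw [a2, b2] at hcl; exact absurd hcl.symm n01
    have h' := (h.subT hD0 hS).subT hD0 hS
    have e0 : -(V + -(U + V)) = U := by ring
    have e : -(U + V) + -(V + -(U + V)) = -V := by ring
    refine main _ _ _ h' (by rw [Mx_cyc, Mx_cyc]) ?_ (by rw [e]; exact a1.neg_right)
      (by rw [e]; exact b1.neg_right)
    intro h3
    apply hQ
    have := H.add_mem (H.add_mem h3 hSH) hSH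
    rwa [sub_add_cancel, sub_add_cancel] at this
  · have b1 : (q : ℤ) ∣ U + V := by
      rcases e2 with ⟨b1, b2⟩ | ⟨b1, b2⟩ | ⟨b1, b2⟩
      · rw [a2, b2] at hcl; exact absurd hcl n02
      · rw [a2, b2] at hcl; exact absurd hcl n01
      · exact b1
    exact main Q U V h rfl hQ a1 b1

/-- the group is generated by the point of order three and a small point -/
theorem gen (hp : p.Prime) (hq : q.Prime) (hpq : p ≠ q) (hp3 : p % 3 = 2) (hq3 : q % 3 = 2)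
    (h9 : p % 9 ≠ 8) (hD : D = p * q) {S : EP (D : ℚ)} (hS : IsT S) {P : EP (D : ℚ)} {U₀ V₀ T₀ : ℤ}
    (hP : Rep P U₀ V₀ T₀)
    (hcl : cls p ((U₀ : ℚ) / T₀) (V₀ / T₀) ≠ cls q ((U₀ : ℚ) / T₀) (V₀ / T₀))
    (hM : 10206 * Mx U₀ V₀ ^ 2 < (max p q : ℤ) ^ 7) (H : AddSubgroup (EP (D : ℚ)))
    (hSH : S ∈ H) (hPH : P ∈ H) : H = ⊤ := by
  classical
  have hD0 := D_ne hp hq hD
  have hDq : (D : ℚ) ≠ 0 := by exact_mod_cast hD0
  have hsq := sqf hp hq hpq hD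
  have hpD := val_D hp hq hpq hD
  have hqD := val_D hq hp hpq.symm (by rw [hD, mul_comm] : D = q * p)
  have hrep : ∀ Q : EP (D : ℚ), Q ∉ H → ∃ U V T : ℤ, Rep Q U V T := by
    intro Q hQ
    rcases cases_is hDq hS Q with h | h | h | ⟨u, v, h⟩
    · exact absurd (by rw [h]; exact H.zero_mem) hQ
    · exact absurd (by rw [h]; exact hSH) hQ
    · exact absurd (by rw [h]; exact H.neg_mem hSH) hQ
    · obtain ⟨U, V, T, h1, -, -⟩ := exists_rep hD0 hsq h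
      exact ⟨U, V, T, h1⟩
  rw [AddSubgroup.eq_top_iff']
  by_contra hcon
  push Not at hcon
  -- a point of minimal height
  have hex : ∃ n : ℕ, ∃ (Q : EP (D : ℚ)) (U V T : ℤ), Q ∉ H ∧ Rep Q U V T ∧ Mx U V = n := by
    obtain ⟨Q, hQ⟩ := hcon
    obtain ⟨U, V, T, h⟩ := hrep Q hQ
    exact ⟨(Mx U V).toNat, Q, U, V, T, hQ, h, (Int.toNat_of_nonneg (Mx_nonneg U V)).symm⟩
  obtain ⟨m, hm⟩ : ∃ m, m = Nat.find hex := ⟨_, rfl⟩
  have hspec := Nat.find_spec hex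
  rw [← hm] at hspec
  obtain ⟨Q, U, V, T, hQ, h, hMm⟩ := hspec
  have hmin : ∀ (Q' : EP (D : ℚ)) (U' V' T' : ℤ), Q' ∉ H → Rep Q' U' V' T' → (m : ℤ) ≤ Mx U' V' := by
    intro Q' U' V' T' hQ' h'
    have h1 := Nat.find_min' hex ⟨Q', U', V', T', hQ', h', (Int.toNat_of_nonneg (Mx_nonneg U' V')).symm⟩
    rw [← hm] at h1
    have h2 : (m : ℤ) ≤ ((Mx U' V').toNat : ℤ) := by exact_mod_cast h1
    rwa [Int.toNat_of_nonneg (Mx_nonneg U' V')] at h2
  have hmax : (max p q : ℤ) ≤ m := by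
    rw [← hMm]
    refine max_le ?_ ?_
    · exact h.ge hD0 hp ⟨q, hD⟩
    · exact h.ge hD0 hq ⟨p, by rw [hD]; ring⟩
  have hm5 : (5 : ℤ) ≤ max (p : ℤ) (q : ℤ) := by
    have h1 := hp.two_le
    have h2 := hq.two_le
    have h3 : 5 ≤ max p q := by
      rcases lt_or_gt_of_ne hpq with h3 | h3
      · refine le_max_of_le_right ?_
        by_contra h4
        push Not at h4
        interval_cases q <;> omega
      · refine le_max_of_le_left ?_
        by_contra h4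
        push Not at h4
        interval_cases p <;> omega
    exact_mod_cast h3
  have hm5' : (5 : ℤ) ≤ m := hm5.trans hmax
  by_cases hc : cls p ((U : ℚ) / T) (V / T) = cls q ((U : ℚ) / T) (V / T)
  · obtain ⟨R, U', V', T', h1, h2, h3⟩ := div_step hp hq hpq hp3 hq3 h9 hD hS H hSH h hQ hc
    have h4 := hmin R U' V' T' h2 h1
    rw [hMm] at h3
    have h5 : (m : ℤ) ^ 9 ≤ 729 * m := (pow_le_pow_left₀ (by omega) h4 9).trans h3
    have h6 : (5 : ℤ) ^ 8 ≤ (m : ℤ) ^ 8 := pow_le_pow_left₀ (by norm_num) hm5' 8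
    have h7 : (m : ℤ) ^ 9 = m ^ 8 * m := by ring
    rw [h7] at h5
    have h8 : (m : ℤ) ^ 8 ≤ 729 := le_of_mul_le_mul_right h5 (by omega)
    norm_num at h6
    omega
  · -- translate by the small point
    have hδ : ∃ (P' : EP (D : ℚ)) (U' V' : ℤ), Rep P' U' V' T₀ ∧ P' ∈ H ∧ Mx U' V' = Mx U₀ V₀ ∧
        cls p ((U : ℚ) / T) (V / T) + cls p ((U' : ℚ) / T₀) (V' / T₀) =
          cls q ((U : ℚ) / T) (V / T) + cls q ((U' : ℚ) / T₀) (V' / T₀) := by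
      have hz : ∀ a b c d : ZMod 3, a ≠ b → c ≠ d → (a + c = b + d ∨ a + -c = b + -d) := by decide
      rcases hz _ _ _ _ hc hcl with h1 | h1
      · exact ⟨P, U₀, V₀, hP, hPH, rfl, h1⟩
      · refine ⟨-P, V₀, U₀, hP.neg, H.neg_mem hPH, Mx_swap U₀ V₀, ?_⟩
        rw [cls_swap p ((U₀ : ℚ) / T₀) (V₀ / T₀), cls_swap q ((U₀ : ℚ) / T₀) (V₀ / T₀)]
        exact h1
    obtain ⟨P', U', V', hP', hPH', hMP, hcc⟩ := hδ
    have hQP : Q + P' ∉ H := by
      intro h1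
      apply hQ
      have := H.sub_mem h1 hPH'
      rwa [add_sub_cancel_right] at this
    have hne1 : Q ≠ P' := fun e => hQ (by rw [e]; exact hPH')
    have hne2 : Q ≠ -P' := fun e => hQ (by rw [e]; exact H.neg_mem hPH')
    obtain ⟨U₁, V₁, T₁, h1⟩ := hrep _ hQP
    have k1 := h.add_le hD0 hP' h1 hne1 hne2
    rw [hMm, hMP] at k1
    have k2 : cls p ((U₁ : ℚ) / T₁) (V₁ / T₁) = cls q ((U₁ : ℚ) / T₁) (V₁ / T₁) := by
      rw [cls_add hDq hp h.is hP'.is h1.is hne1 hne2, cls_add hDq hq h.is hP'.is h1.is hne1 hne2, hcc]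
    obtain ⟨R, U₂, V₂, T₂, g1, g2, g3⟩ := div_step hp hq hpq hp3 hq3 h9 hD hS H hSH h1 hQP k2
    have g4 := hmin R U₂ V₂ T₂ g2 g1
    have g5 : (m : ℤ) ^ 9 ≤ 729 * (14 * ((m : ℤ) ^ 2 * Mx U₀ V₀ ^ 2)) :=
      (pow_le_pow_left₀ (by omega) g4 9).trans (g3.trans (by linarith))
    have g6 : (m : ℤ) ^ 7 * m ^ 2 ≤ (10206 * Mx U₀ V₀ ^ 2) * m ^ 2 := by
      calc (m : ℤ) ^ 7 * m ^ 2 = m ^ 9 := by ring
        _ ≤ _ := g5
        _ = _ := by ring
    have g7 : (m : ℤ) ^ 7 ≤ 10206 * Mx U₀ V₀ ^ 2 :=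
      le_of_mul_le_mul_right g6 (by positivity)
    have g8 : (max p q : ℤ) ^ 7 ≤ (m : ℤ) ^ 7 := pow_le_pow_left₀ (by omega) hmax 7
    omega

end Pool.Agent.T2H55.XY
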