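import Pool.Agent.T2H55.XY.Hom
import Pool.Agent.T2H55.XY.Sur
import Pool.Agent.T2H55.XY.Gen

/-!
# `X³ + Y³ = p q`: the group is infinite cyclic
-/

set_option autoImplicit false
set_option linter.unusedVariables false

namespace Pool.Agent.T2H55.XY

/-- first coordinate of the point of `y² = x³ - 432 D²` -/
def wx (D X Y : ℚ) : ℚ := 12 * D / (X + Y)

/-- second coordinate of the point of `y² = x³ - 432 D²` -/
def wy (D X Y : ℚ) : ℚ := 36 * D * (X - Y) / (X + Y)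

variable {D : ℚ}

lemma add_ne {X Y : ℚ} (hD : D ≠ 0) (h : X ^ 3 + Y ^ 3 = D) : X + Y ≠ 0 := by
  intro h0
  apply hD
  rw [← h]
  linear_combination (X ^ 2 - X * Y + Y ^ 2) * h0

lemma exists_pt {X Y : ℚ} (hD : D ≠ 0) (h : X ^ 3 + Y ^ 3 = D) :
    ∃ R : CP D, At R (wx D X Y) (wy D X Y) := by
  have hs := add_ne hD h
  refine at_mk (disc_ne hD) ?_
  unfold wx wy
  field_simp
  rw [← h]
  ring

lemma pt_inv {R : CP D} {x y : ℚ} (hD : D ≠ 0) (h : At R x y) :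
    ∃ X Y : ℚ, X ^ 3 + Y ^ 3 = D ∧ wx D X Y = x ∧ wy D X Y = y := by
  have e := h.eqn
  have hx : x ≠ 0 := by
    rintro rfl
    have h1 : 0 < D ^ 2 := by positivity
    nlinarith [sq_nonneg y]
  refine ⟨(36 * D + y) / (6 * x), (36 * D - y) / (6 * x), ?_, ?_, ?_⟩
  · field_simp
    have e' : y ^ 2 = x ^ 3 - 432 * D ^ 2 := by linear_combination e
    have : (36 * D + y) ^ 3 + (36 * D - y) ^ 3 = 2 * (36 * D) ^ 3 + 6 * (36 * D) * y ^ 2 := by ring
    rw [this, e']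
    ring
  · unfold wx
    have : (36 * D + y) / (6 * x) + (36 * D - y) / (6 * x) = 12 * D / x := by
      field_simp
      ring
    rw [this]
    field_simp
  · unfold wy
    have h1 : (36 * D + y) / (6 * x) + (36 * D - y) / (6 * x) = 12 * D / x := by
      field_simp
      ring
    have h2 : (36 * D + y) / (6 * x) - (36 * D - y) / (6 * x) = y / (3 * x) := by
      field_simp
      ring
    rw [h1, h2]
    field_simp
    ring

lemma wx_inj {X Y X' Y' : ℚ} (hD : D ≠ 0) (h : X ^ 3 + Y ^ 3 = D) (h' : X' ^ 3 + Y' ^ 3 = D)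
    (h1 : wx D X Y = wx D X' Y') (h2 : wy D X Y = wy D X' Y') : X = X' ∧ Y = Y' := by
  have a := add_ne hD h
  have b := add_ne hD h'
  unfold wx at h1
  unfold wy at h2
  have e1 : X + Y = X' + Y' := by
    rw [div_eq_div_iff a b] at h1
    have h12 : (12 : ℚ) * D ≠ 0 := by positivity
    exact (mul_left_cancel₀ h12 h1).symm
  rw [← e1, div_left_inj' a] at h2
  have h36 : (36 : ℚ) * D ≠ 0 := by positivity
  have e2 := mul_left_cancel₀ h36 h2
  constructor <;> linarith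

lemma wx_px {u v : ℚ} (hD : D ≠ 0) (e : u * v * (u + v) = -D) :
    wx D (Xf u v) (Yf u v) = px u v ∧ wy D (Xf u v) (Yf u v) = py u v := by
  have hu : u ≠ 0 := by
    rintro rfl
    apply hD
    linear_combination e
  have hn := (nf_pos (v := v) hu).ne'
  have e1 := Xf_add (v := v) hu
  rw [e] at e1
  have e2 : Xf u v - Yf u v = (u - v) * (2 * u + v) * (u + 2 * v) / (3 * (u ^ 2 + u * v + v ^ 2)) := by
    unfold Xf Yf
    field_simp
    ring
  unfold wx wy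
  rw [e2, e1]
  obtain ⟨n, hnd⟩ : ∃ n, n = u ^ 2 + u * v + v ^ 2 := ⟨_, rfl⟩
  constructor
  · unfold px
    rw [← hnd] at hn ⊢
    field_simp
    norm_num
  · unfold py
    rw [← hnd] at hn ⊢
    field_simp
    ring

/-- every point of the second curve comes from the first -/
lemma psi_surj {p q : ℕ} (hp : p.Prime) (hq : q.Prime) (hpq : p ≠ q) (hp3 : p % 3 = 2)
    (hq3 : q % 3 = 2) (h9 : p % 9 ≠ 8) {D : ℤ} (hD : D = p * q) (hDq : (D : ℚ) ≠ 0)
    (R : CP (D : ℚ)) (hR : R ≠ 0) : ∃ Q : EP (D : ℚ), psi hDq Q = R := by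
  rcases cases_at R with h | ⟨x, y, h⟩
  · exact absurd h hR
  obtain ⟨X, Y, h1, h2, h3⟩ := pt_inv hDq h
  have hsq := sqf hp hq hpq hD
  have hXY : ∃ a b Z : ℤ, IsCoprime a b ∧ Z ≠ 0 ∧ X = a / Z ∧ Y = b / Z ∧ a ^ 3 + b ^ 3 = D * Z ^ 3 := by
    obtain ⟨a₀, ha₀⟩ : ∃ a : ℤ, a = X.num * Y.den := ⟨_, rfl⟩
    obtain ⟨b₀, hb₀⟩ : ∃ a : ℤ, a = Y.num * X.den := ⟨_, rfl⟩
    obtain ⟨Z₀, hZ₀⟩ : ∃ a : ℤ, a = X.den * Y.den := ⟨_, rfl⟩
    have hXd : (X.den : ℚ) ≠ 0 := by exact_mod_cast X.den_nz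
    have hYd : (Y.den : ℚ) ≠ 0 := by exact_mod_cast Y.den_nz
    have hZ : Z₀ ≠ 0 := by
      rw [hZ₀]
      exact mul_ne_zero (by exact_mod_cast X.den_nz) (by exact_mod_cast Y.den_nz)
    have hZq : (Z₀ : ℚ) ≠ 0 := by exact_mod_cast hZ
    have eX : X = a₀ / Z₀ := by
      rw [ha₀, hZ₀]
      push_cast
      rw [mul_div_mul_right _ _ hYd]
      exact (Rat.num_div_den X).symm
    have eY : Y = b₀ / Z₀ := by
      rw [hb₀, hZ₀]
      push_cast
      rw [mul_comm (X.den : ℚ), mul_div_mul_right _ _ hXd]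
      exact (Rat.num_div_den Y).symm
    have e0 : a₀ ^ 3 + b₀ ^ 3 = D * Z₀ ^ 3 := by
      rw [eX, eY] at h1
      field_simp at h1
      rw [mul_comm (D : ℤ)]
      exact_mod_cast h1
    obtain ⟨g, hg⟩ : ∃ g : ℤ, g = ((Int.gcd a₀ b₀ : ℕ) : ℤ) := ⟨_, rfl⟩
    have hg1 : g ∣ a₀ := by rw [hg]; exact Int.gcd_dvd_left _ _
    have hg2 : g ∣ b₀ := by rw [hg]; exact Int.gcd_dvd_right _ _
    have hg0 : g ≠ 0 := by
      rintro h0
      rw [h0, zero_dvd_iff] at hg1 hg2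
      rw [hg1, hg2] at e0
      have : D * Z₀ ^ 3 ≠ 0 := mul_ne_zero (by exact_mod_cast hDq) (pow_ne_zero 3 hZ)
      exact this (by rw [← e0]; norm_num)
    obtain ⟨a, ha⟩ := hg1
    obtain ⟨b, hb⟩ := hg2
    have hcop : IsCoprime a b := by
      rw [Int.isCoprime_iff_gcd_eq_one]
      have h1 := Int.gcd_mul_left g a b
      rw [← ha, ← hb] at h1
      have h2 : g.natAbs = Int.gcd a₀ b₀ := by rw [hg]; exact Int.natAbs_natCast _
      rw [h2] at h1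
      have h3 : 0 < Int.gcd a₀ b₀ := Nat.pos_of_ne_zero (by rw [hg] at hg0; exact_mod_cast hg0)
      have h4 : Int.gcd a₀ b₀ * 1 = Int.gcd a₀ b₀ * Int.gcd a b := by rw [mul_one]; exact h1
      exact (Nat.eq_of_mul_eq_mul_left h3 h4).symm
    have hgZ : g ∣ Z₀ := by
      refine sqf_dvd hsq hg0 ?_
      rw [← e0, ha, hb]
      exact ⟨a ^ 3 + b ^ 3, by ring⟩
    obtain ⟨Z, hZe⟩ := hgZ
    have hgq : (g : ℚ) ≠ 0 := by exact_mod_cast hg0
    refine ⟨a, b, Z, hcop, ?_, ?_, ?_, ?_⟩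
    · rintro rfl
      exact hZ (by rw [hZe, mul_zero])
    · rw [eX, ha, hZe]
      push_cast
      rw [mul_div_mul_left _ _ hgq]
    · rw [eY, hb, hZe]
      push_cast
      rw [mul_div_mul_left _ _ hgq]
    · rw [ha, hb, hZe] at e0
      have : g ^ 3 * (a ^ 3 + b ^ 3) = g ^ 3 * (D * Z ^ 3) := by linear_combination e0
      exact mul_left_cancel₀ (pow_ne_zero 3 hg0) this
  obtain ⟨a, b, Z, hcop, hZ, eX, eY, e0⟩ := hXY
  rw [hD] at e0
  obtain ⟨u, v, f1, f2, f3⟩ := surj hp hq hpq hp3 hq3 h9 hcop hZ e0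
  have f1' : u * v * (u + v) = -(D : ℚ) := by rw [f1, hD]; push_cast; ring
  have hdE : (D : ℚ) ^ 2 + 4 * 0 ≠ 0 := by
    have : (D : ℚ) ^ 2 ≠ 0 := pow_ne_zero 2 hDq
    intro h; apply this; linarith
  obtain ⟨Q, hQ⟩ : ∃ Q : EP (D : ℚ), At Q (-(u * v)) (u ^ 2 * v) := by
    refine at_mk hdE ?_
    have : (D : ℚ) = -(u * v * (u + v)) := by rw [f1']; ring
    rw [this]
    ring
  have hQi : Is Q u v := ⟨f1', hQ⟩
  refine ⟨Q, ?_⟩
  have k := psi_is hDq hQi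
  obtain ⟨w1, w2⟩ := wx_px hDq f1'
  refine (k.congr ?_ ?_).ext h
  · rw [← w1, f2, f3, ← h2, ← eX, ← eY]
  · rw [← w2, f2, f3, ← h3, ← eX, ← eY]

end Pool.Agent.T2H55.XY
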