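import Pool.Agent.T2H55.XY.Psi

/-!
# The isogeny is a homomorphism
-/

set_option autoImplicit false
set_option linter.unusedVariables false

namespace Pool.Agent.T2H55.XY

variable {D : ℚ}

/-- the image of a line -/
lemma line_image {u v l μ : ℚ} (e : u * v * (u + v) = -D) (h : u ^ 2 * v = l * -(u * v) + μ) :
    py u v * (μ * (μ + D)) = 2 * l * (D ^ 2 + μ * D + μ ^ 2) * px u v +
      4 * (2 * μ ^ 3 + 3 * D * μ ^ 2 - 3 * D ^ 2 * μ - 2 * D ^ 3 - 2 * D ^ 2 * l ^ 3) := by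
  have e' : D = -(u * v * (u + v)) := by rw [e]; ring
  rw [e']
  unfold py px
  linear_combination 8 * (v ^ 2 * -(u + v) + l * (v * -(u + v)) - μ) *
    ((u + v) ^ 2 * u + l * (-(u + v) * u) - μ) * h

lemma px_x {u v : ℚ} (e : u * v * (u + v) = -D) :
    px u v * (-(u * v)) ^ 2 = 4 * ((-(u * v)) ^ 3 + D ^ 2) := by
  have e' : D = -(u * v * (u + v)) := by rw [e]; ring
  rw [e']
  unfold px
  ring

lemma add_gen {A B : EP D} {u₁ v₁ u₂ v₂ u₃ v₃ : ℚ} {R₁ R₂ R₃ : CP D} (hD : D ≠ 0)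
    (h1 : Is A u₁ v₁) (h2 : Is B u₂ v₂) (h3 : Is (A + B) u₃ v₃) (hAB : A ≠ B) (hAB' : A ≠ -B)
    (hX : px u₁ v₁ ≠ px u₂ v₂) (k1 : At R₁ (px u₁ v₁) (py u₁ v₁)) (k2 : At R₂ (px u₂ v₂) (py u₂ v₂))
    (k3 : At R₃ (px u₃ v₃) (py u₃ v₃)) : R₁ + R₂ = R₃ := by
  obtain ⟨a1, a2, a3⟩ := h1.ne hD
  obtain ⟨b1, b2, b3⟩ := h2.ne hD
  obtain ⟨c1, c2, c3⟩ := h3.ne hD
  have hx : -(u₁ * v₁) ≠ -(u₂ * v₂) := by
    intro e
    rcases (h1.2).eq_or_neg ((h2.2).congr e.symm rfl) with h | h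
    · exact hAB h
    · exact hAB' h
  obtain ⟨l, hl⟩ : ∃ l, l = (u₁ ^ 2 * v₁ - u₂ ^ 2 * v₂) / (-(u₁ * v₁) - -(u₂ * v₂)) := ⟨_, rfl⟩
  obtain ⟨μ, hμ⟩ : ∃ μ, μ = u₁ ^ 2 * v₁ - l * -(u₁ * v₁) := ⟨_, rfl⟩
  have hd : -(u₁ * v₁) - -(u₂ * v₂) ≠ 0 := sub_ne_zero.2 hx
  have l1 : u₁ ^ 2 * v₁ = l * -(u₁ * v₁) + μ := by rw [hμ]; ring
  have l2 : u₂ ^ 2 * v₂ = l * -(u₂ * v₂) + μ := by
    have : l * (-(u₁ * v₁) - -(u₂ * v₂)) = u₁ ^ 2 * v₁ - u₂ ^ 2 * v₂ := by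
      rw [hl]; field_simp
    rw [hμ]
    linear_combination this
  have hadd := h1.2.add h2.2 hx hl
  obtain ⟨g1, g2⟩ := h3.2.inj hadd
  have l3 : v₃ ^ 2 * u₃ = l * -(v₃ * u₃) + μ := by
    have e := h3.1
    have e3 : v₃ ^ 2 * u₃ = -(u₃ ^ 2 * v₃) - D := by rw [← sub_eq_zero]; linear_combination e
    have e4 : -(v₃ * u₃) = -(u₃ * v₃) := by ring
    rw [e3, e4, g2, g1, hμ]
    ring
  have i1 := line_image h1.1 l1
  have i2 := line_image h2.1 l2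
  have e3' : v₃ * u₃ * (v₃ + u₃) = -D := by rw [← h3.1]; ring
  have i3 := line_image e3' l3
  have j1 := px_x h1.1
  have j2 := px_x h2.1
  have j3 := px_x h3.1
  have r1 := h1.2.eqn
  have r2 := h2.2.eqn
  rw [l1, add_zero] at r1
  rw [l2, add_zero] at r2
  have hp3 : px v₃ u₃ = px u₃ v₃ := by unfold px; ring
  have hq3 : py v₃ u₃ = -py u₃ v₃ := by unfold py; ring
  rw [hp3, hq3] at i3
  obtain ⟨x₁, hx₁⟩ : ∃ x, x = -(u₁ * v₁) := ⟨_, rfl⟩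
  obtain ⟨x₂, hx₂⟩ : ∃ x, x = -(u₂ * v₂) := ⟨_, rfl⟩
  obtain ⟨x₃, hx₃⟩ : ∃ x, x = -(u₃ * v₃) := ⟨_, rfl⟩
  obtain ⟨X₁, hX₁⟩ : ∃ x, x = px u₁ v₁ := ⟨_, rfl⟩
  obtain ⟨X₂, hX₂⟩ : ∃ x, x = px u₂ v₂ := ⟨_, rfl⟩
  obtain ⟨X₃, hX₃⟩ : ∃ x, x = px u₃ v₃ := ⟨_, rfl⟩
  obtain ⟨Y₁, hY₁⟩ : ∃ x, x = py u₁ v₁ := ⟨_, rfl⟩
  obtain ⟨Y₂, hY₂⟩ : ∃ x, x = py u₂ v₂ := ⟨_, rfl⟩
  obtain ⟨Y₃, hY₃⟩ : ∃ x, x = py u₃ v₃ := ⟨_, rfl⟩
  have hx10 : x₁ ≠ 0 := by rw [hx₁]; exact neg_ne_zero.2 (mul_ne_zero a1 a2)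
  have hx20 : x₂ ≠ 0 := by rw [hx₂]; exact neg_ne_zero.2 (mul_ne_zero b1 b2)
  have hx30 : x₃ ≠ 0 := by rw [hx₃]; exact neg_ne_zero.2 (mul_ne_zero c1 c2)
  rw [← hX₁, ← hY₁] at k1
  rw [← hX₂, ← hY₂] at k2
  rw [← hX₃, ← hY₃] at k3
  rw [← hX₁, ← hX₂] at hX
  rw [← hX₁, ← hY₁] at i1
  rw [← hX₂, ← hY₂] at i2
  rw [← hX₃, ← hY₃] at i3
  rw [← hx₁, ← hX₁] at j1
  rw [← hx₂, ← hX₂] at j2
  rw [← hx₃, ← hX₃] at j3
  rw [← hx₁] at r1 hx hd
  rw [← hx₂] at r2 hx hd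
  rw [← hx₁, ← hx₂, ← hx₃] at g1
  clear hx₁ hx₂ hx₃ hX₁ hX₂ hX₃ hY₁ hY₂ hY₃ hadd g2 hl
  -- elementary symmetric functions
  have s1 : l ^ 2 = x₁ + x₂ + x₃ := by rw [g1]; ring
  have s2 : x₁ * x₂ + x₁ * x₃ + x₂ * x₃ = -(l * (2 * μ + D)) := by
    have : (x₁ - x₂) * (x₁ * x₂ + x₁ * x₃ + x₂ * x₃ + l * (2 * μ + D)) = 0 := by
      linear_combination r1 - r2 - (x₁ ^ 2 - x₂ ^ 2) * s1
    have := (mul_eq_zero.1 this).resolve_left hd
    linarith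
  have s3 : x₁ * x₂ * x₃ = μ * (μ + D) := by
    linear_combination -r1 + x₁ ^ 2 * s1 + x₁ * s2
  have hs3 : μ * (μ + D) ≠ 0 := by rw [← s3]; positivity
  obtain ⟨s, hs⟩ : ∃ s, s = μ * (μ + D) := ⟨_, rfl⟩
  obtain ⟨K, hK⟩ : ∃ K, K = D ^ 2 + μ * D + μ ^ 2 := ⟨_, rfl⟩
  rw [← hs] at hs3 i1 i2 i3 s3
  rw [← hK] at i1 i2 i3
  obtain ⟨m, hm⟩ : ∃ m, m = 2 * l * K / s := ⟨_, rfl⟩
  have hms : m * s = 2 * l * K := by rw [hm]; field_simp
  have hsum : X₁ + X₂ + X₃ = m ^ 2 := by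
    have e1 : (X₁ + X₂ + X₃) * s ^ 2 = 4 * (l ^ 2 * s ^ 2 + D ^ 2 * ((-(l * (2 * μ + D))) ^ 2 -
        2 * l ^ 2 * s)) := by
      rw [s1, ← s2, ← s3]
      linear_combination (x₂ * x₃) ^ 2 * j1 + (x₁ * x₃) ^ 2 * j2 + (x₁ * x₂) ^ 2 * j3
    have e2 : m ^ 2 * s ^ 2 = (X₁ + X₂ + X₃) * s ^ 2 := by
      rw [e1, ← mul_pow, hms, hK, hs]
      ring
    exact (mul_right_cancel₀ (pow_ne_zero 2 hs3) e2).symm
  have hslope : m = (Y₁ - Y₂) / (X₁ - X₂) := by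
    rw [eq_div_iff (sub_ne_zero.2 hX)]
    have : (m * (X₁ - X₂)) * s = (Y₁ - Y₂) * s := by
      linear_combination (X₁ - X₂) * hms - i1 + i2
    exact mul_right_cancel₀ hs3 this
  refine (k1.add k2 hX hslope).ext (k3.congr ?_ ?_)
  · rw [← hsum]; ring
  · have : (Y₃ + (m * (X₃ - X₁) + Y₁)) * s = 0 := by
      linear_combination (X₃ - X₁) * hms + i1 - i3
    have := (mul_eq_zero.1 this).resolve_right hs3
    have e : m ^ 2 - X₁ - X₂ - X₁ = X₃ - X₁ := by rw [← hsum]; ring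
    rw [e]
    linarith

/-- points with the same image up to sign -/
lemma perm {A B T : EP D} {u₁ v₁ u₂ v₂ : ℚ} (hD : D ≠ 0) (hT : IsT T) (h1 : Is A u₁ v₁)
    (h2 : Is B u₂ v₂) (hX : px u₁ v₁ = px u₂ v₂) :
    A = B ∨ A = B + T ∨ A = B - T ∨ A = -B ∨ A = -(B + T) ∨ A = -(B - T) := by
  have e1 := h1.1
  have e2 := h2.1
  unfold px at hX
  have hcub : (u₁ - u₂) * ((u₁ - v₂) * (u₁ + (u₂ + v₂))) = 0 := by
    linear_combination u₁ / 4 * hX - e1 + e2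
  have h2p := h2.addT hD hT
  have h2m := h2.subT hD hT
  rcases mul_eq_zero.1 hcub with h | h
  · have hu : u₁ = u₂ := sub_eq_zero.1 h
    subst hu
    have h4 : (v₁ - v₂) * (v₁ + v₂ + u₁) = 0 := by linear_combination hX / 4
    rcases mul_eq_zero.1 h4 with h5 | h5
    · left
      exact h1.2.ext (h2.2.congr (by rw [sub_eq_zero.1 h5]) (by rw [sub_eq_zero.1 h5]))
    · right; right; right; right; left
      have hv : v₁ = -(u₁ + v₂) := by linarith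
      subst hv
      exact h1.2.ext h2p.neg.2
  · rcases mul_eq_zero.1 h with h | h
    · have hu : u₁ = v₂ := sub_eq_zero.1 h
      subst hu
      have h4 : (v₁ - u₂) * (v₁ + u₂ + u₁) = 0 := by linear_combination hX / 4
      rcases mul_eq_zero.1 h4 with h5 | h5
      · right; right; right; left
        have hv : v₁ = u₂ := sub_eq_zero.1 h5
        subst hv
        exact h1.2.ext h2.neg.2
      · right; right; left
        have hv : v₁ = -(u₂ + u₁) := by linarith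
        subst hv
        exact h1.2.ext h2m.2
    · have hu : u₁ = -(u₂ + v₂) := by linarith
      subst hu
      have h4 : (v₁ - u₂) * (v₁ - v₂) = 0 := by linear_combination hX / 4
      rcases mul_eq_zero.1 h4 with h5 | h5
      · right; left
        have hv : v₁ = u₂ := sub_eq_zero.1 h5
        subst hv
        exact h1.2.ext h2p.2
      · right; right; right; right; right
        have hv : v₁ = v₂ := sub_eq_zero.1 h5
        subst hv
        exact h1.2.ext h2m.neg.2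

theorem Rel.add (hD : D ≠ 0) {A B : EP D} {R₁ R₂ : CP D} (h1 : Rel A R₁) (h2 : Rel B R₂) :
    Rel (A + B) (R₁ + R₂) := by
  obtain ⟨T, hT⟩ := exists_T hD
  have hTr := rel_T hD hT
  have hTn : Rel (-T) 0 := by
    have := hTr.neg hD
    rwa [neg_zero] at this
  rcases cases_is hD hT A with hA | hA | hA | ⟨u₁, v₁, hA⟩
  · subst hA
    rw [h1.unique rel_zero, zero_add, zero_add]
    exact h2
  · subst hA
    rw [h1.unique hTr, zero_add, add_comm]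
    exact h2.addT hD hT
  · subst hA
    rw [h1.unique hTn, zero_add, add_comm, ← sub_eq_add_neg]
    exact h2.subT hD hT
  rcases cases_is hD hT B with hB | hB | hB | ⟨u₂, v₂, hB⟩
  · subst hB
    rw [h2.unique rel_zero, add_zero, add_zero]
    exact h1
  · subst hB
    rw [h2.unique hTr, add_zero]
    exact h1.addT hD hT
  · subst hB
    rw [h2.unique hTn, add_zero, ← sub_eq_add_neg]
    exact h1.subT hD hT
  by_cases c1 : A = B
  · subst c1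
    rw [h1.unique h2]
    exact h2.dbl hD hT
  by_cases c2 : A = B + T
  · subst c2
    rw [h1.unique (h2.addT hD hT)]
    have := (h2.dbl hD hT).addT hD hT
    have e : B + B + T = B + T + B := by abel
    rwa [e] at this
  by_cases c3 : A = B - T
  · subst c3
    rw [h1.unique (h2.subT hD hT)]
    have := (h2.dbl hD hT).subT hD hT
    have e : B + B - T = B - T + B := by abel
    rwa [e] at this
  by_cases c4 : A = -B
  · subst c4
    rw [h1.unique (h2.neg hD), neg_add_cancel, neg_add_cancel]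
    exact rel_zero
  by_cases c5 : A = -(B + T)
  · subst c5
    rw [h1.unique ((h2.addT hD hT).neg hD), neg_add_cancel]
    have e : -(B + T) + B = -T := by abel
    rw [e]
    exact hTn
  by_cases c6 : A = -(B - T)
  · subst c6
    rw [h1.unique ((h2.subT hD hT).neg hD), neg_add_cancel]
    have e : -(B - T) + B = T := by abel
    rw [e]
    exact hTr
  have hX : px u₁ v₁ ≠ px u₂ v₂ := by
    intro h
    rcases perm hD hT hA hB h with h | h | h | h | h | h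
    · exact c1 h
    · exact c2 h
    · exact c3 h
    · exact c4 h
    · exact c5 h
    · exact c6 h
  rcases cases_is hD hT (A + B) with hC | hC | hC | ⟨u₃, v₃, hC⟩
  · exact absurd (eq_neg_of_add_eq_zero_left hC) c4
  · exfalso
    apply c6
    rw [← hC]; abel
  · exfalso
    apply c5
    rw [neg_add, ← hC]; abel
  obtain ⟨R₃, hR₃⟩ := exists_rel hD (A + B)
  rw [add_gen hD hA hB hC c1 c4 hX (h1.1 _ _ hA) (h2.1 _ _ hB) (hR₃.1 _ _ hC)]
  exact hR₃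

/-- the isogeny -/
noncomputable def psi (hD : D ≠ 0) : EP D →+ CP D :=
  AddMonoidHom.mk' (fun Q => (exists_rel hD Q).choose) fun A B =>
    ((exists_rel hD (A + B)).choose_spec).unique
      (((exists_rel hD A).choose_spec).add hD ((exists_rel hD B).choose_spec))

lemma psi_rel (hD : D ≠ 0) (Q : EP D) : Rel Q (psi hD Q) := (exists_rel hD Q).choose_spec

lemma psi_is (hD : D ≠ 0) {Q : EP D} {u v : ℚ} (h : Is Q u v) : At (psi hD Q) (px u v) (py u v) :=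
  (psi_rel hD Q).1 u v h

lemma psi_T (hD : D ≠ 0) {T : EP D} (hT : IsT T) : psi hD T = 0 :=
  (psi_rel hD T).unique (rel_T hD hT)

lemma psi_ker (hD : D ≠ 0) {T : EP D} (hT : IsT T) {Q : EP D} (h : psi hD Q = 0) :
    Q = 0 ∨ Q = T ∨ Q = -T := by
  rcases cases_is hD hT Q with hA | hA | hA | ⟨u₁, v₁, hA⟩
  · exact Or.inl hA
  · exact Or.inr (Or.inl hA)
  · exact Or.inr (Or.inr hA)
  · exact absurd h (psi_is hD hA).ne_zero

end Pool.Agent.T2H55.XY
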