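import Pool.Agent.T2H55.XY.Mod

/-!
# Heights
-/

set_option autoImplicit false
set_option linter.unusedVariables false

namespace Pool.Agent.T2H55.XY

/-- size -/
def Mx (U V : ℤ) : ℤ := max |U| (max |V| |U + V|)

lemma le_Mx (U V : ℤ) : |U| ≤ Mx U V ∧ |V| ≤ Mx U V ∧ |U + V| ≤ Mx U V :=
  ⟨le_max_left _ _, (le_max_left _ _).trans (le_max_right _ _),
    (le_max_right _ _).trans (le_max_right _ _)⟩

lemma Mx_le {U V m : ℤ} (h1 : |U| ≤ m) (h2 : |V| ≤ m) (h3 : |U + V| ≤ m) : Mx U V ≤ m :=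
  max_le h1 (max_le h2 h3)

lemma Mx_nonneg (U V : ℤ) : 0 ≤ Mx U V := (abs_nonneg U).trans (le_Mx U V).1

lemma Mx_swap (U V : ℤ) : Mx V U = Mx U V := by
  apply le_antisymm
  · exact Mx_le (le_Mx U V).2.1 (le_Mx U V).1 (by rw [add_comm]; exact (le_Mx U V).2.2)
  · exact Mx_le (le_Mx V U).2.1 (le_Mx V U).1 (by rw [add_comm]; exact (le_Mx V U).2.2)

lemma Mx_cyc (U V : ℤ) : Mx V (-(U + V)) = Mx U V := by
  apply le_antisymm
  · refine Mx_le (le_Mx U V).2.1 ?_ ?_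
    · rw [abs_neg]; exact (le_Mx U V).2.2
    · have : V + -(U + V) = -U := by ring
      rw [this, abs_neg]; exact (le_Mx U V).1
  · have h := le_Mx V (-(U + V))
    refine Mx_le ?_ h.1 ?_
    · have : U = -(V + -(U + V)) := by ring
      rw [this, abs_neg]
      convert h.2.2 using 2
      ring_nf
    · rw [← abs_neg]; exact h.2.1

/-- the cubic forms -/
def Xz (U V : ℤ) : ℤ := U ^ 3 - 3 * U ^ 2 * V - 6 * U * V ^ 2 - V ^ 3

def Yz (U V : ℤ) : ℤ := -(U ^ 3 + 6 * U ^ 2 * V + 3 * U * V ^ 2 - V ^ 3)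

lemma Xz_cyc (U V : ℤ) : Xz V (-(U + V)) = Xz U V := by unfold Xz; ring

lemma Yz_cyc (U V : ℤ) : Yz V (-(U + V)) = Yz U V := by unfold Yz; ring

lemma Xz_neg (U V : ℤ) : Xz (-U) (-V) = -Xz U V := by unfold Xz; ring

lemma Yz_neg (U V : ℤ) : Yz (-U) (-V) = -Yz U V := by unfold Yz; ring

lemma forms_pos {U V : ℤ} (hU : 0 ≤ U) (hV : 0 ≤ V) :
    Mx U V ^ 3 ≤ max |Xz U V| |Yz U V| := by
  have hM : Mx U V = U + V := by
    unfold Mx
    rw [abs_of_nonneg hU, abs_of_nonneg hV, abs_of_nonneg (add_nonneg hU hV)]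
    rw [max_eq_right (by omega : V ≤ U + V), max_eq_right (by omega : U ≤ U + V)]
  rw [hM]
  rcases le_total V U with h | h
  · refine le_max_of_le_right ?_
    refine le_trans ?_ (neg_le_abs _)
    unfold Yz
    have h1 : 0 ≤ V * (U ^ 2 - V ^ 2) := mul_nonneg hV (by nlinarith)
    have h2 : 0 ≤ V * U ^ 2 := by positivity
    nlinarith
  · refine le_max_of_le_left ?_
    refine le_trans ?_ (neg_le_abs _)
    unfold Xz
    have h1 : 0 ≤ U * (V ^ 2 - U ^ 2) := mul_nonneg hU (by nlinarith)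
    have h2 : 0 ≤ U * V ^ 2 := by positivity
    nlinarith

lemma forms_same {U V : ℤ} (h : 0 ≤ U * V) : Mx U V ^ 3 ≤ max |Xz U V| |Yz U V| := by
  rcases le_total 0 U with hU | hU
  · rcases hU.eq_or_lt with h0 | h0
    · rcases le_total 0 V with hV | hV
      · exact forms_pos hU hV
      · have h1 := forms_pos (U := -U) (V := -V) (by omega) (by omega)
        rw [Xz_neg, Yz_neg, abs_neg, abs_neg] at h1
        have e : Mx (-U) (-V) = Mx U V := by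
          unfold Mx
          rw [abs_neg, abs_neg, ← neg_add, abs_neg]
        rwa [e] at h1
    · exact forms_pos hU (nonneg_of_mul_nonneg_right h h0)
  · rcases hU.eq_or_lt with h0 | h0
    · rcases le_total 0 V with hV | hV
      · exact forms_pos h0.ge hV
      · have h1 := forms_pos (U := -U) (V := -V) (by omega) (by omega)
        rw [Xz_neg, Yz_neg, abs_neg, abs_neg] at h1
        have e : Mx (-U) (-V) = Mx U V := by
          unfold Mx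
          rw [abs_neg, abs_neg, ← neg_add, abs_neg]
        rwa [e] at h1
    · have hV : V ≤ 0 := by
        by_contra hcon
        push Not at hcon
        nlinarith
      have h1 := forms_pos (U := -U) (V := -V) (by omega) (by omega)
      rw [Xz_neg, Yz_neg, abs_neg, abs_neg] at h1
      have e : Mx (-U) (-V) = Mx U V := by
        unfold Mx
        rw [abs_neg, abs_neg, ← neg_add, abs_neg]
      rwa [e] at h1

lemma forms (U V : ℤ) : Mx U V ^ 3 ≤ max |Xz U V| |Yz U V| := by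
  rcases le_or_gt 0 (U * V) with h | h
  · exact forms_same h
  · rcases le_or_gt 0 (V * -(U + V)) with h1 | h1
    · have := forms_same h1
      rwa [Mx_cyc, Xz_cyc, Yz_cyc] at this
    · have h2 : 0 ≤ -(U + V) * U := by
        by_contra hcon
        push Not at hcon
        have h3 : 0 < (U * V) * (V * -(U + V)) := mul_pos_of_neg_of_neg h h1
        have h4 : (U * V) * (V * -(U + V)) * (-(U + V) * U) < 0 := mul_neg_of_pos_of_neg h3 hcon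
        have h5 : 0 ≤ (U * V * -(U + V)) ^ 2 := sq_nonneg _
        have e : (U * V) * (V * -(U + V)) * (-(U + V) * U) = (U * V * -(U + V)) ^ 2 := by ring
        rw [e] at h4
        exact absurd h5 (not_le.2 h4)
      have e : (-(V + -(U + V)) : ℤ) = U := by ring
      have h3 := forms_same (U := -(U + V)) (V := -(V + -(U + V))) (by rw [e]; exact h2)
      rwa [Mx_cyc, Xz_cyc, Yz_cyc, Mx_cyc, Xz_cyc, Yz_cyc] at h3

lemma gcd_forms {U V g : ℤ} (h : IsCoprime U V) (h1 : g ∣ Xz U V) (h2 : g ∣ Yz U V) : g ∣ 9 := by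
  have hgU : IsCoprime g U := by
    have e : IsCoprime (Xz U V) U := by
      have h3 : IsCoprime (-V ^ 3) U := (h.symm.pow_left).neg_left
      have h4 := h3.add_mul_left_left (U ^ 2 - 3 * U * V - 6 * V ^ 2)
      have e : -V ^ 3 + U * (U ^ 2 - 3 * U * V - 6 * V ^ 2) = Xz U V := by unfold Xz; ring
      rwa [e] at h4
    exact e.of_isCoprime_of_dvd_left h1
  have hgV : IsCoprime g V := by
    have e : IsCoprime (Xz U V) V := by
      have h3 : IsCoprime (U ^ 3) V := h.pow_left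
      have h4 := h3.add_mul_left_left (-3 * U ^ 2 - 6 * U * V - V ^ 2)
      have e : U ^ 3 + V * (-3 * U ^ 2 - 6 * U * V - V ^ 2) = Xz U V := by unfold Xz; ring
      rwa [e] at h4
    exact e.of_isCoprime_of_dvd_left h1
  have hgW : IsCoprime g (U + V) := by
    have h0 : IsCoprime U (U + V) := by
      have := h.add_mul_left_right 1
      have e : V + U * 1 = U + V := by ring
      rwa [e] at this
    have e : IsCoprime (Xz U V) (U + V) := by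
      have h3 : IsCoprime (-U ^ 3) (U + V) := (h0.pow_left).neg_left
      have h4 := h3.add_mul_left_left (2 * U ^ 2 - 5 * U * V - V ^ 2)
      have e : -U ^ 3 + (U + V) * (2 * U ^ 2 - 5 * U * V - V ^ 2) = Xz U V := by unfold Xz; ring
      rwa [e] at h4
    exact e.of_isCoprime_of_dvd_left h1
  have h5 : g ∣ (U * V * (U + V)) * 9 := by
    have e : (U * V * (U + V)) * 9 = -(Xz U V + Yz U V) := by unfold Xz Yz; ring
    rw [e]
    exact (dvd_add h1 h2).neg_right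
  exact ((hgU.mul_right hgV).mul_right hgW).dvd_of_dvd_mul_left h5

/-! ### integral coordinates -/

variable {D : ℤ}

/-- integral coordinates of a point -/
structure Rep (Q : EP (D : ℚ)) (U V T : ℤ) : Prop where
  T0 : T ≠ 0
  cop : IsCoprime U V
  is : Is Q ((U : ℚ) / T) ((V : ℚ) / T)

lemma Rep.eqn {Q : EP (D : ℚ)} {U V T : ℤ} (h : Rep Q U V T) : U * V * (U + V) = -(D * T ^ 3) := by
  have h1 := h.is.1
  have hT : (T : ℚ) ≠ 0 := by exact_mod_cast h.T0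
  have h2 : (U * V * (U + V) : ℚ) = -(D * T ^ 3) := by
    field_simp at h1
    linear_combination h1
  exact_mod_cast h2

lemma Rep.ne {Q : EP (D : ℚ)} {U V T : ℤ} (hD : D ≠ 0) (h : Rep Q U V T) :
    U ≠ 0 ∧ V ≠ 0 ∧ U + V ≠ 0 := by
  have h1 := h.eqn
  have h2 : U * V * (U + V) ≠ 0 := by
    rw [h1]
    exact neg_ne_zero.2 (mul_ne_zero hD (pow_ne_zero 3 h.T0))
  exact ⟨fun e => h2 (by rw [e]; ring), fun e => h2 (by rw [e]; ring), right_ne_zero_of_mul h2⟩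

lemma Rep.neg {Q : EP (D : ℚ)} {U V T : ℤ} (h : Rep Q U V T) : Rep (-Q) V U T :=
  ⟨h.T0, h.cop.symm, h.is.neg⟩

lemma cop_cyc {U V : ℤ} (h : IsCoprime U V) : IsCoprime V (-(U + V)) := by
  have h1 := (h.symm.neg_right).add_mul_left_right (-1)
  have e : -U + V * -1 = -(U + V) := by ring
  rwa [e] at h1

lemma Rep.subT {Q S : EP (D : ℚ)} {U V T : ℤ} (hD : D ≠ 0) (hS : IsT S) (h : Rep Q U V T) :
    Rep (Q - S) V (-(U + V)) T := by
  refine ⟨h.T0, cop_cyc h.cop, ?_⟩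
  have h1 := h.is.subT (by exact_mod_cast hD) hS
  have e : -((U : ℚ) / T + V / T) = ((-(U + V) : ℤ) : ℚ) / T := by push_cast; ring
  rwa [e] at h1

lemma sqf_dvd {D g m : ℤ} (hD : Squarefree D) (hg : g ≠ 0) (h : g ^ 3 ∣ D * m ^ 3) : g ∣ m := by
  obtain ⟨g', hg'⟩ : ((Int.gcd g m : ℕ) : ℤ) ∣ g := Int.gcd_dvd_left g m
  obtain ⟨m', hm'⟩ : ((Int.gcd g m : ℕ) : ℤ) ∣ m := Int.gcd_dvd_right g m
  have hd0 : ((Int.gcd g m : ℕ) : ℤ) ≠ 0 := by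
    intro h0
    rw [h0, zero_mul] at hg'
    exact hg hg'
  have hcop : IsCoprime g' m' := by
    rw [Int.isCoprime_iff_gcd_eq_one]
    have h1 := Int.gcd_mul_left (Int.gcd g m : ℤ) g' m'
    rw [← hg', ← hm'] at h1
    have h2 : (Int.gcd g m : ℤ).natAbs = Int.gcd g m := Int.natAbs_natCast _
    rw [h2] at h1
    have h3 : 0 < Int.gcd g m := Nat.pos_of_ne_zero (by exact_mod_cast hd0)
    have h4 : Int.gcd g m * 1 = Int.gcd g m * Int.gcd g' m' := by rw [mul_one]; exact h1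
    exact (Nat.eq_of_mul_eq_mul_left h3 h4).symm
  obtain ⟨d, hd⟩ : ∃ d : ℤ, d = ((Int.gcd g m : ℕ) : ℤ) := ⟨_, rfl⟩
  rw [← hd] at hg' hm' hd0
  have h1 : g' ^ 3 ∣ D * m' ^ 3 := by
    rw [hg', hm'] at h
    have e1 : (d * g') ^ 3 = d ^ 3 * g' ^ 3 := by ring
    have e2 : D * (d * m') ^ 3 = d ^ 3 * (D * m' ^ 3) := by ring
    rw [e1, e2] at h
    exact (mul_dvd_mul_iff_left (pow_ne_zero 3 hd0)).1 h
  have h2 : g' ^ 3 ∣ D := (hcop.pow (m := 3) (n := 3)).dvd_of_dvd_mul_right h1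
  have h3 : IsUnit g' := hD g' ((Dvd.intro g' (by ring)).trans h2)
  rw [hg', hm']
  exact mul_dvd_mul_left d (h3.dvd)

lemma exists_rep (hD0 : D ≠ 0) (hD : Squarefree D) {Q : EP (D : ℚ)} {u v : ℚ} (h : Is Q u v) :
    ∃ U V T : ℤ, Rep Q U V T ∧ u = U / T ∧ v = V / T := by
  have hD0' : (D : ℚ) ≠ 0 := by exact_mod_cast hD0
  obtain ⟨hu, hv, hw⟩ := h.ne hD0'
  obtain ⟨a, ha⟩ : ∃ a : ℤ, a = u.num * v.den := ⟨_, rfl⟩
  obtain ⟨b, hb⟩ : ∃ b : ℤ, b = v.num * u.den := ⟨_, rfl⟩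
  obtain ⟨m, hm⟩ : ∃ m : ℤ, m = u.den * v.den := ⟨_, rfl⟩
  have hud : (u.den : ℚ) ≠ 0 := by exact_mod_cast u.den_nz
  have hvd : (v.den : ℚ) ≠ 0 := by exact_mod_cast v.den_nz
  have hm0 : (m : ℚ) ≠ 0 := by rw [hm]; push_cast; exact mul_ne_zero hud hvd
  have hm0' : m ≠ 0 := by exact_mod_cast hm0
  have hua : u = a / m := by
    have := Rat.num_div_den u
    rw [ha, hm]
    push_cast
    rw [mul_div_mul_right _ _ hvd, this]
  have hvb : v = b / m := by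
    have := Rat.num_div_den v
    rw [hb, hm]
    push_cast
    rw [mul_comm (u.den : ℚ), mul_div_mul_right _ _ hud, this]
  have ha0 : a ≠ 0 := by
    rintro rfl
    apply hu
    rw [hua]; simp
  obtain ⟨g, hg⟩ : ∃ g : ℤ, g = ((Int.gcd a b : ℕ) : ℤ) := ⟨_, rfl⟩
  have hg0 : g ≠ 0 := by
    rw [hg]
    exact_mod_cast fun h0 => ha0 (Int.gcd_eq_zero_iff.1 h0).1
  obtain ⟨U, hU⟩ : g ∣ a := by rw [hg]; exact Int.gcd_dvd_left a b
  obtain ⟨V, hV⟩ : g ∣ b := by rw [hg]; exact Int.gcd_dvd_right a b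
  have hcop : IsCoprime U V := by
    rw [Int.isCoprime_iff_gcd_eq_one]
    have h1 := Int.gcd_mul_left g U V
    rw [← hU, ← hV] at h1
    have h2 : g.natAbs = Int.gcd a b := by rw [hg]; exact Int.natAbs_natCast _
    rw [h2] at h1
    have h3 : 0 < Int.gcd a b := Nat.pos_of_ne_zero (by rw [hg] at hg0; exact_mod_cast hg0)
    have h4 : Int.gcd a b * 1 = Int.gcd a b * Int.gcd U V := by rw [mul_one]; exact h1
    exact (Nat.eq_of_mul_eq_mul_left h3 h4).symm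
  have hgm : g ∣ m := by
    refine sqf_dvd hD hg0 ?_
    have h1 := h.1
    rw [hua, hvb] at h1
    have h2 : (a * b * (a + b) : ℚ) = -(D * m ^ 3) := by
      field_simp at h1
      linear_combination h1
    have h3 : a * b * (a + b) = -(D * m ^ 3) := by exact_mod_cast h2
    rw [hU, hV] at h3
    exact ⟨-(U * V * (U + V)), by linear_combination h3⟩
  obtain ⟨T, hT⟩ := hgm
  have hT0 : T ≠ 0 := by
    rintro rfl
    apply hm0'
    rw [hT]; ring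
  have hg0' : (g : ℚ) ≠ 0 := by exact_mod_cast hg0
  have hu2 : u = U / T := by
    rw [hua, hU, hT]; push_cast
    rw [mul_div_mul_left _ _ hg0']
  have hv2 : v = V / T := by
    rw [hvb, hV, hT]; push_cast
    rw [mul_div_mul_left _ _ hg0']
  refine ⟨U, V, T, ⟨hT0, hcop, ?_⟩, hu2, hv2⟩
  rw [← hu2, ← hv2]
  exact h

/-- a lower bound for the size -/
lemma Rep.ge {Q : EP (D : ℚ)} {U V T : ℤ} (hD : D ≠ 0) (h : Rep Q U V T) {p : ℕ} (hp : p.Prime)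
    (hpD : (p : ℤ) ∣ D) : (p : ℤ) ≤ Mx U V := by
  obtain ⟨hU, hV, hW⟩ := h.ne hD
  have h1 : (p : ℤ) ∣ U * V * (U + V) := by
    rw [h.eqn]
    exact (hpD.mul_right _).neg_right
  have hpr : Prime (p : ℤ) := Nat.prime_iff_prime_int.1 hp
  rcases hpr.dvd_or_dvd h1 with h2 | h2
  · rcases hpr.dvd_or_dvd h2 with h3 | h3
    · exact (Int.le_of_dvd (abs_pos.2 hU) ((dvd_abs _ _).2 h3)).trans (le_Mx U V).1
    · exact (Int.le_of_dvd (abs_pos.2 hV) ((dvd_abs _ _).2 h3)).trans (le_Mx U V).2.1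
  · exact (Int.le_of_dvd (abs_pos.2 hW) ((dvd_abs _ _).2 h2)).trans (le_Mx U V).2.2

/-! ### heights and the group law -/

lemma Xf_int {U V T : ℤ} (hU : U ≠ 0) (hT : T ≠ 0) :
    Xf ((U : ℚ) / T) ((V : ℚ) / T) * (3 * T * (U ^ 2 + U * V + V ^ 2)) = Xz U V ∧
    Yf ((U : ℚ) / T) ((V : ℚ) / T) * (3 * T * (U ^ 2 + U * V + V ^ 2)) = Yz U V := by
  have hT' : (T : ℚ) ≠ 0 := by exact_mod_cast hT
  have hU' : (U : ℚ) ≠ 0 := by exact_mod_cast hU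
  have hn := (nf_pos (v := (V : ℚ)) hU').ne'
  have e : ((U : ℚ) / T) ^ 2 + U / T * (V / T) + (V / T) ^ 2 = (U ^ 2 + U * V + V ^ 2) / T ^ 2 := by
    field_simp
  unfold Xf Yf Xz Yz
  rw [e]
  obtain ⟨n, hnd⟩ : ∃ n : ℚ, n = U ^ 2 + U * V + V ^ 2 := ⟨_, rfl⟩
  rw [← hnd] at hn ⊢
  constructor
  · field_simp
    push_cast
    ring
  · field_simp
    push_cast
    ring

/-- multiplication by three multiplies the height by nine, up to a constant -/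
lemma Rep.tri {Q : EP (D : ℚ)} {U V T U' V' T' : ℤ} (hD : D ≠ 0) (h : Rep Q U V T) (hUV : U ≠ V)
    (h' : Rep (Q + Q + Q) U' V' T') : Mx U V ^ 9 ≤ 729 * Mx U' V' := by
  have hDq : (D : ℚ) ≠ 0 := by exact_mod_cast hD
  obtain ⟨hU, hV, hW⟩ := h.ne hD
  obtain ⟨hU', hV', hW'⟩ := h'.ne hD
  have hTq : (T : ℚ) ≠ 0 := by exact_mod_cast h.T0
  have hTq' : (T' : ℚ) ≠ 0 := by exact_mod_cast h'.T0
  have hUq : (U : ℚ) ≠ 0 := by exact_mod_cast hU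
  have hne : (U : ℚ) / T ≠ V / T := by
    intro e
    rw [div_left_inj' hTq] at e
    exact hUV (by exact_mod_cast e)
  have h1 := h.is.tri hDq hne
  obtain ⟨e1, e2⟩ := h'.is.2.inj h1
  have e3 := h'.is.1
  obtain ⟨f1, f2⟩ := Xf_int (V := V) hU h.T0
  have hc := Xf_cube (v := (V : ℚ) / T) (div_ne_zero hUq hTq)
  have e4 := h.is.1
  rw [e4, neg_neg] at hc
  obtain ⟨X, hX⟩ : ∃ X, X = Xf ((U : ℚ) / T) (V / T) := ⟨_, rfl⟩
  obtain ⟨Y, hY⟩ : ∃ Y, Y = Yf ((U : ℚ) / T) (V / T) := ⟨_, rfl⟩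
  rw [← hX] at e1 f1 hc
  rw [← hY] at e1 e2 f2 hc
  obtain ⟨u', hu'⟩ : ∃ u' : ℚ, u' = U' / T' := ⟨_, rfl⟩
  obtain ⟨v', hv'⟩ : ∃ v' : ℚ, v' = V' / T' := ⟨_, rfl⟩
  rw [← hu', ← hv'] at e1 e2 e3
  have hu0 : u' ≠ 0 := by rw [hu']; exact div_ne_zero (by exact_mod_cast hU') hTq'
  have hv0 : v' ≠ 0 := by rw [hv']; exact div_ne_zero (by exact_mod_cast hV') hTq'
  -- the ratio
  have r1 : u' * X ^ 3 = v' * Y ^ 3 := by
    have r2 : X ^ 3 = -(u' * v' ^ 2) := by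
      have : u' * v' ^ 2 = -D - u' ^ 2 * v' := by rw [← e3]; ring
      rw [this, e2]
      linear_combination hc
    have r3 : Y ^ 3 = -(u' ^ 2 * v') := by rw [e2]; ring
    rw [r2, r3]; ring
  have r4 : (U' : ℚ) * (Xz U V) ^ 3 = V' * (Yz U V) ^ 3 := by
    have r5 : (U' : ℚ) * X ^ 3 = V' * Y ^ 3 := by
      rw [hu', hv'] at r1
      field_simp at r1
      linear_combination r1
    rw [← f1, ← f2]
    linear_combination (3 * (T : ℚ) * (U ^ 2 + U * V + V ^ 2)) ^ 3 * r5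
  have r6 : U' * Xz U V ^ 3 = V' * Yz U V ^ 3 := by exact_mod_cast r4
  -- the gcd
  have hforms := forms U V
  have hMpos : 0 < Mx U V := lt_of_lt_of_le (abs_pos.2 hU) (le_Mx U V).1
  have hxy : Xz U V ≠ 0 ∨ Yz U V ≠ 0 := by
    by_contra hcon
    push Not at hcon
    rw [hcon.1, hcon.2, abs_zero, max_self] at hforms
    have : 0 < Mx U V ^ 3 := pow_pos hMpos 3
    omega
  have hX0 : Xz U V ≠ 0 := by
    intro h0
    rw [h0] at r6
    have h1 : V' * Yz U V ^ 3 = 0 := by rw [← r6]; ring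
    rcases hxy with h2 | h2
    · exact h2 h0
    · exact (mul_ne_zero hV' (pow_ne_zero 3 h2)) h1
  have hY0 : Yz U V ≠ 0 := by
    intro h0
    rw [h0] at r6
    have h1 : U' * Xz U V ^ 3 = 0 := by rw [r6]; ring
    exact (mul_ne_zero hU' (pow_ne_zero 3 hX0)) h1
  obtain ⟨g, hg⟩ : ∃ g : ℤ, g = ((Int.gcd (Xz U V) (Yz U V) : ℕ) : ℤ) := ⟨_, rfl⟩
  have hg1 : g ∣ Xz U V := by rw [hg]; exact Int.gcd_dvd_left _ _
  have hg2 : g ∣ Yz U V := by rw [hg]; exact Int.gcd_dvd_right _ _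
  have hg9 : g ∣ 9 := gcd_forms h.cop hg1 hg2
  have hgle : |g| ≤ 9 := by
    have := Int.le_of_dvd (by norm_num : (0 : ℤ) < 9) hg9
    have hgn : 0 ≤ g := by rw [hg]; positivity
    rwa [abs_of_nonneg hgn]
  have hg0 : g ≠ 0 := by
    rintro rfl
    rw [zero_dvd_iff] at hg1
    exact hX0 hg1
  obtain ⟨x, hx⟩ := hg1
  obtain ⟨y, hy⟩ := hg2
  have hcop : IsCoprime x y := by
    rw [Int.isCoprime_iff_gcd_eq_one]
    have h1 := Int.gcd_mul_left g x y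
    rw [← hx, ← hy] at h1
    have h2 : g.natAbs = Int.gcd (Xz U V) (Yz U V) := by rw [hg]; exact Int.natAbs_natCast _
    rw [h2] at h1
    have h3 : 0 < Int.gcd (Xz U V) (Yz U V) :=
      Nat.pos_of_ne_zero (by rw [hg] at hg0; exact_mod_cast hg0)
    have h4 : Int.gcd (Xz U V) (Yz U V) * 1 = Int.gcd (Xz U V) (Yz U V) * Int.gcd x y := by
      rw [mul_one]; exact h1
    exact (Nat.eq_of_mul_eq_mul_left h3 h4).symm
  have r7 : U' * x ^ 3 = V' * y ^ 3 := by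
    rw [hx, hy] at r6
    have : g ^ 3 * (U' * x ^ 3) = g ^ 3 * (V' * y ^ 3) := by linear_combination r6
    exact mul_left_cancel₀ (pow_ne_zero 3 hg0) this
  have hcop3 : IsCoprime (x ^ 3) (y ^ 3) := hcop.pow
  have hdU : y ^ 3 ∣ U' := (hcop3.symm).dvd_of_dvd_mul_right (by rw [r7]; exact dvd_mul_left _ _)
  have hdV : x ^ 3 ∣ V' := (hcop3).dvd_of_dvd_mul_right (by rw [← r7]; exact dvd_mul_left _ _)
  have bU : |y| ^ 3 ≤ |U'| := by
    rw [← abs_pow]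
    exact Int.le_of_dvd (abs_pos.2 hU') ((abs_dvd_abs _ _).2 hdU)
  have bV : |x| ^ 3 ≤ |V'| := by
    rw [← abs_pow]
    exact Int.le_of_dvd (abs_pos.2 hV') ((abs_dvd_abs _ _).2 hdV)
  have hMM := le_Mx U' V'
  have k1 : |Xz U V| ^ 3 ≤ 729 * Mx U' V' := by
    rw [hx, abs_mul, mul_pow]
    calc |g| ^ 3 * |x| ^ 3 ≤ 9 ^ 3 * |V'| := by gcongr
      _ ≤ 9 ^ 3 * Mx U' V' := by gcongr; exact hMM.2.1
      _ = _ := by norm_num
  have k2 : |Yz U V| ^ 3 ≤ 729 * Mx U' V' := by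
    rw [hy, abs_mul, mul_pow]
    calc |g| ^ 3 * |y| ^ 3 ≤ 9 ^ 3 * |U'| := by gcongr
      _ ≤ 9 ^ 3 * Mx U' V' := by gcongr; exact hMM.1
      _ = _ := by norm_num
  have e9 : Mx U V ^ 9 = (Mx U V ^ 3) ^ 3 := by ring
  rw [e9]
  rcases max_choice |Xz U V| |Yz U V| with hm | hm
  · rw [hm] at hforms
    exact (pow_le_pow_left₀ (pow_nonneg hMpos.le 3) hforms 3).trans k1
  · rw [hm] at hforms
    exact (pow_le_pow_left₀ (pow_nonneg hMpos.le 3) hforms 3).trans k2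

/-- polar form -/
def alz (D U₁ V₁ T₁ U₂ V₂ T₂ : ℤ) : ℤ :=
  V₂ * (2 * U₂ + V₂) * U₁ + U₂ * (U₂ + 2 * V₂) * V₁ + 3 * D * T₁ * T₂ ^ 2

lemma cube_le {a b : ℤ} (hb : 0 ≤ b) (h : a ^ 3 ≤ b ^ 3) : a ≤ b :=
  (Odd.strictMono_pow (by decide : Odd 3)).le_iff_le.1 h

lemma DT_le {Q : EP (D : ℚ)} {U V T : ℤ} (h : Rep Q U V T) : |D| * |T| ^ 3 ≤ Mx U V ^ 3 := by
  have e : |D| * |T| ^ 3 = |U| * |V| * |U + V| := by
    rw [← abs_pow, ← abs_mul, ← abs_mul, ← abs_mul, h.eqn, abs_neg]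
  rw [e]
  obtain ⟨h1, h2, h3⟩ := le_Mx U V
  have hM := Mx_nonneg U V
  calc |U| * |V| * |U + V| ≤ Mx U V * Mx U V * Mx U V := by gcongr
    _ = _ := by ring

lemma alz_le {A B : EP (D : ℚ)} {U₁ V₁ T₁ U₂ V₂ T₂ : ℤ} (h1 : Rep A U₁ V₁ T₁) (h2 : Rep B U₂ V₂ T₂) :
    |alz D U₁ V₁ T₁ U₂ V₂ T₂| ≤ 7 * (Mx U₁ V₁ * Mx U₂ V₂ ^ 2) := by
  obtain ⟨a1, a2, a3⟩ := le_Mx U₁ V₁
  obtain ⟨b1, b2, b3⟩ := le_Mx U₂ V₂
  have hM1 := Mx_nonneg U₁ V₁
  have hM2 := Mx_nonneg U₂ V₂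
  have c1 : |2 * U₂ + V₂| ≤ 2 * Mx U₂ V₂ := by
    have : 2 * U₂ + V₂ = U₂ + (U₂ + V₂) := by ring
    rw [this]
    exact (abs_add_le _ _).trans (by linarith)
  have c2 : |U₂ + 2 * V₂| ≤ 2 * Mx U₂ V₂ := by
    have : U₂ + 2 * V₂ = (U₂ + V₂) + V₂ := by ring
    rw [this]
    exact (abs_add_le _ _).trans (by linarith)
  have d1 : |V₂ * (2 * U₂ + V₂) * U₁| ≤ 2 * (Mx U₁ V₁ * Mx U₂ V₂ ^ 2) := by
    rw [abs_mul, abs_mul]
    calc |V₂| * |2 * U₂ + V₂| * |U₁| ≤ Mx U₂ V₂ * (2 * Mx U₂ V₂) * Mx U₁ V₁ := by gcongr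
      _ = _ := by ring
  have d2 : |U₂ * (U₂ + 2 * V₂) * V₁| ≤ 2 * (Mx U₁ V₁ * Mx U₂ V₂ ^ 2) := by
    rw [abs_mul, abs_mul]
    calc |U₂| * |U₂ + 2 * V₂| * |V₁| ≤ Mx U₂ V₂ * (2 * Mx U₂ V₂) * Mx U₁ V₁ := by gcongr
      _ = _ := by ring
  have d3 : |D| * |T₁| * |T₂| ^ 2 ≤ Mx U₁ V₁ * Mx U₂ V₂ ^ 2 := by
    apply cube_le (by positivity)
    calc (|D| * |T₁| * |T₂| ^ 2) ^ 3 = (|D| * |T₁| ^ 3) * (|D| * |T₂| ^ 3) ^ 2 := by ring
      _ ≤ (Mx U₁ V₁ ^ 3) * (Mx U₂ V₂ ^ 3) ^ 2 := by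
          gcongr
          · exact DT_le h1
          · exact DT_le h2
      _ = _ := by ring
  have d4 : |3 * D * T₁ * T₂ ^ 2| ≤ 3 * (Mx U₁ V₁ * Mx U₂ V₂ ^ 2) := by
    rw [abs_mul, abs_mul, abs_mul, abs_pow, abs_of_pos (by norm_num : (0 : ℤ) < 3)]
    linarith
  unfold alz
  refine (abs_add_three _ _ _).trans ?_
  linarith

/-- the height of the sum -/
lemma Rep.add_le {A B : EP (D : ℚ)} {U₁ V₁ T₁ U₂ V₂ T₂ U₃ V₃ T₃ : ℤ} (hD : D ≠ 0)
    (h1 : Rep A U₁ V₁ T₁) (h2 : Rep B U₂ V₂ T₂) (h3 : Rep (A + B) U₃ V₃ T₃) (hAB : A ≠ B)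
    (hAB' : A ≠ -B) : Mx U₃ V₃ ≤ 14 * (Mx U₁ V₁ ^ 2 * Mx U₂ V₂ ^ 2) := by
  have hDq : (D : ℚ) ≠ 0 := by exact_mod_cast hD
  have hT1 : (T₁ : ℚ) ≠ 0 := by exact_mod_cast h1.T0
  have hT2 : (T₂ : ℚ) ≠ 0 := by exact_mod_cast h2.T0
  have hT3 : (T₃ : ℚ) ≠ 0 := by exact_mod_cast h3.T0
  obtain ⟨hU3, hV3, hW3⟩ := h3.ne hD
  have hx : (U₁ : ℚ) / T₁ * (V₁ / T₁) ≠ U₂ / T₂ * (V₂ / T₂) := by
    intro e
    rcases (h1.is.2).eq_or_neg ((h2.is.2).congr (by rw [e]) rfl) with h | h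
    · exact hAB h
    · exact hAB' h
  obtain ⟨l1, l2, -⟩ := line_prop hDq h1.is h2.is hx h3.is
  obtain ⟨P, hP⟩ : ∃ P, P = alz D U₁ V₁ T₁ U₂ V₂ T₂ := ⟨_, rfl⟩
  obtain ⟨R, hR⟩ : ∃ R, R = alz D U₂ V₂ T₂ U₁ V₁ T₁ := ⟨_, rfl⟩
  have e1 : al (D : ℚ) (U₁ / T₁) (V₁ / T₁) (U₂ / T₂) (V₂ / T₂) = P / (T₁ * T₂ ^ 2) := by
    rw [hP]; unfold al alz
    push_cast
    field_simp
  have e2 : al (D : ℚ) (U₂ / T₂) (V₂ / T₂) (U₁ / T₁) (V₁ / T₁) = R / (T₁ ^ 2 * T₂) := by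
    rw [hR]; unfold al alz
    push_cast
    field_simp
  rw [e1, e2] at l1 l2
  obtain ⟨Uz, hUz⟩ : ∃ x, x = P * U₁ - R * U₂ := ⟨_, rfl⟩
  obtain ⟨Vz, hVz⟩ : ∃ x, x = P * V₁ - R * V₂ := ⟨_, rfl⟩
  have w1 : -((P : ℚ) / (T₁ * T₂ ^ 2) * (U₁ / T₁ + V₁ / T₁) -
      R / (T₁ ^ 2 * T₂) * (U₂ / T₂ + V₂ / T₂)) = -(Uz + Vz : ℤ) / (T₁ ^ 2 * T₂ ^ 2) := by
    rw [hUz, hVz]
    push_cast
    field_simp
    ring
  have w2 : (P : ℚ) / (T₁ * T₂ ^ 2) * (U₁ / T₁) - R / (T₁ ^ 2 * T₂) * (U₂ / T₂) =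
      (Uz : ℤ) / (T₁ ^ 2 * T₂ ^ 2) := by
    rw [hUz]
    push_cast
    field_simp
  rw [w1] at l1 l2
  rw [w2] at l2
  have hWz : Uz + Vz ≠ 0 := by
    intro h0
    apply l1
    rw [h0]
    simp
  have m1 : V₃ * (Uz + Vz) = (U₃ + V₃) * Uz := by
    have : (V₃ : ℚ) * (Uz + Vz) = (U₃ + V₃) * Uz := by
      push_cast at l2
      field_simp at l2
      linear_combination -l2
    exact_mod_cast this
  have m2 : U₃ * (Uz + Vz) = (U₃ + V₃) * Vz := by linear_combination -m1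
  have m3 : V₃ * Vz = U₃ * Uz := by linear_combination m1
  have hUz0 : Uz ≠ 0 := by
    intro h0
    rw [h0, mul_zero] at m1
    exact (mul_ne_zero hV3 (by rwa [h0] at hWz)) m1
  have hVz0 : Vz ≠ 0 := by
    intro h0
    rw [h0, mul_zero] at m2
    exact (mul_ne_zero hU3 (by rwa [h0] at hWz)) m2
  have b1 : |V₃| ≤ |Uz| :=
    Int.le_of_dvd (abs_pos.2 hUz0) ((abs_dvd_abs _ _).2
      (h3.cop.symm.dvd_of_dvd_mul_left (by rw [← m3]; exact dvd_mul_right _ _)))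
  have b2 : |U₃| ≤ |Vz| :=
    Int.le_of_dvd (abs_pos.2 hVz0) ((abs_dvd_abs _ _).2
      (h3.cop.dvd_of_dvd_mul_left (by rw [m3]; exact dvd_mul_right _ _)))
  have hc3 : IsCoprime (U₃ + V₃) V₃ := by
    have := h3.cop.add_mul_left_left 1
    rwa [mul_one] at this
  have b3 : |U₃ + V₃| ≤ |Uz + Vz| :=
    Int.le_of_dvd (abs_pos.2 hWz) ((abs_dvd_abs _ _).2
      (hc3.dvd_of_dvd_mul_left (by rw [m1]; exact dvd_mul_right _ _)))
  obtain ⟨a1, a2, a3⟩ := le_Mx U₁ V₁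
  obtain ⟨c1, c2, c3⟩ := le_Mx U₂ V₂
  have hM1 := Mx_nonneg U₁ V₁
  have hM2 := Mx_nonneg U₂ V₂
  have k1 : |P| ≤ 7 * (Mx U₁ V₁ * Mx U₂ V₂ ^ 2) := by rw [hP]; exact alz_le h1 h2
  have k2 : |R| ≤ 7 * (Mx U₂ V₂ * Mx U₁ V₁ ^ 2) := by rw [hR]; exact alz_le h2 h1
  have key : ∀ x y : ℤ, |x| ≤ Mx U₁ V₁ → |y| ≤ Mx U₂ V₂ →
      |P * x - R * y| ≤ 14 * (Mx U₁ V₁ ^ 2 * Mx U₂ V₂ ^ 2) := by
    intro x y hx hy
    refine (abs_sub _ _).trans ?_
    rw [abs_mul, abs_mul]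
    calc |P| * |x| + |R| * |y| ≤ 7 * (Mx U₁ V₁ * Mx U₂ V₂ ^ 2) * Mx U₁ V₁ +
        7 * (Mx U₂ V₂ * Mx U₁ V₁ ^ 2) * Mx U₂ V₂ := by gcongr
      _ = _ := by ring
  refine Mx_le (b2.trans ?_) (b1.trans ?_) (b3.trans ?_)
  · rw [hVz]; exact key _ _ a2 c2
  · rw [hUz]; exact key _ _ a1 c1
  · have : Uz + Vz = P * (U₁ + V₁) - R * (U₂ + V₂) := by rw [hUz, hVz]; ring
    rw [this]
    exact key _ _ a3 c3

end Pool.Agent.T2H55.XY
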