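import Pool.Agent.T2H55.XY.Fin

/-!
# Points of infinite order, the generator
-/

set_option autoImplicit false
set_option linter.unusedVariables false

namespace Pool.Agent.T2H55.XY

variable {p q : ℕ} {D : ℤ}

lemma ten_le (hp : p.Prime) (hq : q.Prime) (hpq : p ≠ q) (hp3 : p % 3 = 2) (hq3 : q % 3 = 2)
    (hD : D = p * q) : 10 ≤ D ∧ (5 : ℤ) ≤ max (p : ℤ) (q : ℤ) := by
  have h1 := hp.two_le
  have h2 := hq.two_le
  have h3 : 5 ≤ max p q ∧ 10 ≤ p * q := by
    rcases lt_or_gt_of_ne hpq with h3 | h3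
    · have h5 : 5 ≤ q := by
        by_contra h4
        push Not at h4
        interval_cases q <;> omega
      exact ⟨le_max_of_le_right h5, by nlinarith⟩
    · have h5 : 5 ≤ p := by
        by_contra h4
        push Not at h4
        interval_cases p <;> omega
      exact ⟨le_max_of_le_left h5, by nlinarith⟩
  constructor
  · rw [hD]; exact_mod_cast h3.2
  · exact_mod_cast h3.1

lemma not_cube_pq (hp : p.Prime) (hq : q.Prime) (hpq : p ≠ q) (x : ℚ) : x ^ 3 ≠ (p : ℚ) * q := by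
  intro h
  have e : x.num ^ 3 = (p * q : ℤ) * x.den ^ 3 := by
    have h1 := Rat.num_div_den x
    have hd : (x.den : ℚ) ≠ 0 := by exact_mod_cast x.den_nz
    rw [← h1] at h
    field_simp at h
    have : (x.num : ℚ) ^ 3 = ((p : ℚ) * q) * (x.den : ℚ) ^ 3 := by linear_combination h
    exact_mod_cast this
  have h2 := sqf hp hq hpq (D := (p * q : ℤ)) rfl
  have hnum : x.num ≠ 0 := by
    intro h0
    rw [h0] at e
    have : (p * q : ℤ) * x.den ^ 3 ≠ 0 := mul_ne_zero
      (mul_ne_zero (by exact_mod_cast hp.ne_zero) (by exact_mod_cast hq.ne_zero))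
      (pow_ne_zero 3 (by exact_mod_cast x.den_nz))
    exact this (by rw [← e]; norm_num)
  have h3 : x.num ∣ (x.den : ℤ) := sqf_dvd h2 hnum ⟨1, by rw [← e]; ring⟩
  have h4 : IsUnit x.num := by
    have hc : IsCoprime x.num (x.den : ℤ) := by
      rw [Int.isCoprime_iff_gcd_eq_one]
      exact x.reduced
    exact hc.isUnit_of_dvd' dvd_rfl h3
  have h5 : (p : ℤ) ∣ x.num ^ 3 := by rw [e]; exact ((dvd_mul_right _ _).mul_right _)
  have h6 : IsUnit (p : ℤ) := isUnit_of_dvd_unit h5 (h4.pow 3)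
  exact (Nat.prime_iff_prime_int.1 hp).not_isUnit h6

/-- the threefold of a point which is not in the group of order three -/
lemma tri_ok (hp : p.Prime) (hq : q.Prime) (hpq : p ≠ q) (hp3 : p % 3 = 2) (hq3 : q % 3 = 2)
    (hD : D = p * q) {S : EP (D : ℚ)} (hS : IsT S) {Q : EP (D : ℚ)} {U V T : ℤ}
    (h : Rep Q U V T) : ∃ U' V' T' : ℤ, Rep (Q + Q + Q) U' V' T' ∧ Mx U V < Mx U' V' := by
  have hD0 := D_ne hp hq hD
  have hDq : (D : ℚ) ≠ 0 := by exact_mod_cast hD0
  have hD10 := ten_le hp hq hpq hp3 hq3 hD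
  have hUV : U ≠ V := by
    rintro rfl
    have h1 := h.eqn
    have h2 : IsUnit U := h.cop.isUnit_of_dvd' dvd_rfl dvd_rfl
    have h3 : D ∣ 2 := by
      have h4 : D ∣ U * U * (U + U) := by rw [h1]; exact (dvd_mul_right _ _).neg_right
      rcases Int.isUnit_iff.1 h2 with h5 | h5 <;> rw [h5] at h4 <;> norm_num at h4 <;> exact h4
    have := Int.le_of_dvd (by norm_num) h3
    omega
  have hTq : (T : ℚ) ≠ 0 := by exact_mod_cast h.T0
  have hne : (U : ℚ) / T ≠ V / T := by
    intro e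
    rw [div_left_inj' hTq] at e
    exact hUV (by exact_mod_cast e)
  obtain ⟨hU, hV, hW⟩ := h.ne hD0
  have hUq : (U : ℚ) / T ≠ 0 := div_ne_zero (by exact_mod_cast hU) hTq
  have h1 := h.is.tri hDq hne
  have hc := Xf_cube (v := (V : ℚ) / T) hUq
  rw [h.is.1, neg_neg, hD] at hc
  push_cast at hc
  have hX : Xf ((U : ℚ) / T) (V / T) ≠ 0 := by
    intro h0
    rw [h0] at hc
    exact not_cube_pq hp hq hpq _ (by rw [← hc]; ring)
  have hY : Yf ((U : ℚ) / T) (V / T) ≠ 0 := by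
    intro h0
    rw [h0] at hc
    exact not_cube_pq hp hq hpq _ (by rw [← hc]; ring)
  have h2 := is_of_at (neg_ne_zero.2 (mul_ne_zero hX hY)) h1
  obtain ⟨U', V', T', h3, -, -⟩ := exists_rep hD0 (sqf hp hq hpq hD) h2
  refine ⟨U', V', T', h3, ?_⟩
  have h4 := h.tri hD0 hUV h3
  have h5 : (5 : ℤ) ≤ Mx U V := by
    refine hD10.2.trans (max_le ?_ ?_)
    · exact h.ge hD0 hp ⟨q, hD⟩
    · exact h.ge hD0 hq ⟨p, by rw [hD]; ring⟩
  by_contra h6
  push Not at h6
  have h7 : (Mx U V) ^ 8 * Mx U V ≤ 729 * Mx U V := by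
    calc (Mx U V) ^ 8 * Mx U V = Mx U V ^ 9 := by ring
      _ ≤ 729 * Mx U' V' := h4
      _ ≤ _ := by linarith
  have h8 : (Mx U V) ^ 8 ≤ 729 := le_of_mul_le_mul_right h7 (by omega)
  have h9 : (5 : ℤ) ^ 8 ≤ Mx U V ^ 8 := pow_le_pow_left₀ (by norm_num) h5 8
  norm_num at h9
  omega

/-- the first group is infinite as soon as it has a point with coordinates different from zero -/
lemma infinite (hp : p.Prime) (hq : q.Prime) (hpq : p ≠ q) (hp3 : p % 3 = 2) (hq3 : q % 3 = 2)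
    (hD : D = p * q) {S : EP (D : ℚ)} (hS : IsT S) {Q : EP (D : ℚ)} {U V T : ℤ}
    (h : Rep Q U V T) : Infinite (EP (D : ℚ)) := by
  by_contra hfin
  rw [not_infinite_iff_finite] at hfin
  -- a point of maximal height
  have hfs : (Set.range fun R : {R : EP (D : ℚ) // ∃ U V T : ℤ, Rep R U V T} =>
      (Mx R.2.choose R.2.choose_spec.choose)).Finite := Set.finite_range _
  obtain ⟨B, hB⟩ := hfs.bddAbove
  have key : ∀ n : ℕ, ∃ (R : EP (D : ℚ)) (U V T : ℤ), Rep R U V T ∧ (n : ℤ) ≤ Mx U V := by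
    intro n
    induction n with
    | zero => exact ⟨Q, U, V, T, h, by simpa using Mx_nonneg U V⟩
    | succ n ih =>
      obtain ⟨R, U₁, V₁, T₁, h1, h2⟩ := ih
      obtain ⟨U', V', T', h3, h4⟩ := tri_ok hp hq hpq hp3 hq3 hD hS h1
      exact ⟨_, U', V', T', h3, by push_cast; omega⟩
  have hD0 := D_ne hp hq hD
  have hDq : (D : ℚ) ≠ 0 := by exact_mod_cast hD0
  -- the height is bounded
  have huniq : ∀ (R : EP (D : ℚ)) (U V T U' V' T' : ℤ), Rep R U V T → Rep R U' V' T' →
      Mx U V = Mx U' V' := by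
    intro R U V T U' V' T' h h'
    obtain ⟨e1, e2⟩ := h.is.inj hDq h'.is
    have hT : (T : ℚ) ≠ 0 := by exact_mod_cast h.T0
    have hT' : (T' : ℚ) ≠ 0 := by exact_mod_cast h'.T0
    have f1 : U * T' = U' * T := by
      rw [div_eq_div_iff hT hT'] at e1
      exact_mod_cast e1
    have f2 : V * T' = V' * T := by
      rw [div_eq_div_iff hT hT'] at e2
      exact_mod_cast e2
    have g1 : T' ∣ T := by
      obtain ⟨a, b, hab⟩ := h'.cop
      exact ⟨a * U + b * V, by linear_combination (-(T : ℤ)) * hab - a * f1 - b * f2⟩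
    have g2 : T ∣ T' := by
      obtain ⟨a, b, hab⟩ := h.cop
      exact ⟨a * U' + b * V', by linear_combination (-(T' : ℤ)) * hab + a * f1 + b * f2⟩
    rcases Int.associated_iff.1 (associated_of_dvd_dvd g1 g2) with h3 | h3
    · rw [h3] at f1 f2
      rw [mul_right_cancel₀ h.T0 f1, mul_right_cancel₀ h.T0 f2]
    · rw [h3] at f1 f2
      have a1 : U = -U' := mul_right_cancel₀ h.T0 (by linear_combination (-1) * f1)
      have a2 : V = -V' := mul_right_cancel₀ h.T0 (by linear_combination (-1) * f2)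
      rw [a1, a2]
      unfold Mx
      rw [abs_neg, abs_neg]
      have : -U' + -V' = -(U' + V') := by ring
      rw [this, abs_neg]
  obtain ⟨R, U₁, V₁, T₁, h1, h2⟩ := key (B.toNat + 1)
  have hex : ∃ U V T : ℤ, Rep R U V T := ⟨U₁, V₁, T₁, h1⟩
  have h3 := hB ⟨⟨R, hex⟩, rfl⟩
  have h4 := huniq R _ _ _ _ _ _ h1 hex.choose_spec.choose_spec.choose_spec
  simp only at h3
  rw [← h4] at h3
  have := Int.self_le_toNat B
  push_cast at h2
  omega

end Pool.Agent.T2H55.XY
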