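import Pool.Agent.T2H55.XY.Inf

/-!
# The generator of the group of the rational points of `X³ + Y³ = p q`
-/

set_option autoImplicit false
set_option linter.unusedVariables false

namespace Pool.Agent.T2H55.XY

variable {p q : ℕ} {D : ℤ}

lemma finite_of_finite (hDq : (D : ℚ) ≠ 0) (h : Finite (CP (D : ℚ))) : Finite (EP (D : ℚ)) := by
  obtain ⟨S, hS⟩ := exists_T hDq
  have h1 : (Set.univ : Set (EP (D : ℚ))).Finite := by
    have h2 := Set.Finite.preimage' (f := psi hDq) (Set.finite_univ (α := CP (D : ℚ))) ?_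
    · simpa using h2
    · intro b _
      by_cases hb : ∃ Q, psi hDq Q = b
      · obtain ⟨Q, hQ⟩ := hb
        refine ((Set.finite_singleton Q).union ((Set.finite_singleton (Q + S)).union
          (Set.finite_singleton (Q - S)))).subset ?_
        intro R hR
        have hR' : psi hDq R = b := hR
        have h3 : psi hDq (R - Q) = 0 := by rw [map_sub, hR', hQ, sub_self]
        rcases psi_ker hDq hS h3 with h4 | h4 | h4
        · left
          exact sub_eq_zero.1 h4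
        · right; left
          show R = Q + S
          rw [← h4]; abel
        · right; right
          show R = Q - S
          rw [sub_eq_add_neg, ← h4]; abel
      · refine Set.finite_empty.subset ?_
        intro R hR
        exact absurd ⟨R, hR⟩ hb
  exact Set.finite_univ_iff.1 h1

/-- the group is infinite cyclic and generated by the image of a small point -/
theorem core (hp : p.Prime) (hq : q.Prime) (hpq : p ≠ q) (hp3 : p % 3 = 2) (hq3 : q % 3 = 2)
    (h9 : p % 9 ≠ 8) (hD : D = p * q) (hDq : (D : ℚ) ≠ 0) {P : EP (D : ℚ)} {U₀ V₀ T₀ : ℤ}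
    (hP : Rep P U₀ V₀ T₀)
    (hcl : cls p ((U₀ : ℚ) / T₀) (V₀ / T₀) ≠ cls q ((U₀ : ℚ) / T₀) (V₀ / T₀))
    (hM : 10206 * Mx U₀ V₀ ^ 2 < (max p q : ℤ) ^ 7) :
    Function.Bijective fun n : ℤ => n • psi hDq P := by
  obtain ⟨S, hS⟩ := exists_T hDq
  have hgen := gen hp hq hpq hp3 hq3 h9 hD hS hP hcl hM
    ((AddSubgroup.zmultiples (psi hDq P)).comap (psi hDq))
    (by
      show psi hDq S ∈ AddSubgroup.zmultiples (psi hDq P)
      rw [psi_T hDq hS]
      exact AddSubgroup.zero_mem _)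
    (AddSubgroup.mem_zmultiples _)
  have hsurj : ∀ R : CP (D : ℚ), R ∈ AddSubgroup.zmultiples (psi hDq P) := by
    intro R
    by_cases hR : R = 0
    · rw [hR]
      exact AddSubgroup.zero_mem _
    obtain ⟨Q, hQ⟩ := psi_surj hp hq hpq hp3 hq3 h9 hD hDq R hR
    have h1 : Q ∈ (AddSubgroup.zmultiples (psi hDq P)).comap (psi hDq) := by
      rw [hgen]
      exact AddSubgroup.mem_top Q
    have h2 : psi hDq Q ∈ AddSubgroup.zmultiples (psi hDq P) := h1
    rwa [hQ] at h2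
  have hinf := infinite hp hq hpq hp3 hq3 hD hS hP
  constructor
  · rw [injective_zsmul_iff_not_isOfFinAddOrder]
    intro hfin
    have h1 : ((AddSubgroup.zmultiples (psi hDq P) : AddSubgroup (CP (D : ℚ))) :
        Set (CP (D : ℚ))).Finite := finite_zmultiples.2 hfin
    have h2 : Finite (CP (D : ℚ)) := by
      rw [← Set.finite_univ_iff]
      refine h1.subset ?_
      intro R _
      exact hsurj R
    have h3 := finite_of_finite hDq h2
    exact not_finite (EP (D : ℚ))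
  · intro R
    exact AddSubgroup.mem_zmultiples_iff.1 (hsurj R)

/-- the theorem for a solution of `p x³ + q y³ = z³` -/
theorem main (hp : p.Prime) (hq : q.Prime) (hpq : p ≠ q) (hp3 : p % 3 = 2) (hq3 : q % 3 = 2)
    (h9 : ¬ (p % 9 = 8 ∧ q % 9 = 8)) (hD : D = p * q) {x y z : ℤ} (hx : x ≠ 0) (hy : y ≠ 0)
    (hz : z ≠ 0) (h : (p : ℤ) * x ^ 3 + q * y ^ 3 = z ^ 3) (hcop : IsCoprime ((p : ℤ) * x) (q * y))
    (hM : 10206 * Mx (p * x ^ 3) (q * y ^ 3) ^ 2 < (max p q : ℤ) ^ 7) :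
    ∃ P : CP (D : ℚ),
      At P (wx D (Xf (((p : ℤ) * x ^ 3 : ℤ) / ((-(x * y * z) : ℤ) : ℚ))
          (((q : ℤ) * y ^ 3 : ℤ) / ((-(x * y * z) : ℤ) : ℚ)))
        (Yf (((p : ℤ) * x ^ 3 : ℤ) / ((-(x * y * z) : ℤ) : ℚ))
          (((q : ℤ) * y ^ 3 : ℤ) / ((-(x * y * z) : ℤ) : ℚ))))
        (wy D (Xf (((p : ℤ) * x ^ 3 : ℤ) / ((-(x * y * z) : ℤ) : ℚ))
          (((q : ℤ) * y ^ 3 : ℤ) / ((-(x * y * z) : ℤ) : ℚ)))
        (Yf (((p : ℤ) * x ^ 3 : ℤ) / ((-(x * y * z) : ℤ) : ℚ))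
          (((q : ℤ) * y ^ 3 : ℤ) / ((-(x * y * z) : ℤ) : ℚ)))) ∧
      Function.Bijective fun n : ℤ => n • P := by
  have hD0 := D_ne hp hq hD
  have hDq : (D : ℚ) ≠ 0 := by exact_mod_cast hD0
  obtain ⟨U, hU⟩ : ∃ U : ℤ, U = p * x ^ 3 := ⟨_, rfl⟩
  obtain ⟨V, hV⟩ : ∃ V : ℤ, V = q * y ^ 3 := ⟨_, rfl⟩
  obtain ⟨T, hT⟩ : ∃ T : ℤ, T = -(x * y * z) := ⟨_, rfl⟩
  rw [← hU, ← hV] at hM h
  rw [← hU, ← hV, ← hT]
  have hT0 : T ≠ 0 := by
    rw [hT]
    exact neg_ne_zero.2 (mul_ne_zero (mul_ne_zero hx hy) hz)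
  have hTq : (T : ℚ) ≠ 0 := by exact_mod_cast hT0
  have hcUV : IsCoprime U V := by
    have c1 : IsCoprime ((p : ℤ) * x ^ 3) (q * y ^ 3) := by
      have a1 := hcop.of_mul_left_left.of_mul_right_left
      have a2 := hcop.of_mul_left_left.of_mul_right_right
      have a3 := hcop.of_mul_left_right.of_mul_right_left
      have a4 := hcop.of_mul_left_right.of_mul_right_right
      exact (a1.mul_right a2.pow_right).mul_left (a3.pow_left.mul_right (a4.pow))
    rwa [← hU, ← hV] at c1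
  have heq : U * V * (U + V) = -(D * T ^ 3) := by
    rw [h, hU, hV, hT, hD]
    ring
  have heq' : (U : ℚ) / T * (V / T) * (U / T + V / T) = -(D : ℚ) := by
    have : (U * V * (U + V) : ℚ) = -(D * T ^ 3) := by exact_mod_cast heq
    field_simp
    linear_combination this
  have hdE : (D : ℚ) ^ 2 + 4 * 0 ≠ 0 := by
    have : (D : ℚ) ^ 2 ≠ 0 := pow_ne_zero 2 hDq
    intro h; apply this; linarith
  obtain ⟨Q, hQ⟩ : ∃ Q : EP (D : ℚ), At Q (-((U : ℚ) / T * (V / T))) (((U : ℚ) / T) ^ 2 * (V / T)) := by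
    refine at_mk hdE ?_
    have : (D : ℚ) = -((U : ℚ) / T * (V / T) * (U / T + V / T)) := by rw [heq']; ring
    rw [this]
    ring
  have hrep : Rep Q U V T := ⟨hT0, hcUV, heq', hQ⟩
  have hpD := val_D hp hq hpq hD
  have hqD := val_D hq hp hpq.symm (by rw [hD, mul_comm] : D = q * p)
  have hpr : Prime (p : ℤ) := Nat.prime_iff_prime_int.1 hp
  have hqr : Prime (q : ℤ) := Nat.prime_iff_prime_int.1 hq
  have hpU : (p : ℤ) ∣ U := by rw [hU]; exact dvd_mul_right _ _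
  have hqV : (q : ℤ) ∣ V := by rw [hV]; exact dvd_mul_right _ _
  have hcl : cls p ((U : ℚ) / T) (V / T) ≠ cls q ((U : ℚ) / T) (V / T) := by
    have c1 : cls p ((U : ℚ) / T) (V / T) = 2 := by
      rcases hrep.cls_eq hp hpD hD0 with h1 | h1 | h1
      · exact h1.2
      · exact absurd (hcUV.isUnit_of_dvd' hpU h1.1) hpr.not_isUnit
      · exact absurd (hcUV.isUnit_of_dvd' hpU ((dvd_add_right hpU).1 h1.1)) hpr.not_isUnit
    have c2 : cls q ((U : ℚ) / T) (V / T) = 1 := by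
      rcases hrep.cls_eq hq hqD hD0 with h1 | h1 | h1
      · exact absurd (hcUV.isUnit_of_dvd' h1.1 hqV) hqr.not_isUnit
      · exact h1.2
      · exact absurd (hcUV.isUnit_of_dvd' ((dvd_add_left hqV).1 h1.1) hqV) hqr.not_isUnit
    rw [c1, c2]
    decide
  refine ⟨psi hDq Q, ?_, ?_⟩
  · obtain ⟨w1, w2⟩ := wx_px hDq heq'
    exact (psi_is hDq ⟨heq', hQ⟩).congr w1.symm w2.symm
  · by_cases h8 : p % 9 = 8
    · have h8' : q % 9 ≠ 8 := fun h => h9 ⟨h8, h⟩
      exact core hq hp hpq.symm hq3 hp3 h8' (by rw [hD, mul_comm]) hDq hrep hcl.symm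
        (by rw [max_comm]; exact hM)
    · exact core hp hq hpq hp3 hq3 h8 hD hDq hrep hcl hM

end Pool.Agent.T2H55.XY
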