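import Pool.Agent.T2H55.XY.Mod

/-!
# The isogeny from `y² + D y = x³` to `y² = x³ - 432 D²`
-/

set_option autoImplicit false
set_option linter.unusedVariables false

namespace Pool.Agent.T2H55.XY

/-- the group of rational points of `y² = x³ - 432 D²` -/
abbrev CP (D : ℚ) := WP 0 (-432 * D ^ 2)

/-- coordinates of the image -/
def px (u v : ℚ) : ℚ := 4 * (u ^ 2 + u * v + v ^ 2)

def py (u v : ℚ) : ℚ := 4 * (u - v) * (2 * u + v) * (u + 2 * v)

variable {D : ℚ}

/-- the graph of the isogeny -/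
def Rel (Q : EP D) (R : CP D) : Prop :=
  (∀ u v, Is Q u v → At R (px u v) (py u v)) ∧ ((¬ ∃ u v, Is Q u v) → R = 0)

lemma disc_ne (hD : D ≠ 0) : (0 : ℚ) ^ 2 + 4 * (-432 * D ^ 2) ≠ 0 := by
  have : D ^ 2 ≠ 0 := pow_ne_zero 2 hD
  intro h
  apply this
  linarith

lemma exists_rel (hD : D ≠ 0) (Q : EP D) : ∃ R, Rel Q R := by
  by_cases h : ∃ u v, Is Q u v
  · obtain ⟨u, v, h⟩ := h
    obtain ⟨R, hR⟩ : ∃ R : CP D, At R (px u v) (py u v) := by
      refine at_mk (disc_ne hD) ?_
      have e : D = -(u * v * (u + v)) := by rw [h.1]; ring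
      rw [e]
      unfold px py
      ring
    refine ⟨R, ?_, fun h' => absurd ⟨u, v, h⟩ h'⟩
    intro u' v' h'
    obtain ⟨rfl, rfl⟩ := h.inj hD h'
    exact hR
  · exact ⟨0, fun u v h' => absurd ⟨u, v, h'⟩ h, fun _ => rfl⟩

lemma Rel.unique {Q : EP D} {R R' : CP D} (h : Rel Q R) (h' : Rel Q R') : R = R' := by
  by_cases hQ : ∃ u v, Is Q u v
  · obtain ⟨u, v, hQ⟩ := hQ
    exact (h.1 u v hQ).ext (h'.1 u v hQ)
  · rw [h.2 hQ, h'.2 hQ]

lemma Rel.neg (hD : D ≠ 0) {Q : EP D} {R : CP D} (h : Rel Q R) : Rel (-Q) (-R) := by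
  constructor
  · intro u v hQ
    have h1 := hQ.neg
    rw [neg_neg] at h1
    have h2 := (h.1 _ _ h1).neg
    refine h2.congr ?_ ?_
    · unfold px; ring
    · unfold py; ring
  · intro hQ
    have : ¬ ∃ u v, Is Q u v := by
      rintro ⟨u, v, h1⟩
      exact hQ ⟨v, u, h1.neg⟩
    rw [h.2 this, neg_zero]

lemma Rel.addT (hD : D ≠ 0) {T : EP D} (hT : IsT T) {Q : EP D} {R : CP D} (h : Rel Q R) :
    Rel (Q + T) R := by
  constructor
  · intro u v hQ
    have h1 := hQ.subT hD hT
    rw [add_sub_cancel_right] at h1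
    refine (h.1 _ _ h1).congr ?_ ?_
    · unfold px; ring
    · unfold py; ring
  · intro hQ
    apply h.2
    rintro ⟨u, v, h1⟩
    exact hQ ⟨_, _, h1.addT hD hT⟩

lemma Rel.subT (hD : D ≠ 0) {T : EP D} (hT : IsT T) {Q : EP D} {R : CP D} (h : Rel Q R) :
    Rel (Q - T) R := by
  have h1 := (h.addT hD hT).addT hD hT
  have e : Q + T + T = Q - T := by rw [add_assoc, T_dbl hD hT, sub_eq_add_neg]
  rwa [e] at h1

lemma not_is_zero : ¬ ∃ u v, Is (0 : EP D) u v := by
  rintro ⟨u, v, h⟩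
  exact h.2.ne_zero rfl

lemma rel_zero : Rel (0 : EP D) 0 :=
  ⟨fun u v h => absurd ⟨u, v, h⟩ not_is_zero, fun _ => rfl⟩

lemma not_is_T (hD : D ≠ 0) {T : EP D} (hT : IsT T) : ¬ ∃ u v, Is T u v := by
  rintro ⟨u, v, h⟩
  obtain ⟨hu, hv, -⟩ := h.ne hD
  have := (h.2.inj hT).1
  exact (mul_ne_zero hu hv) (neg_eq_zero.1 this)

lemma rel_T (hD : D ≠ 0) {T : EP D} (hT : IsT T) : Rel T 0 := by
  have h := (rel_zero (D := D)).addT hD hT
  rwa [zero_add] at h

/-- doubling -/
lemma Rel.dbl (hD : D ≠ 0) {T : EP D} (hT : IsT T) {Q : EP D} {R : CP D} (h : Rel Q R) :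
    Rel (Q + Q) (R + R) := by
  rcases cases_is hD hT Q with h1 | h1 | h1 | ⟨u, v, h1⟩
  · subst h1
    rw [h.2 not_is_zero, add_zero, add_zero]
    exact rel_zero
  · subst h1
    rw [h.2 (not_is_T hD hT), T_dbl hD hT, add_zero]
    have := (rel_T hD hT).neg hD
    rwa [neg_zero] at this
  · subst h1
    have h2 := (rel_T hD hT).neg hD
    rw [neg_zero] at h2
    rw [h.unique h2, ← neg_add, T_dbl hD hT, neg_neg, add_zero]
    exact rel_T hD hT
  · obtain ⟨hu, hv, hw⟩ := h1.ne hD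
    have hR := h.1 u v h1
    by_cases huv : u = v
    · subst huv
      have e1 : R + R = 0 := by
        apply hR.two
        unfold py; ring
      have e2 : Q + Q = 0 := by
        apply h1.2.two
        have := h1.1
        linear_combination this
      rw [e1, e2]
      exact rel_zero
    have h2 := h1.dbl hD huv
    have huv' : u - v ≠ 0 := sub_ne_zero.2 huv
    by_cases hz : (2 * u + v) * (u + 2 * v) = 0
    · have e1 : R + R = 0 := by
        apply hR.two
        unfold py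
        linear_combination 8 * (u - v) * hz
      rw [e1]
      have hx : u * v * (u + 2 * v) * (2 * u + v) / (u - v) ^ 2 = 0 := by
        rw [div_eq_zero_iff]
        left
        linear_combination u * v * hz
      rw [hx] at h2
      rcases h2.eq_or_neg hT with h3 | h3
      · rw [h3]; exact rel_T hD hT
      · rw [h3]
        have := (rel_T hD hT).neg hD
        rwa [neg_zero] at this
    · have hz1 : 2 * u + v ≠ 0 := left_ne_zero_of_mul hz
      have hz2 : u + 2 * v ≠ 0 := right_ne_zero_of_mul hz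
      have hx : u * v * (u + 2 * v) * (2 * u + v) / (u - v) ^ 2 ≠ 0 := by positivity
      have h3 := is_of_at hx h2
      obtain ⟨u', hu'⟩ : ∃ u', u' = v * (2 * u + v) ^ 2 / ((u + 2 * v) * (u - v)) := ⟨_, rfl⟩
      obtain ⟨v', hv'⟩ : ∃ v', v' = -(u * (u + 2 * v) ^ 2) / ((2 * u + v) * (u - v)) := ⟨_, rfl⟩
      have eu : -(-(u * v ^ 2 * (2 * u + v) ^ 3) / (u - v) ^ 3) /
          (u * v * (u + 2 * v) * (2 * u + v) / (u - v) ^ 2) = u' := by
        rw [hu']; field_simp
      have ev : (u * v * (u + 2 * v) * (2 * u + v) / (u - v) ^ 2) ^ 2 /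
          (-(u * v ^ 2 * (2 * u + v) ^ 3) / (u - v) ^ 3) = v' := by
        rw [hv']; field_simp
      rw [eu, ev] at h3
      have hY : 2 * py u v + 0 ≠ 0 := by
        unfold py
        have : 2 * (4 * (u - v) * (2 * u + v) * (u + 2 * v)) + 0 =
          8 * ((u - v) * ((2 * u + v) * (u + 2 * v))) := by ring
        rw [this]
        exact mul_ne_zero (by norm_num) (mul_ne_zero huv' hz)
      obtain ⟨R', hR'⟩ := exists_rel hD (Q + Q)
      have h5 := hR'.1 _ _ h3
      obtain ⟨α, hα⟩ : ∃ α, α = u - v := ⟨_, rfl⟩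
      obtain ⟨β, hβ⟩ : ∃ β, β = 2 * u + v := ⟨_, rfl⟩
      obtain ⟨γ, hγ⟩ : ∃ γ, γ = u + 2 * v := ⟨_, rfl⟩
      have hpy : py u v = 4 * α * β * γ := by unfold py; rw [hα, hβ, hγ]
      rw [← hα, ← hβ, ← hγ] at hu' hv'
      rw [← hα] at huv'
      rw [← hβ] at hz1
      rw [← hγ] at hz2
      rw [hpy] at hR hY
      have h4 := hR.dbl hY (l := 6 * (u ^ 2 + u * v + v ^ 2) ^ 2 / (α * β * γ)) (by
        unfold px
        rw [add_zero]
        field_simp
        ring)
      have h6 : R + R = R' := by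
        refine h4.ext (h5.congr ?_ ?_)
        · unfold px
          rw [hu', hv']
          field_simp
          rw [hα, hβ, hγ]
          ring
        · unfold px py
          rw [hu', hv']
          field_simp
          rw [hα, hβ, hγ]
          ring
      rw [h6]
      exact hR'

end Pool.Agent.T2H55.XY
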