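import Mathlib

/-!
# Points of `y² + a y = x³ + b`
-/

set_option autoImplicit false

namespace Pool.Agent.T2H55.XY

open WeierstrassCurve

/-- the curve `y² + a y = x³ + b` -/
def Wc (a b : ℚ) : WeierstrassCurve ℚ := ⟨0, 0, a, 0, b⟩

/-- its group of rational points -/
abbrev WP (a b : ℚ) := (Wc a b).toAffine.Point

/-- the point `Q` has the coordinates `x, y` -/
def At {a b : ℚ} (Q : WP a b) (x y : ℚ) : Prop := ∃ h, Q = Affine.Point.some x y h

variable {a b : ℚ}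

lemma disc : (Wc a b).Δ = -27 * (a ^ 2 + 4 * b) ^ 2 := by
  unfold Wc WeierstrassCurve.Δ WeierstrassCurve.b₂ WeierstrassCurve.b₄ WeierstrassCurve.b₆
    WeierstrassCurve.b₈
  ring

lemma eq_iff (x y : ℚ) : (Wc a b).toAffine.Equation x y ↔ y ^ 2 + a * y = x ^ 3 + b := by
  rw [Affine.equation_iff]
  simp [Wc]

lemma ns (hΔ : a ^ 2 + 4 * b ≠ 0) {x y : ℚ} (h : y ^ 2 + a * y = x ^ 3 + b) :
    (Wc a b).toAffine.Nonsingular x y := by
  refine (Affine.equation_iff_nonsingular_of_Δ_ne_zero (W := (Wc a b).toAffine) ?_).1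
    ((eq_iff x y).2 h)
  show (Wc a b).Δ ≠ 0
  rw [disc]
  exact mul_ne_zero (by norm_num) (pow_ne_zero 2 hΔ)

lemma at_mk (hΔ : a ^ 2 + 4 * b ≠ 0) {x y : ℚ} (h : y ^ 2 + a * y = x ^ 3 + b) :
    ∃ Q : WP a b, At Q x y := ⟨.some x y (ns hΔ h), ns hΔ h, rfl⟩

lemma At.eqn {Q : WP a b} {x y : ℚ} (h : At Q x y) : y ^ 2 + a * y = x ^ 3 + b := by
  obtain ⟨h, rfl⟩ := h
  exact (eq_iff x y).1 h.1

lemma At.inj {Q : WP a b} {x y x' y' : ℚ} (h : At Q x y) (h' : At Q x' y') : x = x' ∧ y = y' := by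
  obtain ⟨h, rfl⟩ := h
  obtain ⟨h', e⟩ := h'
  simpa using e

lemma At.ext {Q R : WP a b} {x y : ℚ} (h : At Q x y) (h' : At R x y) : Q = R := by
  obtain ⟨h, rfl⟩ := h
  obtain ⟨h', rfl⟩ := h'
  rfl

lemma At.ne_zero {Q : WP a b} {x y : ℚ} (h : At Q x y) : Q ≠ 0 := by
  obtain ⟨h, rfl⟩ := h
  exact Affine.Point.some_ne_zero h

lemma cases_at (Q : WP a b) : Q = 0 ∨ ∃ x y, At Q x y := by
  cases Q with
  | zero => exact Or.inl rfl
  | some x y h => exact Or.inr ⟨x, y, h, rfl⟩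

lemma At.neg {Q : WP a b} {x y : ℚ} (h : At Q x y) : At (-Q) x (-y - a) := by
  obtain ⟨h, rfl⟩ := h
  rw [Affine.Point.neg_some]
  have e : (Wc a b).toAffine.negY x y = -y - a := by
    simp [Affine.negY, Wc]
  have h2 := (Affine.nonsingular_neg x y).2 h
  refine ⟨by rw [← e]; exact h2, ?_⟩
  congr 1

lemma At.congr {Q : WP a b} {x y x' y' : ℚ} (h : At Q x y) (hx : x = x') (hy : y = y') :
    At Q x' y' := by subst hx; subst hy; exact h

/-- the slope -/
lemma At.add {Q R : WP a b} {x y x' y' : ℚ} (h : At Q x y) (h' : At R x' y') (hx : x ≠ x')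
    {l : ℚ} (hl : l = (y - y') / (x - x')) :
    At (Q + R) (l ^ 2 - x - x') (-(l * (l ^ 2 - x - x' - x) + y) - a) := by
  obtain ⟨h, rfl⟩ := h
  obtain ⟨h', rfl⟩ := h'
  rw [Affine.Point.add_of_X_ne hx]
  have e1 : (Wc a b).toAffine.slope x x' y y' = l := by
    rw [Affine.slope_of_X_ne hx, hl]
  have e2 : (Wc a b).toAffine.addX x x' l = l ^ 2 - x - x' := by
    simp [Affine.addX, Wc]
  have e3 : (Wc a b).toAffine.addY x x' y l = -(l * (l ^ 2 - x - x' - x) + y) - a := by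
    simp [Affine.addY, Affine.negAddY, Affine.negY, Affine.addX, Wc]
  have h4 := Affine.nonsingular_add h h' (fun hxy => hx hxy.1)
  rw [e1, e2, e3] at h4
  refine ⟨h4, ?_⟩
  congr 1
  · rw [e1, e2]
  · rw [e1, e3]

lemma At.dbl {Q : WP a b} {x y : ℚ} (h : At Q x y) (hy : 2 * y + a ≠ 0)
    {l : ℚ} (hl : l = 3 * x ^ 2 / (2 * y + a)) :
    At (Q + Q) (l ^ 2 - 2 * x) (-(l * (l ^ 2 - 3 * x) + y) - a) := by
  obtain ⟨h, rfl⟩ := h
  have hne : y ≠ (Wc a b).toAffine.negY x y := by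
    intro e
    apply hy
    have : (Wc a b).toAffine.negY x y = -y - a := by simp [Affine.negY, Wc]
    rw [this] at e
    linarith
  rw [Affine.Point.add_self_of_Y_ne hne]
  have e1 : (Wc a b).toAffine.slope x x y y = l := by
    rw [Affine.slope_of_Y_ne rfl hne, hl]
    have : (Wc a b).toAffine.negY x y = -y - a := by simp [Affine.negY, Wc]
    rw [this]
    simp only [Wc]
    congr 1 <;> ring
  have e2 : (Wc a b).toAffine.addX x x l = l ^ 2 - 2 * x := by
    simp [Affine.addX, Wc]; ring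
  have e3 : (Wc a b).toAffine.addY x x y l = -(l * (l ^ 2 - 3 * x) + y) - a := by
    simp only [Affine.addY, Affine.negAddY, Affine.negY, Affine.addX, Wc]; ring
  have h4 := Affine.nonsingular_add h h (fun hxy => hne hxy.2)
  rw [e1, e2, e3] at h4
  refine ⟨h4, ?_⟩
  congr 1
  · rw [e1, e2]
  · rw [e1, e3]

lemma At.eq_or_neg {Q R : WP a b} {x y y' : ℚ} (h : At Q x y) (h' : At R x y') :
    Q = R ∨ Q = -R := by
  have h1 := h.eqn
  have h2 := h'.eqn
  have h3 : (y - y') * (y + y' + a) = 0 := by linear_combination h1 - h2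
  rcases mul_eq_zero.1 h3 with h4 | h4
  · left
    exact (h.congr rfl (sub_eq_zero.1 h4)).ext h'
  · right
    exact (h.congr rfl (by linarith)).ext h'.neg

/-- tangents at points of order two -/
lemma At.two {Q : WP a b} {x y : ℚ} (h : At Q x y) (hy : 2 * y + a = 0) : Q + Q = 0 := by
  have h1 : -Q = Q := (h.neg.congr rfl (by linarith)).ext h
  nth_rewrite 1 [← h1]
  exact neg_add_cancel Q

end Pool.Agent.T2H55.XY
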